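import Mathlib

set_option autoImplicit false

namespace Pool.Agent.PS38

open Finset
open scoped Nat

/-- derivative of `(x+1)…(x+b)` at `0`. -/
def dd (b : ℕ) : ℕ := ∑ i ∈ range b, ∏ j ∈ (range b).erase i, (j + 1)

section
variable {p : ℕ} [hp : Fact p.Prime]

lemma dd_zero : dd 0 = 0 := by simp [dd]

lemma dd_big {b : ℕ} (hb : 2 * p ≤ b) : ((dd b : ℕ) : ZMod p) = 0 := by
  have h0 := hp.1.pos
  rw [ZMod.natCast_eq_zero_iff]
  unfold dd
  refine Finset.dvd_sum fun i hi => ?_
  by_cases h : i = p - 1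
  · have hm : 2 * p - 1 ∈ (range b).erase i := by
      rw [mem_erase, mem_range]; constructor <;> omega
    refine dvd_trans ?_ (Finset.dvd_prod_of_mem _ hm)
    refine ⟨2, by omega⟩
  · have hm : p - 1 ∈ (range b).erase i := by
      rw [mem_erase, mem_range]; constructor
      · exact fun h' => h h'.symm
      · omega
    refine dvd_trans ?_ (Finset.dvd_prod_of_mem _ hm)
    refine ⟨1, by omega⟩

lemma dd_p : ((dd p : ℕ) : ZMod p) = -1 := by
  have h0 := hp.1.pos
  have hmem : p - 1 ∈ range p := by rw [mem_range]; omega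
  have h1 : ((dd p : ℕ) : ZMod p) = ((∏ j ∈ (range p).erase (p - 1), (j + 1) : ℕ) : ZMod p) := by
    unfold dd
    rw [Nat.cast_sum, Finset.sum_eq_single_of_mem (p - 1) hmem]
    intro i hi hne
    rw [ZMod.natCast_eq_zero_iff]
    have hm : p - 1 ∈ (range p).erase i := by
      rw [mem_erase]; exact ⟨fun h' => hne h'.symm, hmem⟩
    refine dvd_trans ?_ (Finset.dvd_prod_of_mem _ hm)
    exact ⟨1, by omega⟩
  rw [h1]
  have h2 : (range p).erase (p - 1) = range (p - 1) := by
    ext j; rw [mem_erase, mem_range, mem_range]; omega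
  rw [h2, Finset.prod_range_add_one_eq_factorial]
  exact ZMod.wilsons_lemma p

lemma dd_pred (hodd : p ≠ 2) : ((dd (p - 1) : ℕ) : ZMod p) = 0 := by
  have h2 : 2 < p := lt_of_le_of_ne hp.1.two_le (Ne.symm hodd)
  have hne : ∀ i ∈ range (p - 1), ((i : ZMod p) + 1) ≠ 0 := by
    intro i hi h
    rw [mem_range] at hi
    have h' : ((i + 1 : ℕ) : ZMod p) = 0 := by push_cast; exact h
    rw [ZMod.natCast_eq_zero_iff] at h'
    have := Nat.le_of_dvd (by omega) h'
    omega
  set T : ZMod p := ∏ j ∈ range (p - 1), ((j : ZMod p) + 1) with hT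
  have h1 : ((dd (p - 1) : ℕ) : ZMod p) = ∑ i ∈ range (p - 1), T * ((i : ZMod p) + 1)⁻¹ := by
    unfold dd
    push_cast
    refine Finset.sum_congr rfl fun i hi => ?_
    rw [hT, ← Finset.mul_prod_erase _ _ hi, mul_comm ((i : ZMod p) + 1), mul_assoc,
      mul_inv_cancel₀ (hne i hi), mul_one]
  rw [h1, ← Finset.mul_sum]
  have hrefl : ∑ i ∈ range (p - 1), ((i : ZMod p) + 1)⁻¹
      = - ∑ i ∈ range (p - 1), ((i : ZMod p) + 1)⁻¹ := by
    rw [← Finset.sum_neg_distrib]
    conv_lhs => rw [← Finset.sum_range_reflect]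
    refine Finset.sum_congr rfl fun i hi => ?_
    rw [mem_range] at hi
    have h3 : ((p - 1 - 1 - i : ℕ) : ZMod p) + 1 = -((i : ZMod p) + 1) := by
      have h4 : (p - 1 - 1 - i) + 1 + (i + 1) = p := by omega
      have h5 := congrArg (fun n : ℕ => (n : ZMod p)) h4
      simp only [Nat.cast_add, Nat.cast_one, ZMod.natCast_self] at h5
      linear_combination h5
    rw [h3, inv_neg]
  have h4 : (2 : ZMod p) * ∑ i ∈ range (p - 1), ((i : ZMod p) + 1)⁻¹ = 0 := by
    linear_combination hrefl
  have h5 : (2 : ZMod p) ≠ 0 := by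
    intro h
    have h' : ((2 : ℕ) : ZMod p) = 0 := by exact_mod_cast h
    rw [ZMod.natCast_eq_zero_iff] at h'
    have := Nat.le_of_dvd (by omega) h'
    omega
  rcases mul_eq_zero.1 h4 with h | h
  · exact absurd h h5
  · rw [h, mul_zero]

end

/-! nonvanishing of the terminating sums -/

lemma sum_desc_lt {m : ℕ} : ∀ t, t + 2 ≤ m →
    ∑ b ∈ range t, (m - 1).descFactorial b < (m - 1).descFactorial t := by
  intro t
  induction t with
  | zero => intro _; simp
  | succ t ih =>
    intro ht
    rw [Finset.sum_range_succ, Nat.descFactorial_succ]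
    have h1 := ih (by omega)
    have h2 : 2 * (m - 1).descFactorial t ≤ (m - 1 - t) * (m - 1).descFactorial t :=
      Nat.mul_le_mul_right _ (by omega)
    omega

open Classical in
lemma nonvanish (B : Set ℕ) (m : ℕ) (hm : 1 ≤ m) (h0 : 0 ∈ B)
    (hpair : ¬ (2 ≤ m ∧ m - 2 ∈ B ∧ m - 1 ∈ B)) :
    ∑ b ∈ (range m).filter (· ∈ B), (-1 : ℤ) ^ b * ((m - 1).descFactorial b : ℤ) ≠ 0 := by
  set T := (range m).filter (· ∈ B) with hT
  have hne : T.Nonempty := ⟨0, by rw [hT, mem_filter, mem_range]; exact ⟨by omega, h0⟩⟩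
  set s := T.max' hne with hs
  have hsT : s ∈ T := T.max'_mem hne
  have hsT' := hsT
  rw [hT, mem_filter, mem_range] at hsT'
  have hlt : ∑ b ∈ T.erase s, (m - 1).descFactorial b < (m - 1).descFactorial s := by
    by_cases hc : s + 2 ≤ m
    · refine lt_of_le_of_lt (Finset.sum_le_sum_of_subset ?_) (sum_desc_lt s hc)
      intro b hb
      rw [mem_erase] at hb
      rw [mem_range]
      exact lt_of_le_of_ne (T.le_max' b hb.2) hb.1
    · have hs1 : s = m - 1 := by omega
      by_cases hm1 : m = 1
      · have : T.erase s = ∅ := by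
          ext b
          simp only [mem_erase, Finset.notMem_empty, iff_false]
          rintro ⟨h1, h2⟩
          rw [hT, mem_filter, mem_range] at h2
          omega
        rw [this, Finset.sum_empty]
        have : s = 0 := by omega
        rw [this]; simp
      · have hnot : m - 2 ∉ B := fun h => hpair ⟨by omega, h, by rw [← hs1]; exact hsT'.2⟩
        have hsub : T.erase s ⊆ range (m - 2) := by
          intro b hb
          rw [mem_erase, hT, mem_filter, mem_range] at hb
          rw [mem_range]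
          have : b ≠ m - 2 := by rintro rfl; exact hnot hb.2.2
          omega
        have h1 := sum_desc_lt (m := m) (m - 2) (by omega)
        have h2 : (m - 1).descFactorial s = (m - 1).descFactorial (m - 2) := by
          have : s = (m - 2) + 1 := by omega
          rw [this, Nat.descFactorial_succ]
          have : m - 1 - (m - 2) = 1 := by omega
          rw [this, one_mul]
        rw [h2]
        exact lt_of_le_of_lt (Finset.sum_le_sum_of_subset hsub) h1
  intro hz
  rw [← Finset.add_sum_erase _ _ hsT] at hz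
  have habs : |∑ b ∈ T.erase s, (-1 : ℤ) ^ b * ((m - 1).descFactorial b : ℤ)|
      ≤ ((∑ b ∈ T.erase s, (m - 1).descFactorial b : ℕ) : ℤ) := by
    refine (Finset.abs_sum_le_sum_abs _ _).trans ?_
    push_cast
    refine Finset.sum_le_sum fun b _ => ?_
    rw [abs_mul, abs_pow, abs_neg, abs_one, one_pow, one_mul]
    exact le_of_eq (abs_of_nonneg (by positivity))
  have habs2 : |(-1 : ℤ) ^ s * ((m - 1).descFactorial s : ℤ)| = ((m - 1).descFactorial s : ℤ) := by
    rw [abs_mul, abs_pow, abs_neg, abs_one, one_pow, one_mul]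
    exact abs_of_nonneg (by positivity)
  have h3 : (-1 : ℤ) ^ s * ((m - 1).descFactorial s : ℤ)
      = - ∑ b ∈ T.erase s, (-1 : ℤ) ^ b * ((m - 1).descFactorial b : ℤ) := by linarith
  rw [h3, abs_neg] at habs2
  rw [habs2] at habs
  have : (m - 1).descFactorial s ≤ ∑ b ∈ T.erase s, (m - 1).descFactorial b := by
    exact_mod_cast habs
  omega

end Pool.Agent.PS38
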