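import Mathlib
import Pool.Agent.PS38.Deriv

set_option autoImplicit false

namespace Pool.Agent.PS38

open Finset Filter Polynomial
open scoped Nat Topology

variable {p : ℕ} [hp : Fact p.Prime]

/-- `(x+1)(x+2)…(x+b)`. -/
noncomputable def rise (x : ℤ_[p]) (b : ℕ) : ℤ_[p] := ∏ i ∈ range b, (x + (i : ℤ_[p]) + 1)

/-- the same as a polynomial. -/
noncomputable def P (p : ℕ) [Fact p.Prime] (b : ℕ) : ℤ_[p][X] :=
  ∏ i ∈ range b, (X + C ((i : ℤ_[p]) + 1))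

lemma eval_P (b : ℕ) (x : ℤ_[p]) : (P p b).eval x = rise x b := by
  unfold P rise
  rw [Polynomial.eval_prod]
  refine Finset.prod_congr rfl fun i _ => ?_
  simp [add_assoc]

lemma rise_zero_arg (b : ℕ) : rise (0 : ℤ_[p]) b = ((b ! : ℕ) : ℤ_[p]) := by
  unfold rise
  rw [← Finset.prod_range_add_one_eq_factorial]
  push_cast
  refine Finset.prod_congr rfl fun i _ => ?_
  ring

lemma deriv_P_zero (b : ℕ) : (derivative (P p b)).eval 0 = ((dd b : ℕ) : ℤ_[p]) := by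
  unfold P dd
  rw [Polynomial.derivative_prod_finset, Polynomial.eval_finsetSum]
  push_cast
  refine Finset.sum_congr rfl fun i _ => ?_
  rw [Polynomial.eval_mul, Polynomial.eval_prod]
  simp

lemma rise_asc (x : ℤ_[p]) (b : ℕ) : rise x b = (ascPochhammer ℤ_[p] b).eval (x + 1) := by
  induction b with
  | zero => simp [rise]
  | succ n ih =>
    rw [ascPochhammer_succ_eval, ← ih]
    unfold rise
    rw [Finset.prod_range_succ]
    ring

lemma norm_rise_le (x : ℤ_[p]) (b : ℕ) : ‖rise x b‖ ≤ (p : ℝ) ^ (-((b / p : ℕ) : ℤ)) := by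
  rw [rise_asc]
  refine (PadicInt.norm_ascPochhammer_le b (x + 1)).trans ?_
  have h : (p ^ (b / p) : ℕ) ∣ b ! := by
    have h1 : p ^ (b / p) ∣ (p * (b / p))! := by
      have : padicValNat p (p * (b / p))! = padicValNat p (b / p)! + b / p :=
        padicValNat_factorial_mul _
      refine (padicValNat_dvd_iff_le (hp := hp) (Nat.factorial_ne_zero _)).2 ?_
      omega
    exact h1.trans (Nat.factorial_dvd_factorial (Nat.mul_div_le b p))
  have h2 := (PadicInt.norm_int_le_pow_iff_dvd (p := p) (k := ((b ! : ℕ) : ℤ)) (n := b / p)).2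
    (by exact_mod_cast h)
  simpa using h2

lemma norm_sum_le {ι : Type*} (s : Finset ι) (f : ι → ℤ_[p]) {c : ℝ} (hc : 0 ≤ c)
    (h : ∀ i ∈ s, ‖f i‖ ≤ c) : ‖∑ i ∈ s, f i‖ ≤ c := by
  classical
  induction s using Finset.induction_on with
  | empty => simpa using hc
  | insert a s ha ih =>
    rw [Finset.sum_insert ha]
    refine (PadicInt.nonarchimedean _ _).trans (max_le (h a (mem_insert_self a s)) ?_)
    exact ih fun i hi => h i (mem_insert_of_mem hi)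

lemma lip (Q : ℤ_[p][X]) (x y : ℤ_[p]) : ‖Q.eval x - Q.eval y‖ ≤ ‖x - y‖ := by
  obtain ⟨c, hc⟩ := Polynomial.sub_dvd_eval_sub x y Q
  rw [hc, norm_mul]
  exact mul_le_of_le_one_right (norm_nonneg _) (PadicInt.norm_le_one c)

open Classical in
/-- truncated sum `∑_{b ∈ B, b < n} (x+1)…(x+b)`. -/
noncomputable def G (B : Set ℕ) (n : ℕ) (x : ℤ_[p]) : ℤ_[p] :=
  ∑ b ∈ (range n).filter (· ∈ B), rise x b

open Classical in
noncomputable def F (p : ℕ) [Fact p.Prime] (B : Set ℕ) (n : ℕ) : ℤ_[p][X] :=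
  ∑ b ∈ (range n).filter (· ∈ B), P p b

lemma eval_F (B : Set ℕ) (n : ℕ) (x : ℤ_[p]) : (F p B n).eval x = G B n x := by
  unfold F G
  rw [Polynomial.eval_finsetSum]
  exact Finset.sum_congr rfl fun b _ => eval_P b x

lemma G_lip (B : Set ℕ) (n : ℕ) (x y : ℤ_[p]) : ‖G B n x - G B n y‖ ≤ ‖x - y‖ := by
  rw [← eval_F, ← eval_F]; exact lip _ x y

lemma rise_lip (b : ℕ) (x y : ℤ_[p]) : ‖rise x b - rise y b‖ ≤ ‖x - y‖ := by
  rw [← eval_P, ← eval_P]; exact lip _ x y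

open Classical in
lemma G_tail (B : Set ℕ) (x : ℤ_[p]) {n m : ℕ} (h : n ≤ m) :
    G B m x - G B n x = ∑ b ∈ (Ico n m).filter (· ∈ B), rise x b := by
  unfold G
  have h1 : (range m).filter (· ∈ B) = (range n).filter (· ∈ B) ∪ (Ico n m).filter (· ∈ B) := by
    ext b
    simp only [mem_filter, mem_range, mem_union, mem_Ico]
    constructor
    · rintro ⟨h1, h2⟩
      by_cases hb : b < n
      · exact Or.inl ⟨hb, h2⟩
      · exact Or.inr ⟨⟨by omega, h1⟩, h2⟩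
    · rintro (⟨h1, h2⟩ | ⟨⟨h1, h3⟩, h2⟩)
      · exact ⟨by omega, h2⟩
      · exact ⟨h3, h2⟩
  rw [h1, Finset.sum_union]
  · ring
  · rw [Finset.disjoint_left]
    intro b hb hb'
    simp only [mem_filter, mem_range, mem_Ico] at hb hb'
    omega

lemma rise_dvd (x : ℤ_[p]) {b c : ℕ} (h : b ≤ c) : rise x b ∣ rise x c := by
  unfold rise
  exact Finset.prod_dvd_prod_of_subset _ _ _ (Finset.range_mono h)

lemma norm_rise_anti (x : ℤ_[p]) {b c : ℕ} (h : b ≤ c) : ‖rise x c‖ ≤ ‖rise x b‖ := by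
  obtain ⟨t, ht⟩ := rise_dvd x h
  rw [ht, norm_mul]
  exact mul_le_of_le_one_right (norm_nonneg _) (PadicInt.norm_le_one t)

lemma norm_tail_le (B : Set ℕ) (x : ℤ_[p]) {n m : ℕ} (h : n ≤ m) :
    ‖G B m x - G B n x‖ ≤ ‖rise x n‖ := by
  classical
  rw [G_tail B x h]
  refine norm_sum_le _ _ (norm_nonneg _) fun b hb => ?_
  rw [mem_filter, mem_Ico] at hb
  exact norm_rise_anti x hb.1.1

/-! the limit of the roots -/

lemma pow_tendsto (p : ℕ) [hp : Fact p.Prime] {ε : ℝ} (hε : 0 < ε) :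
    ∃ N : ℕ, ∀ b, N ≤ b → (p : ℝ) ^ (-((b / p : ℕ) : ℤ)) < ε := by
  obtain ⟨k, hk⟩ := PadicInt.exists_pow_neg_lt (p := p) hε
  refine ⟨p * k, fun b hb => lt_of_le_of_lt ?_ hk⟩
  have h1 : k ≤ b / p := by
    rw [Nat.le_div_iff_mul_le hp.1.pos, mul_comm]; exact hb
  have h2 : (1 : ℝ) ≤ p := by exact_mod_cast hp.1.one_lt.le
  exact zpow_le_zpow_right₀ h2 (by omega)

theorem exists_alpha {B : Set ℕ} {n₀ : ℕ} {ρ : ℝ} (hρ : 0 < ρ)
    (hroot : ∀ n : ℕ, ∃ z : ℤ_[p], G B (n + n₀) z = 0 ∧ ‖z‖ < ρ) :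
    ∃ α : ℤ_[p], ‖α‖ < ρ ∧ Tendsto (fun n => G B n α) atTop (𝓝 0) := by
  choose z hz0 hz1 using hroot
  obtain ⟨α, -, s, hsub, hlim⟩ := isCompact_univ.tendsto_subseq (x := z) (fun _ => Set.mem_univ _)
  rw [Metric.tendsto_atTop] at hlim
  refine ⟨α, ?_, ?_⟩
  · obtain ⟨N, hN⟩ := hlim ρ hρ
    have h1 := hN N le_rfl
    rw [dist_eq_norm] at h1
    have h2 : α = (z (s N)) + -((z (s N)) - α) := by ring
    rw [h2]
    refine lt_of_le_of_lt (PadicInt.nonarchimedean _ _) (max_lt (hz1 _) ?_)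
    rw [norm_neg]; exact h1
  · rw [Metric.tendsto_atTop]
    intro ε hε
    obtain ⟨N, hN⟩ := pow_tendsto p hε
    refine ⟨N, fun n hn => ?_⟩
    rw [dist_zero_right]
    obtain ⟨M, hM⟩ := hlim ε hε
    set j := max M n with hj
    have h1 := hM j (le_max_left _ _)
    rw [dist_eq_norm] at h1
    have hjn : n ≤ s j := (le_max_right M n).trans (hsub.id_le j)
    set m := s j + n₀ with hm
    have hnm : n ≤ m := by omega
    have e1 : G B n α = -(G B m α - G B n α) + -(G B m (z (s j)) - G B m α) := by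
      rw [hz0 (s j)]; ring
    rw [e1]
    refine lt_of_le_of_lt (PadicInt.nonarchimedean _ _) (max_lt ?_ ?_)
    · rw [norm_neg]
      exact lt_of_le_of_lt ((norm_tail_le _ _ hnm).trans (norm_rise_le _ _)) (hN n hn)
    · rw [norm_neg]
      exact lt_of_le_of_lt (G_lip _ _ _ _) h1

lemma rise_neg (m b : ℕ) (hb : b < m) :
    rise (-(m : ℤ_[p])) b = (((-1 : ℤ) ^ b * ((m - 1).descFactorial b : ℤ) : ℤ) : ℤ_[p]) := by
  induction b with
  | zero => simp [rise]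
  | succ n ih =>
    have h1 := ih (by omega)
    have h2 : rise (-(m : ℤ_[p])) (n + 1) = rise (-(m : ℤ_[p])) n * (-(m : ℤ_[p]) + n + 1) := by
      unfold rise; rw [Finset.prod_range_succ]
    rw [h2, h1, Nat.descFactorial_succ]
    have h3 : ((m - 1 - n : ℕ) : ℤ_[p]) = (m : ℤ_[p]) - 1 - n := by
      rw [Nat.cast_sub (by omega), Nat.cast_sub (by omega), Nat.cast_one]
    push_cast
    rw [h3]
    ring

lemma rise_neg_zero (m b : ℕ) (hm : 1 ≤ m) (hb : m ≤ b) : rise (-(m : ℤ_[p])) b = 0 := by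
  unfold rise
  refine Finset.prod_eq_zero (i := m - 1) (by rw [mem_range]; omega) ?_
  rw [Nat.cast_sub hm]; push_cast; ring

theorem alpha_ne {B : Set ℕ} {ρ : ℝ} (h0 : 0 ∈ B)
    (hpair : ∀ m : ℕ, 1 ≤ m → ‖(m : ℤ_[p])‖ < ρ → ¬ (2 ≤ m ∧ m - 2 ∈ B ∧ m - 1 ∈ B))
    {α : ℤ_[p]} (h1 : ‖α‖ < ρ)
    (hlim : Tendsto (fun n => G B n α) atTop (𝓝 0)) (m : ℕ) (hm : 1 ≤ m) :
    α ≠ -(m : ℤ_[p]) := by
  classical
  rintro rfl
  rw [norm_neg] at h1
  set Z : ℤ := ∑ b ∈ (range m).filter (· ∈ B), (-1 : ℤ) ^ b * ((m - 1).descFactorial b : ℤ)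
    with hZ
  have hG : ∀ n, m ≤ n → G B n (-(m : ℤ_[p])) = (Z : ℤ_[p]) := by
    intro n hn
    have e1 : G B n (-(m : ℤ_[p])) = (G B n (-(m : ℤ_[p]))
      - G B m (-(m : ℤ_[p]))) + G B m (-(m : ℤ_[p])) := by ring
    rw [e1, G_tail _ _ hn, Finset.sum_eq_zero, zero_add]
    · unfold G
      rw [hZ, Int.cast_sum]
      refine Finset.sum_congr rfl fun b hb => ?_
      rw [mem_filter, mem_range] at hb
      exact rise_neg m b hb.1
    · intro b hb
      rw [mem_filter, mem_Ico] at hb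
      exact rise_neg_zero m b hm hb.1.1
  have hlim2 : Tendsto (fun n => G B n (-(m : ℤ_[p]))) atTop (𝓝 (Z : ℤ_[p])) := by
    refine tendsto_const_nhds.congr' ?_
    filter_upwards [eventually_ge_atTop m] with n hn
    exact (hG n hn).symm
  have hZ0 : (Z : ℤ_[p]) = 0 := tendsto_nhds_unique hlim2 hlim
  have hZ1 : Z = 0 := by exact_mod_cast hZ0
  exact nonvanish B m hm h0 (hpair m hm h1) hZ1

lemma rise_ne_zero {α : ℤ_[p]} (h : ∀ m : ℕ, 1 ≤ m → α ≠ -(m : ℤ_[p])) (b : ℕ) :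
    rise α b ≠ 0 := by
  unfold rise
  rw [Finset.prod_ne_zero_iff]
  intro i _ hi
  apply h (i + 1) (by omega)
  push_cast
  linear_combination hi

lemma norm_G_le {B : Set ℕ} {α : ℤ_[p]}
    (hlim : Tendsto (fun n => G B n α) atTop (𝓝 0)) (b : ℕ) :
    ‖G B b α‖ ≤ ‖rise α b‖ := by
  have h1 : Tendsto (fun n => ‖G B n α - G B b α‖) atTop
      (𝓝 ‖0 - G B b α‖) := (hlim.sub_const _).norm
  rw [zero_sub, norm_neg] at h1
  refine le_of_tendsto h1 ?_
  filter_upwards [eventually_ge_atTop b] with n hn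
  exact norm_tail_le _ _ hn

lemma rise_nat (a b : ℕ) : ((a ! : ℕ) : ℤ_[p]) * rise (a : ℤ_[p]) b = (((a + b)! : ℕ) : ℤ_[p]) := by
  induction b with
  | zero => simp [rise]
  | succ n ih =>
    have h2 : rise (a : ℤ_[p]) (n + 1) = rise (a : ℤ_[p]) n * ((a : ℤ_[p]) + n + 1) := by
      unfold rise; rw [Finset.prod_range_succ]
    rw [h2, ← mul_assoc, ih, ← add_assoc, Nat.factorial_succ]
    push_cast; ring

/-- for all `a` close to `α` the local criterion holds along the pattern up to `M`. -/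
theorem close {B : Set ℕ} {α : ℤ_[p]}
    (h : ∀ m : ℕ, 1 ≤ m → α ≠ -(m : ℤ_[p]))
    (hlim : Tendsto (fun n => G B n α) atTop (𝓝 0)) (M : ℕ) :
    ∃ L : ℕ, ∀ a : ℕ, ‖(a : ℤ_[p]) - α‖ ≤ (p : ℝ) ^ (-(L : ℤ)) → ∀ b, b ≤ M →
      ‖G B b (a : ℤ_[p])‖ ≤ ‖rise (a : ℤ_[p]) b‖ := by
  have hpos : 0 < ‖rise α M‖ := norm_pos_iff.2 (rise_ne_zero h M)
  obtain ⟨L, hL⟩ := PadicInt.exists_pow_neg_lt (p := p) hpos
  refine ⟨L, fun a ha b hb => ?_⟩
  have hlt : ‖(a : ℤ_[p]) - α‖ < ‖rise α b‖ :=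
    (ha.trans_lt hL).trans_le (norm_rise_anti α hb)
  have h1 : ‖rise (a : ℤ_[p]) b - rise α b‖ < ‖rise α b‖ := (rise_lip b _ _).trans_lt hlt
  have h2 : ‖rise (a : ℤ_[p]) b‖ = ‖rise α b‖ := by
    have e1 : rise (a : ℤ_[p]) b = (rise (a : ℤ_[p]) b - rise α b) + rise α b := by ring
    rw [e1, PadicInt.norm_add_eq_max_of_ne h1.ne, max_eq_right h1.le]
  rw [h2]
  have e1 : G B b (a : ℤ_[p])
      = (G B b (a : ℤ_[p]) - G B b α) + G B b α := by ring
  rw [e1]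
  exact (PadicInt.nonarchimedean _ _).trans
    (max_le ((G_lip _ _ _ _).trans hlt.le) (norm_G_le hlim b))

open Classical in
theorem crit_nat {B : Set ℕ} {a b : ℕ}
    (h : ‖G B b (a : ℤ_[p])‖ ≤ ‖rise (a : ℤ_[p]) b‖) :
    p ^ padicValNat p (a + b)! ∣ ∑ c ∈ (range b).filter (· ∈ B), (a + c)! := by
  have h1 : ((∑ c ∈ (range b).filter (· ∈ B), (a + c)! : ℕ) : ℤ_[p])
      = ((a ! : ℕ) : ℤ_[p]) * G B b (a : ℤ_[p]) := by
    unfold G
    rw [Finset.mul_sum]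
    push_cast
    refine Finset.sum_congr rfl fun c _ => ?_
    rw [← rise_nat]
  have h2 : ‖((∑ c ∈ (range b).filter (· ∈ B), (a + c)! : ℕ) : ℤ_[p])‖
      ≤ ‖(((a + b)! : ℕ) : ℤ_[p])‖ := by
    rw [h1, ← rise_nat, norm_mul, norm_mul]
    exact mul_le_mul_of_nonneg_left h (norm_nonneg _)
  set v := padicValNat p (a + b)! with hv
  have h3 : ‖(((a + b)! : ℕ) : ℤ_[p])‖ ≤ (p : ℝ) ^ (-(v : ℤ)) := by
    have := (PadicInt.norm_int_le_pow_iff_dvd (p := p) (k := (((a + b)! : ℕ) : ℤ)) (n := v)).2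
      (by exact_mod_cast (pow_padicValNat_dvd : p ^ v ∣ (a + b)!))
    simpa using this
  have h4 := h2.trans h3
  have h5 := (PadicInt.norm_int_le_pow_iff_dvd (p := p)
    (k := ((∑ c ∈ (range b).filter (· ∈ B), (a + c)! : ℕ) : ℤ)) (n := v)).1
    (by simpa using h4)
  exact_mod_cast h5

end Pool.Agent.PS38
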