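import Mathlib
import Pool.Agent.PS38.Hensel

set_option autoImplicit false

namespace Pool.Agent.PS38

open Finset Filter Polynomial
open scoped Nat Topology

variable {p : ℕ} [hp : Fact p.Prime]

/-- first block of the pattern. -/
def base (p : ℕ) : Set ℕ := if p = 2 then {0, 1, 3, 4} else {0, p - 1, p}

/-- the pattern `base p ∪ C`. -/
def pat (p : ℕ) (C : Set ℕ) : Set ℕ := base p ∪ C

omit hp in
lemma mem_pat (hodd : p ≠ 2) {C : Set ℕ} {b : ℕ} :
    b ∈ pat p C ↔ b = 0 ∨ b = p - 1 ∨ b = p ∨ b ∈ C := by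
  simp [pat, base, hodd, or_assoc]

lemma mem_pat2 {C : Set ℕ} {b : ℕ} :
    b ∈ pat 2 C ↔ b = 0 ∨ b = 1 ∨ b = 3 ∨ b = 4 ∨ b ∈ C := by
  simp [pat, base, or_assoc]

omit hp in
lemma zero_mem_pat (C : Set ℕ) : 0 ∈ pat p C := by
  by_cases h : p = 2
  · subst h; exact mem_pat2.2 (Or.inl rfl)
  · exact (mem_pat h).2 (Or.inl rfl)

section
variable {C : Set ℕ}

lemma F_zero (hodd : p ≠ 2) (hC : ∀ c ∈ C, 2 * p ≤ c) {n : ℕ} (hn : p + 1 ≤ n) :
    ‖(F p (pat p C) n).eval 0‖ < 1 := by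
  classical
  have h2 : 2 < p := lt_of_le_of_ne hp.1.two_le (Ne.symm hodd)
  rw [eval_F]
  unfold G
  have h1 : ∑ b ∈ (range n).filter (· ∈ pat p C), rise (0 : ℤ_[p]) b
      = ((∑ b ∈ (range n).filter (· ∈ pat p C), b ! : ℕ) : ℤ_[p]) := by
    push_cast
    exact Finset.sum_congr rfl fun b _ => rise_zero_arg b
  rw [h1, PadicInt.norm_natCast_lt_one_iff, ← ZMod.natCast_eq_zero_iff]
  have hsub : ({0, p - 1} : Finset ℕ) ⊆ (range n).filter (· ∈ pat p C) := by
    intro b hb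
    rw [mem_insert, mem_singleton] at hb
    rw [mem_filter, mem_range, mem_pat hodd]
    rcases hb with rfl | rfl
    · exact ⟨by omega, Or.inl rfl⟩
    · exact ⟨by omega, Or.inr (Or.inl rfl)⟩
  rw [Nat.cast_sum, ← Finset.sum_subset hsub]
  · rw [Finset.sum_pair (by omega), ZMod.wilsons_lemma]; simp
  · intro b hb hb'
    rw [mem_filter, mem_range, mem_pat hodd] at hb
    rw [mem_insert, mem_singleton, not_or] at hb'
    rw [ZMod.natCast_eq_zero_iff]
    have hpb : p ≤ b := by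
      rcases hb.2 with h | h | h | h
      · exact absurd h hb'.1
      · exact absurd h hb'.2
      · omega
      · have := hC b h; omega
    exact hp.1.dvd_factorial.2 hpb

lemma F'_zero (hodd : p ≠ 2) (hC : ∀ c ∈ C, 2 * p ≤ c) {n : ℕ} (hn : p + 1 ≤ n) :
    ‖(derivative (F p (pat p C) n)).eval 0‖ = 1 := by
  classical
  have h2 : 2 < p := lt_of_le_of_ne hp.1.two_le (Ne.symm hodd)
  have h1 : (derivative (F p (pat p C) n)).eval 0
      = ((∑ b ∈ (range n).filter (· ∈ pat p C), dd b : ℕ) : ℤ_[p]) := by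
    unfold F
    rw [Polynomial.derivative_sum, Polynomial.eval_finsetSum]
    push_cast
    exact Finset.sum_congr rfl fun b _ => deriv_P_zero b
  rw [h1]
  by_contra hne
  have hlt : ‖((∑ b ∈ (range n).filter (· ∈ pat p C), dd b : ℕ) : ℤ_[p])‖ < 1 :=
    lt_of_le_of_ne (PadicInt.norm_le_one _) hne
  rw [PadicInt.norm_natCast_lt_one_iff, ← ZMod.natCast_eq_zero_iff, Nat.cast_sum] at hlt
  have hpm : p ∈ (range n).filter (· ∈ pat p C) := by
    rw [mem_filter, mem_range, mem_pat hodd]; exact ⟨by omega, Or.inr (Or.inr (Or.inl rfl))⟩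
  rw [Finset.sum_eq_single_of_mem p hpm, dd_p] at hlt
  · have := neg_eq_zero.1 hlt
    exact one_ne_zero this
  · intro b hb hbp
    rw [mem_filter, mem_range, mem_pat hodd] at hb
    rcases hb.2 with h | h | h | h
    · rw [h, dd_zero]; simp
    · rw [h]; exact dd_pred hodd
    · exact absurd h hbp
    · exact dd_big (hC b h)

lemma exists_root (hodd : p ≠ 2) (hC : ∀ c ∈ C, 2 * p ≤ c) {n : ℕ} (hn : p + 1 ≤ n) :
    ∃ z : ℤ_[p], G (pat p C) n z = 0 ∧ ‖z‖ < 1 := by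
  have h0 := F_zero (p := p) hodd hC hn
  have h1 := F'_zero (p := p) hodd hC hn
  have hnorm : ‖(F p (pat p C) n).aeval (0 : ℤ_[p])‖
      < ‖(derivative (F p (pat p C) n)).aeval (0 : ℤ_[p])‖ ^ 2 := by
    simp only [Polynomial.coe_aeval_eq_eval]
    rw [h1, one_pow]
    exact h0
  obtain ⟨z, hz, hz2, -⟩ := hensels_lemma hnorm
  refine ⟨z, ?_, ?_⟩
  · simp only [Polynomial.coe_aeval_eq_eval] at hz
    rw [eval_F] at hz
    exact hz
  · simp only [Polynomial.coe_aeval_eq_eval] at hz2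
    rw [sub_zero, h1] at hz2
    exact hz2

lemma pair_ok (hodd : p ≠ 2) (hC : ∀ c ∈ C, 2 * p ≤ c)
    (hC2 : ∀ c ∈ C, c + 1 ∈ C → ¬ p ∣ c + 2) (m : ℕ) (hm : 1 ≤ m)
    (h1 : ‖(m : ℤ_[p])‖ < 1) : ¬ (2 ≤ m ∧ m - 2 ∈ pat p C ∧ m - 1 ∈ pat p C) := by
  have h2 : 2 < p := lt_of_le_of_ne hp.1.two_le (Ne.symm hodd)
  rw [PadicInt.norm_natCast_lt_one_iff] at h1
  rintro ⟨hm2, ha, hb⟩
  have hpm : p ≤ m := Nat.le_of_dvd hm h1
  rw [mem_pat hodd] at ha hb
  have key : ∀ x, x ∈ C → 2 * p ≤ x := hC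
  have hnd1 : ¬ p ∣ p + 1 := by
    intro h
    have := (Nat.dvd_add_right (dvd_refl p)).1 h
    have := Nat.le_of_dvd one_pos this
    omega
  rcases hb with hb | hb | hb | hb
  · omega
  · have hmp : m = p := by omega
    rcases ha with ha | ha | ha | ha
    · omega
    · omega
    · omega
    · have := key _ ha; omega
  · have hmp : m = p + 1 := by omega
    rw [hmp] at h1; exact hnd1 h1
  · have hb' := key _ hb
    rcases ha with ha | ha | ha | ha
    · omega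
    · omega
    · omega
    · have e1 : m - 2 + 1 = m - 1 := by omega
      have e2 : m - 2 + 2 = m := by omega
      refine hC2 (m - 2) ha (by rw [e1]; exact hb) ?_
      rw [e2]; exact h1

end

/-! the prime `2` -/

section
variable {C : Set ℕ}

lemma dd_big2 {b : ℕ} (hb : 6 ≤ b) : 4 ∣ dd b := by
  unfold dd
  refine Finset.dvd_sum fun i hi => ?_
  have hsub : ({1, 3, 5} : Finset ℕ).erase i ⊆ (range b).erase i := by
    refine Finset.erase_subset_erase _ ?_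
    intro j hj
    simp only [mem_insert, mem_singleton] at hj
    rw [mem_range]; omega
  refine dvd_trans ?_ (Finset.prod_dvd_prod_of_subset _ _ _ hsub)
  by_cases h1 : i = 1
  · subst h1; decide
  by_cases h3 : i = 3
  · subst h3; decide
  by_cases h5 : i = 5
  · subst h5; decide
  have : ({1, 3, 5} : Finset ℕ).erase i = {1, 3, 5} := by
    apply Finset.erase_eq_of_notMem
    simp [h1, h3, h5]
  rw [this]; decide

lemma sub2 {n : ℕ} (hn : 5 ≤ n) [DecidablePred (· ∈ pat 2 C)] :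
    ({0, 1, 3, 4} : Finset ℕ) ⊆ (range n).filter (· ∈ pat 2 C) := by
  intro b hb
  simp only [mem_insert, mem_singleton] at hb
  rw [mem_filter, mem_range, mem_pat2]
  rcases hb with rfl | rfl | rfl | rfl
  · exact ⟨by omega, by simp⟩
  · exact ⟨by omega, by simp⟩
  · exact ⟨by omega, by simp⟩
  · exact ⟨by omega, by simp⟩

open Classical in
lemma F2 (hC : ∀ c ∈ C, 6 ≤ c) {n : ℕ} (hn : 5 ≤ n) :
    8 ∣ ∑ b ∈ (range n).filter (· ∈ pat 2 C), b ! := by
  rw [← Finset.sum_sdiff (sub2 (C := C) hn)]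
  refine dvd_add (Finset.dvd_sum fun b hb => ?_) (by decide)
  rw [Finset.mem_sdiff, mem_filter, mem_pat2] at hb
  simp only [mem_insert, mem_singleton, not_or] at hb
  have hb6 : 6 ≤ b := by
    rcases hb.1.2 with h | h | h | h | h
    · exact absurd h hb.2.1
    · exact absurd h hb.2.2.1
    · exact absurd h hb.2.2.2.1
    · exact absurd h hb.2.2.2.2
    · exact hC b h
  exact (by decide : 8 ∣ Nat.factorial 6).trans (Nat.factorial_dvd_factorial hb6)

open Classical in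
lemma D2 (hC : ∀ c ∈ C, 6 ≤ c) {n : ℕ} (hn : 5 ≤ n) :
    ∃ t, ∑ b ∈ (range n).filter (· ∈ pat 2 C), dd b = 4 * t + 62 := by
  rw [← Finset.sum_sdiff (sub2 (C := C) hn)]
  have h1 : 4 ∣ ∑ b ∈ (range n).filter (· ∈ pat 2 C) \ {0, 1, 3, 4}, dd b := by
    refine Finset.dvd_sum fun b hb => ?_
    rw [Finset.mem_sdiff, mem_filter, mem_pat2] at hb
    simp only [mem_insert, mem_singleton, not_or] at hb
    refine dd_big2 ?_
    rcases hb.1.2 with h | h | h | h | h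
    · exact absurd h hb.2.1
    · exact absurd h hb.2.2.1
    · exact absurd h hb.2.2.2.1
    · exact absurd h hb.2.2.2.2
    · exact hC b h
  obtain ⟨t, ht⟩ := h1
  refine ⟨t, ?_⟩
  rw [ht]
  have : ∑ b ∈ ({0, 1, 3, 4} : Finset ℕ), dd b = 62 := by decide
  rw [this]

lemma exists_root2 (hC : ∀ c ∈ C, 6 ≤ c) {n : ℕ} (hn : 5 ≤ n) :
    ∃ z : ℤ_[2], G (pat 2 C) n z = 0 ∧ ‖z‖ < (2 : ℝ) ^ (-1 : ℤ) := by
  classical
  have e0 : (F 2 (pat 2 C) n).eval 0
      = ((∑ b ∈ (range n).filter (· ∈ pat 2 C), b ! : ℕ) : ℤ_[2]) := by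
    rw [eval_F]
    unfold G
    push_cast
    exact Finset.sum_congr rfl fun b _ => rise_zero_arg b
  have e1 : (derivative (F 2 (pat 2 C) n)).eval 0
      = ((∑ b ∈ (range n).filter (· ∈ pat 2 C), dd b : ℕ) : ℤ_[2]) := by
    unfold F
    rw [Polynomial.derivative_sum, Polynomial.eval_finsetSum]
    push_cast
    exact Finset.sum_congr rfl fun b _ => deriv_P_zero b
  obtain ⟨t, ht⟩ := D2 (C := C) hC hn
  have h0 : ‖(F 2 (pat 2 C) n).eval 0‖ ≤ (2 : ℝ) ^ (-3 : ℤ) := by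
    rw [e0]
    have h := (PadicInt.norm_int_le_pow_iff_dvd (p := 2)
      (k := ((∑ b ∈ (range n).filter (· ∈ pat 2 C), b ! : ℕ) : ℤ)) (n := 3)).2
      (by
        have h8 := F2 (C := C) hC hn
        have : ((8 : ℕ) : ℤ) ∣ ((∑ b ∈ (range n).filter (· ∈ pat 2 C), b ! : ℕ) : ℤ) := by
          exact_mod_cast h8
        norm_num at this ⊢
        exact this)
    simpa using h
  have h1a : ‖(derivative (F 2 (pat 2 C) n)).eval 0‖ ≤ (2 : ℝ) ^ (-1 : ℤ) := by
    rw [e1, ht]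
    have h := (PadicInt.norm_int_le_pow_iff_dvd (p := 2)
      (k := ((4 * t + 62 : ℕ) : ℤ)) (n := 1)).2 (by push_cast; omega)
    simpa using h
  have h1b : (2 : ℝ) ^ (-1 : ℤ) ≤ ‖(derivative (F 2 (pat 2 C) n)).eval 0‖ := by
    rw [e1, ht]
    by_contra hcon
    push Not at hcon
    have h2 := (PadicInt.norm_le_pow_iff_norm_lt_pow_add_one (p := 2)
      (((4 * t + 62 : ℕ) : ℤ_[2])) (-2)).2 (by norm_num at hcon ⊢; exact hcon)
    have h3 := (PadicInt.norm_int_le_pow_iff_dvd (p := 2)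
      (k := ((4 * t + 62 : ℕ) : ℤ)) (n := 2)).1 (by simpa using h2)
    push_cast at h3
    omega
  have hnorm : ‖(F 2 (pat 2 C) n).aeval (0 : ℤ_[2])‖
      < ‖(derivative (F 2 (pat 2 C) n)).aeval (0 : ℤ_[2])‖ ^ 2 := by
    simp only [Polynomial.coe_aeval_eq_eval]
    have h4 : ((2 : ℝ) ^ (-1 : ℤ)) ^ 2 ≤ ‖(derivative (F 2 (pat 2 C) n)).eval 0‖ ^ 2 :=
      pow_le_pow_left₀ (by positivity) h1b 2
    refine lt_of_le_of_lt h0 (lt_of_lt_of_le ?_ h4)
    norm_num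
  obtain ⟨z, hz, hz2, -⟩ := hensels_lemma hnorm
  refine ⟨z, ?_, ?_⟩
  · simp only [Polynomial.coe_aeval_eq_eval] at hz
    rw [eval_F] at hz
    exact hz
  · simp only [Polynomial.coe_aeval_eq_eval] at hz2
    rw [sub_zero] at hz2
    exact hz2.trans_le h1a

lemma pair_ok2 (hC : ∀ c ∈ C, 6 ≤ c)
    (hC2 : ∀ c ∈ C, c + 1 ∈ C → ¬ 2 ∣ c + 2) (m : ℕ) (hm : 1 ≤ m)
    (h1 : ‖(m : ℤ_[2])‖ < (2 : ℝ) ^ (-1 : ℤ)) :
    ¬ (2 ≤ m ∧ m - 2 ∈ pat 2 C ∧ m - 1 ∈ pat 2 C) := by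
  have h4 : 4 ∣ m := by
    have h2 := (PadicInt.norm_le_pow_iff_norm_lt_pow_add_one (p := 2)
      ((m : ℤ_[2])) (-2)).2 (by norm_num at h1 ⊢; exact h1)
    have h3 := (PadicInt.norm_int_le_pow_iff_dvd (p := 2)
      (k := (m : ℤ)) (n := 2)).1 (by simpa using h2)
    norm_num at h3
    exact_mod_cast h3
  rintro ⟨hm2, ha, hb⟩
  rw [mem_pat2] at ha hb
  have key : ∀ x, x ∈ C → 6 ≤ x := hC
  rcases hb with hb | hb | hb | hb | hb
  · omega
  · omega
  · rcases ha with ha | ha | ha | ha | ha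
    · omega
    · omega
    · omega
    · omega
    · have := key _ ha; omega
  · omega
  · have hb' := key _ hb
    rcases ha with ha | ha | ha | ha | ha
    · omega
    · omega
    · omega
    · omega
    · have e1 : m - 2 + 1 = m - 1 := by omega
      have e2 : m - 2 + 2 = m := by omega
      refine hC2 (m - 2) ha (by rw [e1]; exact hb) ?_
      rw [e2]; omega

end

/-- all primes together. -/
theorem alpha_all (p : ℕ) [hp : Fact p.Prime] (C : Set ℕ) (hC : ∀ c ∈ C, 6 ≤ c ∧ 2 * p ≤ c)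
    (hC2 : ∀ c ∈ C, c + 1 ∈ C → ¬ p ∣ c + 2) :
    ∃ α : ℤ_[p], (∀ m : ℕ, 1 ≤ m → α ≠ -(m : ℤ_[p])) ∧
      Tendsto (fun n => G (pat p C) n α) atTop (𝓝 0) := by
  by_cases h : p = 2
  · subst h
    obtain ⟨α, h1, h2⟩ := exists_alpha (p := 2) (B := pat 2 C) (n₀ := 5)
      (ρ := (2 : ℝ) ^ (-1 : ℤ)) (by positivity)
      (fun n => exists_root2 (fun c hc => (hC c hc).1) (by omega))
    exact ⟨α, alpha_ne (zero_mem_pat C)
      (pair_ok2 (fun c hc => (hC c hc).1) hC2) h1 h2, h2⟩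
  · obtain ⟨α, h1, h2⟩ := exists_alpha (p := p) (B := pat p C) (n₀ := p + 1)
      (ρ := 1) one_pos
      (fun n => exists_root h (fun c hc => (hC c hc).2) (by omega))
    exact ⟨α, alpha_ne (zero_mem_pat C)
      (pair_ok h (fun c hc => (hC c hc).2) hC2) h1 h2, h2⟩

end Pool.Agent.PS38
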