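import Mathlib

/-!
Erdős–Graham question on partial sums of factorials (`MP_6f1fe1_nt`): the local criterion, the
growth bound and the bad prime.
-/

set_option autoImplicit false

namespace Pool.Agent.PS38

open Finset Filter
open scoped Nat

/-- `k`-th partial sum `∑_{i ≤ k} (u i)!`. -/
def S (u : ℕ → ℕ) (k : ℕ) : ℕ := ∑ i ∈ Finset.range (k + 1), (u i)!

lemma S_succ (u : ℕ → ℕ) (k : ℕ) : S u (k + 1) = S u k + (u (k + 1))! := by
  unfold S
  rw [Finset.sum_range_succ]

lemma S_zero (u : ℕ → ℕ) : S u 0 = (u 0)! := by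
  simp [S]

lemma S_pos (u : ℕ → ℕ) (k : ℕ) : 0 < S u k := by
  induction k with
  | zero => rw [S_zero]; exact Nat.factorial_pos _
  | succ n ih => rw [S_succ]; omega

section
variable {p : ℕ} [hp : Fact p.Prime] {u : ℕ → ℕ}

/-- if the criterion fails at `k`, the valuation stays constant from `k` on. -/
lemma const_of_fail (hu : StrictMono u) {k : ℕ}
    (h : padicValNat p (S u k) < padicValNat p (u (k + 1))!) :
    ∀ j, k ≤ j → padicValNat p (S u j) = padicValNat p (S u k) := by
  intro j hj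
  set v := padicValNat p (S u k) with hv
  have hdvd1 : p ^ v ∣ S u k := pow_padicValNat_dvd
  have hnd1 : ¬ p ^ (v + 1) ∣ S u k := by
    intro hd
    have := (padicValNat_dvd_iff_le (hp := hp) (S_pos u k).ne').1 hd
    omega
  have hfac : p ^ (v + 1) ∣ (u (k + 1))! := by
    refine (padicValNat_dvd_iff_le (hp := hp) (Nat.factorial_ne_zero _)).2 ?_
    omega
  have hdiff : ∀ j, k ≤ j → ∃ t, S u j = S u k + p ^ (v + 1) * t := by
    intro j hj
    induction j, hj using Nat.le_induction with
    | base => exact ⟨0, by simp⟩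
    | succ n hn ih =>
      obtain ⟨t, ht⟩ := ih
      have h1 : p ^ (v + 1) ∣ (u (n + 1))! :=
        hfac.trans (Nat.factorial_dvd_factorial (hu.monotone (by omega)))
      obtain ⟨s, hs⟩ := h1
      refine ⟨t + s, ?_⟩
      rw [S_succ, ht, hs]; ring
  obtain ⟨t, ht⟩ := hdiff j hj
  have hd : p ^ v ∣ S u j := by
    rw [ht]
    exact dvd_add hdvd1 (Dvd.dvd.mul_right (pow_dvd_pow p (by omega)) t)
  have hnd : ¬ p ^ (v + 1) ∣ S u j := by
    rw [ht]
    intro hd2
    exact hnd1 ((Nat.dvd_add_left (Dvd.intro t rfl)).1 hd2)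
  have h1 : v ≤ padicValNat p (S u j) :=
    (padicValNat_dvd_iff_le (hp := hp) (S_pos u j).ne').1 hd
  have h2 : ¬ v + 1 ≤ padicValNat p (S u j) := fun h =>
    hnd ((padicValNat_dvd_iff_le (hp := hp) (S_pos u j).ne').2 h)
  omega

lemma div_le_val (n : ℕ) : n / p ≤ padicValNat p n ! := by
  have h1 : padicValNat p (p * (n / p))! = padicValNat p (n / p)! + n / p :=
    padicValNat_factorial_mul _
  have h2 : padicValNat p (p * (n / p))! ≤ padicValNat p n ! := by
    refine (padicValNat_dvd_iff_le (hp := hp) (Nat.factorial_ne_zero _)).1 ?_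
    exact pow_padicValNat_dvd.trans (Nat.factorial_dvd_factorial (Nat.mul_div_le n p))
  omega

lemma le_self (hu : StrictMono u) (k : ℕ) : k ≤ u k := hu.id_le k

lemma tendsto_of_crit (hu : StrictMono u)
    (h : ∀ k, padicValNat p (u (k + 1))! ≤ padicValNat p (S u k)) :
    Tendsto (fun k => padicValNat p (S u k)) atTop atTop := by
  rw [tendsto_atTop_atTop]
  intro b
  refine ⟨p * b, fun k hk => ?_⟩
  have h1 := h k
  have h2 : (u (k + 1)) / p ≤ padicValNat p (u (k + 1))! := div_le_val _
  have h3 : b ≤ u (k + 1) / p := by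
    rw [Nat.le_div_iff_mul_le hp.1.pos]
    have := le_self hu (k + 1)
    nlinarith
  omega

/-- the criterion. -/
theorem crit (hu : StrictMono u) :
    (Tendsto (fun k => padicValNat p (S u k)) atTop atTop ↔
      ∀ k, padicValNat p (u (k + 1))! ≤ padicValNat p (S u k)) := by
  constructor
  · intro ht k
    by_contra hcon
    push Not at hcon
    have hc := const_of_fail hu hcon
    rw [tendsto_atTop_atTop] at ht
    obtain ⟨i, hi⟩ := ht (padicValNat p (S u k) + 1)
    have h1 := hi (max i k) (le_max_left _ _)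
    have h2 := hc (max i k) (le_max_right _ _)
    omega
  · exact tendsto_of_crit hu

theorem dichotomy (hu : StrictMono u) :
    Tendsto (fun k => padicValNat p (S u k)) atTop atTop ∨
      ∃ K, ∀ j, K ≤ j → padicValNat p (S u j) = padicValNat p (S u K) := by
  by_cases h : ∀ k, padicValNat p (u (k + 1))! ≤ padicValNat p (S u k)
  · exact Or.inl (tendsto_of_crit hu h)
  · push Not at h
    obtain ⟨k, hk⟩ := h
    exact Or.inr ⟨k, const_of_fail hu hk⟩

lemma S_lt (hu : StrictMono u) (h0 : 1 ≤ u 0) (k : ℕ) : S u k < 2 * (u k)! := by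
  induction k with
  | zero => rw [S_zero]; have := Nat.factorial_pos (u 0); omega
  | succ n ih =>
    rw [S_succ]
    have h1 : (u n + 1)! ≤ (u (n + 1))! := Nat.factorial_le (hu (Nat.lt_succ_self n))
    rw [Nat.factorial_succ] at h1
    have h2 : 1 ≤ u n := h0.trans (hu.monotone (Nat.zero_le n))
    have h3 : 2 * (u n)! ≤ (u n + 1) * (u n)! := Nat.mul_le_mul_right _ (by omega)
    omega

/-- growth bound. -/
theorem growth (hu : StrictMono u) (h0 : 1 ≤ u 0)
    (ht : Tendsto (fun k => padicValNat p (S u k)) atTop atTop) (k : ℕ) :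
    p ^ (padicValNat p (u (k + 1))!) < 2 * (u k)! := by
  have h := (crit hu).1 ht k
  have h1 : p ^ (padicValNat p (u (k + 1))!) ∣ S u k :=
    (pow_dvd_pow p h).trans pow_padicValNat_dvd
  exact (Nat.le_of_dvd (S_pos u k) h1).trans_lt (S_lt hu h0 k)

theorem growth' (hu : StrictMono u) (h0 : 1 ≤ u 0)
    (ht : Tendsto (fun k => padicValNat p (S u k)) atTop atTop) (k : ℕ) :
    p ^ (u (k + 1) / p) < 2 * (u k)! :=
  (Nat.pow_le_pow_right hp.1.pos (div_le_val _)).trans_lt (growth hu h0 ht k)

end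

/-- every prime dividing one of `u 0 + 1, …, u 1` is bad. -/
theorem bad {u : ℕ → ℕ} (hu : StrictMono u) (p : ℕ) [hp : Fact p.Prime] {j : ℕ}
    (hj1 : u 0 < j) (hj2 : j ≤ u 1) (hpd : p ∣ j)
    (k : ℕ) : padicValNat p (S u k) = padicValNat p (u 0)! := by
  have h1 : padicValNat p (S u 0) < padicValNat p (u (0 + 1))! := by
    rw [S_zero]
    have h2 : padicValNat p j ! ≤ padicValNat p (u (0 + 1))! := by
      refine (padicValNat_dvd_iff_le (hp := hp) (Nat.factorial_ne_zero _)).1 ?_
      exact pow_padicValNat_dvd.trans (Nat.factorial_dvd_factorial hj2)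
    obtain ⟨i, rfl⟩ : ∃ i, j = i + 1 := ⟨j - 1, by omega⟩
    have h3 : padicValNat p (i + 1)! = padicValNat p (i + 1) + padicValNat p i ! := by
      rw [Nat.factorial_succ, padicValNat.mul (by omega) (Nat.factorial_ne_zero _)]
    have h4 : 1 ≤ padicValNat p (i + 1) := one_le_padicValNat_of_dvd (by omega) hpd
    have h5 : padicValNat p (u 0)! ≤ padicValNat p i ! := by
      refine (padicValNat_dvd_iff_le (hp := hp) (Nat.factorial_ne_zero _)).1 ?_
      exact pow_padicValNat_dvd.trans (Nat.factorial_dvd_factorial (by omega))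
    omega
  rw [const_of_fail hu h1 k (Nat.zero_le k), S_zero]

/-- growth bound for several primes at once. -/
theorem growth_many {u : ℕ → ℕ} (hu : StrictMono u) (h0 : 1 ≤ u 0) (T : Finset ℕ)
    (hT : ∀ p ∈ T, p.Prime ∧ Tendsto (fun k => padicValNat p (S u k)) atTop atTop) (k : ℕ) :
    ∏ p ∈ T, p ^ (padicValNat p (u (k + 1))!) < 2 * (u k)! := by
  have hd : ∏ p ∈ T, p ^ (padicValNat p (u (k + 1))!) ∣ S u k := by
    refine Finset.prod_dvd_of_isRelPrime ?_ ?_
    · intro p hp q hq hne
      have h1 := (hT p hp).1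
      have h2 := (hT q hq).1
      have h3 : Nat.Coprime (p ^ (padicValNat p (u (k + 1))!)) (q ^ (padicValNat q (u (k + 1))!)) :=
        Nat.Coprime.pow _ _ ((Nat.coprime_primes h1 h2).2 hne)
      exact Nat.coprime_iff_isRelPrime.1 h3
    · intro p hp
      have : Fact p.Prime := ⟨(hT p hp).1⟩
      exact (pow_dvd_pow p ((crit hu).1 (hT p hp).2 k)).trans pow_padicValNat_dvd
  exact (Nat.le_of_dvd (S_pos u k) hd).trans_lt (S_lt hu h0 k)

end Pool.Agent.PS38
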