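import Mathlib
import Pool.Agent.PS38.Basic
import Pool.Agent.PS38.Base

set_option autoImplicit false

namespace Pool.Agent.PS38

open Finset Filter Polynomial
open scoped Nat Topology

open Classical in
/-- for a residue class of starting points the criterion holds along the whole pattern up to `M`. -/
theorem residue_class (p : ℕ) [hp : Fact p.Prime] {B : Set ℕ} {α : ℤ_[p]}
    (h : ∀ m : ℕ, 1 ≤ m → α ≠ -(m : ℤ_[p]))
    (hlim : Tendsto (fun n => G B n α) atTop (𝓝 0)) (M : ℕ) :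
    ∃ L r : ℕ, ∀ a : ℕ, a ≡ r [MOD p ^ L] → ∀ b, b ≤ M →
      p ^ padicValNat p (a + b)! ∣ ∑ c ∈ (range b).filter (· ∈ B), (a + c)! := by
  obtain ⟨L, hL⟩ := close h hlim M
  refine ⟨L, α.appr L, fun a ha b hb => crit_nat (hL a ?_ b hb)⟩
  have h1 : ‖α - ((α.appr L : ℕ) : ℤ_[p])‖ ≤ (p : ℝ) ^ (-(L : ℤ)) :=
    (PadicInt.norm_le_pow_iff_mem_span_pow _ _).2 (PadicInt.appr_spec L α)
  have h2 : ‖((α.appr L : ℕ) : ℤ_[p]) - (a : ℤ_[p])‖ ≤ (p : ℝ) ^ (-(L : ℤ)) := by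
    have h3 := (PadicInt.norm_int_le_pow_iff_dvd (p := p)
      (k := ((α.appr L : ℕ) : ℤ) - (a : ℤ)) (n := L)).2
      (by
        have := (Nat.modEq_iff_dvd).1 ha
        push_cast at this ⊢
        exact this)
    simpa using h3
  have e1 : (a : ℤ_[p]) - α = -(((α.appr L : ℕ) : ℤ_[p]) - (a : ℤ_[p]))
      + -(α - ((α.appr L : ℕ) : ℤ_[p])) := by ring
  rw [e1]
  refine (PadicInt.nonarchimedean _ _).trans (max_le ?_ ?_)
  · rw [norm_neg]; exact h2
  · rw [norm_neg]; exact h1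

lemma sum_nth {B : Set ℕ} [DecidablePred (· ∈ B)] (h0 : 0 ∈ B) (hinf : B.Infinite) (a k : ℕ) :
    ∑ i ∈ range (k + 1), (a + Nat.nth (· ∈ B) i)!
      = ∑ c ∈ (range (Nat.nth (· ∈ B) (k + 1))).filter (· ∈ B), (a + c)! := by
  have hinf' : (Set.ofPred (· ∈ B)).Infinite := hinf
  have hz : Nat.nth (· ∈ B) 0 = 0 := Nat.nth_zero_of_zero h0
  induction k with
  | zero =>
    rw [Nat.filter_range_nth_eq_insert_of_infinite hinf', hz]
    simp [hz]
  | succ n ih =>
    rw [Finset.sum_range_succ, ih, Nat.filter_range_nth_eq_insert_of_infinite hinf' (n + 1),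
      Finset.sum_insert, add_comm]
    simp

theorem long_chain (p : ℕ) [hp : Fact p.Prime] (n : ℕ) :
    ∃ u : ℕ → ℕ, StrictMono u ∧ 1 ≤ u 0 ∧
      ∀ k < n, padicValNat p (u (k + 1))! ≤ padicValNat p (S u k) := by
  classical
  have h0 := hp.1.pos
  set C : Set ℕ := {c | ∃ t, c = 6 * p * (t + 1)} with hCdef
  have hC : ∀ c ∈ C, 6 ≤ c ∧ 2 * p ≤ c := by
    rintro c ⟨t, rfl⟩
    constructor <;> nlinarith [Nat.zero_le (p * t)]
  have hC2 : ∀ c ∈ C, c + 1 ∈ C → ¬ p ∣ c + 2 := by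
    rintro c ⟨t, rfl⟩ ⟨s, hs⟩ _
    have h1 : 6 ∣ 6 * p * (t + 1) := ⟨p * (t + 1), by ring⟩
    have h2 : 6 ∣ 6 * p * (t + 1) + 1 := by rw [hs]; exact ⟨p * (s + 1), by ring⟩
    omega
  have hCinf : C.Infinite := by
    refine Set.infinite_of_injective_forall_mem (f := fun t : ℕ => 6 * p * (t + 1)) ?_
      (fun t => ⟨t, rfl⟩)
    intro s t hst
    have h6 : 0 < 6 * p := by positivity
    have := Nat.eq_of_mul_eq_mul_left h6 hst
    omega
  obtain ⟨α, h1, h2⟩ := alpha_all p C hC hC2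
  set B := pat p C with hB
  have hBinf : B.Infinite := hCinf.mono (by rw [hB]; unfold pat; exact Set.subset_union_right)
  obtain ⟨L, r, hr⟩ := residue_class p h1 h2 (Nat.nth (· ∈ B) n)
  have hmono : StrictMono (Nat.nth (· ∈ B)) := Nat.nth_strictMono hBinf
  have hz : Nat.nth (· ∈ B) 0 = 0 := Nat.nth_zero_of_zero (zero_mem_pat C)
  refine ⟨fun k => (r + p ^ L) + Nat.nth (· ∈ B) k, ?_, ?_, ?_⟩
  · intro i j hij
    exact Nat.add_lt_add_left (hmono hij) _
  · have : 0 < p ^ L := by positivity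
    simp only []
    omega
  · intro k hk
    have h3 := hr (r + p ^ L) (by simp [Nat.ModEq]) (Nat.nth (· ∈ B) (k + 1))
      (hmono.monotone (by omega))
    refine (padicValNat_dvd_iff_le (hp := hp) (S_pos _ k).ne').1 ?_
    unfold S
    rw [sum_nth (zero_mem_pat C) hBinf]
    exact h3

end Pool.Agent.PS38
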