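import Mathlib
import Pool.Agent.PS38.Main

set_option autoImplicit false

namespace Pool.Agent.PS38

open Finset Filter
open scoped Nat Topology

variable {p : ℕ} [hp : Fact p.Prime]

open Classical in
/-- the set of `p`-adic starting points. -/
def Start (p : ℕ) [Fact p.Prime] : Set ℤ_[p] :=
  {α | (∀ m : ℕ, 1 ≤ m → α ≠ -(m : ℤ_[p])) ∧ ∃ B : Set ℕ, B.Infinite ∧ 0 ∈ B ∧
    Tendsto (fun n => ∑ b ∈ (range n).filter (· ∈ B), ∏ i ∈ range b, (α + (i : ℤ_[p]) + 1))
      atTop (𝓝 0)}

lemma mem_Start {α : ℤ_[p]} : α ∈ Start p ↔ (∀ m : ℕ, 1 ≤ m → α ≠ -(m : ℤ_[p])) ∧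
    ∃ B : Set ℕ, B.Infinite ∧ 0 ∈ B ∧ Tendsto (fun n => G B n α) atTop (𝓝 0) := Iff.rfl

lemma norm_nat_eq (n : ℕ) (hn : n ≠ 0) :
    ‖(n : ℤ_[p])‖ = (p : ℝ) ^ (-(padicValNat p n : ℤ)) := by
  apply le_antisymm
  · have := (PadicInt.norm_int_le_pow_iff_dvd (p := p) (k := (n : ℤ)) (n := padicValNat p n)).2
      (by exact_mod_cast (pow_padicValNat_dvd : p ^ padicValNat p n ∣ n))
    simpa using this
  · by_contra hcon
    push Not at hcon
    have h1 := (PadicInt.norm_le_pow_iff_norm_lt_pow_add_one (p := p) ((n : ℤ_[p]))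
      (-((padicValNat p n + 1 : ℕ) : ℤ))).2 (by
        have e : -((padicValNat p n + 1 : ℕ) : ℤ) + 1 = -(padicValNat p n : ℤ) := by
          push_cast; ring
        rw [e]; exact hcon)
    have h2 := (PadicInt.norm_int_le_pow_iff_dvd (p := p) (k := (n : ℤ))
      (n := padicValNat p n + 1)).1 (by simpa using h1)
    have h3 : p ^ (padicValNat p n + 1) ∣ n := by exact_mod_cast h2
    have := (padicValNat_dvd_iff_le (hp := hp) hn).1 h3
    omega

/-- `p`-adic valuations tend to infinity iff norms tend to zero. -/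
lemma tendsto_val_iff (f : ℕ → ℕ) (hf : ∀ k, f k ≠ 0) :
    Tendsto (fun k => padicValNat p (f k)) atTop atTop ↔
      Tendsto (fun k => ((f k : ℕ) : ℤ_[p])) atTop (𝓝 0) := by
  have h1 : (1 : ℝ) < p := by exact_mod_cast hp.1.one_lt
  constructor
  · intro h
    rw [Metric.tendsto_atTop]
    intro ε hε
    obtain ⟨k, hk⟩ := PadicInt.exists_pow_neg_lt (p := p) hε
    rw [tendsto_atTop_atTop] at h
    obtain ⟨N, hN⟩ := h k
    refine ⟨N, fun n hn => ?_⟩
    rw [dist_zero_right, norm_nat_eq _ (hf n)]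
    refine lt_of_le_of_lt ?_ hk
    have := hN n hn
    exact zpow_le_zpow_right₀ h1.le (by omega)
  · intro h
    rw [tendsto_atTop_atTop]
    intro b
    rw [Metric.tendsto_atTop] at h
    obtain ⟨N, hN⟩ := h ((p : ℝ) ^ (-(b : ℤ))) (by positivity)
    refine ⟨N, fun n hn => ?_⟩
    have h2 := hN n hn
    rw [dist_zero_right, norm_nat_eq _ (hf n)] at h2
    have h3 := (zpow_lt_zpow_iff_right₀ h1).1 h2
    omega

open Classical in
lemma S_eq_G {B : Set ℕ} (h0 : 0 ∈ B) (hinf : B.Infinite) (a k : ℕ) :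
    ((S (fun i => a + Nat.nth (· ∈ B) i) k : ℕ) : ℤ_[p])
      = ((a ! : ℕ) : ℤ_[p]) * G B (Nat.nth (· ∈ B) (k + 1)) (a : ℤ_[p]) := by
  unfold S
  rw [sum_nth h0 hinf]
  unfold G
  rw [Finset.mul_sum]
  push_cast
  refine Finset.sum_congr rfl fun c _ => ?_
  rw [← rise_nat]

lemma G_between {B : Set ℕ} (hinf : B.Infinite) (x : ℤ_[p]) {n k : ℕ}
    (h1 : Nat.nth (· ∈ B) k < n) (h2 : n ≤ Nat.nth (· ∈ B) (k + 1)) :
    G B n x = G B (Nat.nth (· ∈ B) (k + 1)) x := by
  classical
  unfold G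
  congr 1
  ext c
  simp only [mem_filter, mem_range]
  constructor
  · rintro ⟨h3, h4⟩; exact ⟨by omega, h4⟩
  · rintro ⟨h3, h4⟩
    refine ⟨?_, h4⟩
    obtain ⟨j, hj⟩ : ∃ j, Nat.nth (· ∈ B) j = c := by
      have : c ∈ Set.range (Nat.nth (· ∈ B)) := by
        rw [Nat.range_nth_of_infinite (p := (· ∈ B)) hinf]; exact h4
      exact this
    rw [← hj] at h3 ⊢
    have h5 : j < k + 1 := (Nat.nth_strictMono (p := (· ∈ B)) hinf).lt_iff_lt.1 h3
    have h6 : Nat.nth (· ∈ B) j ≤ Nat.nth (· ∈ B) k :=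
      (Nat.nth_strictMono (p := (· ∈ B)) hinf).monotone (by omega)
    omega

/-- a natural number `a` is a starting point iff some sequence starting with `a` works. -/
theorem natural_start (a : ℕ) :
    ((a : ℤ_[p]) ∈ Start p ↔ ∃ u : ℕ → ℕ, StrictMono u ∧ u 0 = a ∧
      Tendsto (fun k => padicValNat p (S u k)) atTop atTop) := by
  classical
  constructor
  · intro h
    obtain ⟨-, B, hinf, h0, hlim⟩ := mem_Start.1 h
    have hmono : StrictMono (Nat.nth (· ∈ B)) := Nat.nth_strictMono hinf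
    refine ⟨fun i => a + Nat.nth (· ∈ B) i, fun i j hij => Nat.add_lt_add_left (hmono hij) _,
      ?_, ?_⟩
    · simp only []
      rw [Nat.nth_zero_of_zero h0]; rfl
    · rw [tendsto_val_iff _ (fun k => (S_pos _ k).ne')]
      have h1 : Tendsto (fun k => Nat.nth (· ∈ B) (k + 1)) atTop atTop :=
        (hmono.tendsto_atTop).comp (tendsto_add_atTop_nat 1)
      have h2 := (hlim.comp h1).const_mul (((a ! : ℕ) : ℤ_[p]))
      rw [mul_zero] at h2
      refine h2.congr fun k => ?_
      rw [S_eq_G h0 hinf]; rfl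
  · rintro ⟨u, hu, hu0, ht⟩
    set B : Set ℕ := Set.range (fun i => u i - a) with hB
    have hge : ∀ i, a ≤ u i := fun i => by rw [← hu0]; exact hu.monotone (Nat.zero_le i)
    have hmono : StrictMono (fun i => u i - a) := by
      intro i j hij
      have h1 := hu hij
      have h2 := hge i
      simp only []
      omega
    have hinf : B.Infinite := Set.infinite_range_of_injective hmono.injective
    have h0 : 0 ∈ B := ⟨0, by simp [hu0]⟩
    have hnth : ∀ i, Nat.nth (· ∈ B) i = u i - a := by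
      have e1 : StrictMono (Nat.nth (· ∈ B)) := Nat.nth_strictMono hinf
      have e2 : Set.range (Nat.nth (· ∈ B)) = Set.range (fun i => u i - a) := by
        rw [Nat.range_nth_of_infinite (p := (· ∈ B)) hinf]
        ext x; rfl
      exact fun i => congrFun (StrictMono.range_inj e1 hmono |>.1 e2) i
    have hS : ∀ k, S u k = S (fun i => a + Nat.nth (· ∈ B) i) k := by
      intro k
      unfold S
      refine Finset.sum_congr rfl fun i _ => ?_
      have e : a + Nat.nth (· ∈ B) i = u i := by rw [hnth i]; have := hge i; omega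
      exact (congrArg Nat.factorial e).symm
    refine mem_Start.2 ⟨?_, B, hinf, h0, ?_⟩
    · intro m hm hcon
      have : ((a + m : ℕ) : ℤ_[p]) = 0 := by push_cast; rw [hcon]; ring
      have h2 : a + m = 0 := by exact_mod_cast this
      omega
    · rw [tendsto_val_iff _ (fun k => (S_pos _ k).ne')] at ht
      have ha : 0 < ‖((a ! : ℕ) : ℤ_[p])‖ := norm_pos_iff.2 (by
        exact_mod_cast Nat.factorial_ne_zero a)
      rw [Metric.tendsto_atTop] at ht ⊢
      intro ε hε
      obtain ⟨K, hK⟩ := ht (ε * ‖((a ! : ℕ) : ℤ_[p])‖) (by positivity)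
      refine ⟨Nat.nth (· ∈ B) K + 1, fun n hn => ?_⟩
      -- find k
      have hex : ∃ j, n ≤ Nat.nth (· ∈ B) j :=
        ⟨n, (Nat.nth_strictMono (p := (· ∈ B)) hinf).id_le n⟩
      set j := Nat.find hex with hj
      have hj1 : n ≤ Nat.nth (· ∈ B) j := Nat.find_spec hex
      have hjpos : j ≠ 0 := by
        intro h
        rw [h, Nat.nth_zero_of_zero h0] at hj1
        omega
      obtain ⟨k, hk⟩ : ∃ k, j = k + 1 := ⟨j - 1, by omega⟩
      have hk1 : Nat.nth (· ∈ B) k < n := by
        have := Nat.find_min hex (m := k) (by omega)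
        omega
      rw [hk] at hj1
      have hKk : K ≤ k := by
        have h3 : Nat.nth (· ∈ B) K < Nat.nth (· ∈ B) (k + 1) := by omega
        have := (Nat.nth_strictMono (p := (· ∈ B)) hinf).lt_iff_lt.1 h3
        omega
      have h4 := hK k hKk
      rw [dist_zero_right, hS k, S_eq_G h0 hinf, norm_mul, mul_comm] at h4
      rw [dist_zero_right, G_between hinf _ hk1 hj1]
      exact lt_of_mul_lt_mul_right h4 ha.le

end Pool.Agent.PS38
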