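import Mathlib
import Pool.Agent.PS38.Equiv

set_option autoImplicit false

namespace Pool.Agent.PS38

open Finset Filter
open scoped Nat Topology

variable {p : ℕ} [hp : Fact p.Prime]

/-- the tail pattern attached to a 0-1 sequence. -/
def tail (p : ℕ) (s : ℕ → Bool) : Set ℕ := {c | ∃ t, s t = true ∧ c = 6 * p * (t + 1)}

lemma tail_ok (s : ℕ → Bool) : (∀ c ∈ tail p s, 6 ≤ c ∧ 2 * p ≤ c) ∧
    (∀ c ∈ tail p s, c + 1 ∈ tail p s → ¬ p ∣ c + 2) := by
  have h0 := hp.1.pos
  constructor
  · rintro c ⟨t, -, rfl⟩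
    constructor <;> nlinarith [Nat.zero_le (p * t)]
  · rintro c ⟨t, -, rfl⟩ ⟨r, -, hr⟩ _
    have h1 : 6 ∣ 6 * p * (t + 1) := ⟨p * (t + 1), by ring⟩
    have h2 : 6 ∣ 6 * p * (t + 1) + 1 := by rw [hr]; exact ⟨p * (r + 1), by ring⟩
    omega

lemma exists_nat_rise_lt (α : ℤ_[p]) : Tendsto (fun n => ‖rise α n‖) atTop (𝓝 0) := by
  rw [Metric.tendsto_atTop]
  intro ε hε
  obtain ⟨N, hN⟩ := pow_tendsto p hε
  refine ⟨N, fun n hn => ?_⟩
  rw [dist_zero_right, norm_norm]
  exact lt_of_le_of_lt (norm_rise_le α n) (hN n hn)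

/-- `α` solves the pattern `B` iff all truncations are small. -/
lemma tendsto_iff (B : Set ℕ) (α : ℤ_[p]) :
    Tendsto (fun n => G B n α) atTop (𝓝 0) ↔ ∀ m, ‖G B m α‖ ≤ ‖rise α m‖ := by
  constructor
  · exact fun h m => norm_G_le h m
  · intro h
    exact squeeze_zero_norm h (exists_nat_rise_lt α)

/-- the set of 0-1 sequences whose pattern is solved by `α`. -/
def K (α : ℤ_[p]) : Set (ℕ → Bool) :=
  {s | Tendsto (fun n => G (pat p (tail p s)) n α) atTop (𝓝 0)}

omit hp in
lemma tail_congr {s s' : ℕ → Bool} {m : ℕ} (hp0 : 0 < p) (h : ∀ t < m, s t = s' t) {b : ℕ}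
    (hb : b < m) : b ∈ pat p (tail p s) ↔ b ∈ pat p (tail p s') := by
  have key : ∀ {s s' : ℕ → Bool}, (∀ t < m, s t = s' t) → b ∈ tail p s → b ∈ tail p s' := by
    rintro s s' h ⟨t, h1, rfl⟩
    refine ⟨t, ?_, rfl⟩
    rw [← h t (by nlinarith [Nat.mul_le_mul_right (t + 1) (show 1 ≤ 6 * p by omega)])]
    exact h1
  unfold pat
  rw [Set.mem_union, Set.mem_union]
  exact or_congr Iff.rfl ⟨key h, key fun t ht => (h t ht).symm⟩

lemma G_congr {s s' : ℕ → Bool} {m : ℕ} (h : ∀ t < m, s t = s' t) (α : ℤ_[p]) :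
    G (pat p (tail p s)) m α = G (pat p (tail p s')) m α := by
  classical
  unfold G
  congr 1
  ext b
  simp only [mem_filter, mem_range]
  exact and_congr_right fun hb => tail_congr hp.1.pos h hb

lemma K_closed (α : ℤ_[p]) : IsClosed (K α) := by
  rw [← isOpen_compl_iff, isOpen_iff_mem_nhds]
  intro s hs
  have h1 : ¬ ∀ m, ‖G (pat p (tail p s)) m α‖ ≤ ‖rise α m‖ := fun h =>
    hs ((tendsto_iff _ _).2 h)
  push Not at h1
  obtain ⟨m, hm⟩ := h1
  have h2 : ∀ᶠ s' in 𝓝 s, ∀ t ∈ range m, s t = s' t := by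
    rw [Filter.eventually_all_finset]
    intro t _
    have h3 : Tendsto (fun s' : ℕ → Bool => s' t) (𝓝 s) (𝓝 (s t)) :=
      (continuous_apply t).tendsto s
    rw [nhds_discrete Bool, tendsto_pure] at h3
    filter_upwards [h3] with s' h using h.symm
  filter_upwards [h2] with s' hs'
  intro hK
  have h4 := (tendsto_iff _ _).1 hK m
  rw [← G_congr (fun t ht => hs' t (mem_range.2 ht)) α] at h4
  exact absurd h4 (not_le.2 hm)

/-- toggle one digit. -/
def toggle (s : ℕ → Bool) (N : ℕ) : ℕ → Bool := fun t => if t = N then !(s t) else s t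

lemma toggle_tendsto (s : ℕ → Bool) : Tendsto (fun N => toggle s N) atTop (𝓝 s) := by
  rw [tendsto_pi_nhds]
  intro t
  rw [nhds_discrete, tendsto_pure]
  filter_upwards [eventually_gt_atTop t] with N hN
  unfold toggle
  rw [if_neg (by omega)]

lemma G_insert {B B' : Set ℕ} {b n : ℕ} (hb : b ∉ B) (hB : B' = insert b B) (hn : b < n)
    (α : ℤ_[p]) : G B' n α = rise α b + G B n α := by
  classical
  subst hB
  have key : ∀ A : Set ℕ, G A n α = ∑ c ∈ range n, Set.indicator A (rise α) c := by
    intro A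
    unfold G
    rw [Finset.sum_filter]
    refine Finset.sum_congr rfl fun c _ => ?_
    by_cases hc : c ∈ A
    · rw [if_pos hc, Set.indicator_of_mem hc]
    · rw [if_neg hc, Set.indicator_of_notMem hc]
  rw [key, key]
  have h1 : ∀ c, Set.indicator (insert b B) (rise α) c
      = (if c = b then rise α b else 0) + Set.indicator B (rise α) c := by
    intro c
    by_cases hc : c = b
    · subst hc
      rw [if_pos rfl, Set.indicator_of_mem (Set.mem_insert _ _), Set.indicator_of_notMem hb,
        add_zero]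
    · rw [if_neg hc, zero_add]
      by_cases hcB : c ∈ B
      · rw [Set.indicator_of_mem hcB, Set.indicator_of_mem (Set.mem_insert_of_mem _ hcB)]
      · rw [Set.indicator_of_notMem hcB, Set.indicator_of_notMem]
        intro h
        rcases h with h | h
        · exact hc h
        · exact hcB h
  rw [Finset.sum_congr rfl fun c _ => h1 c, Finset.sum_add_distrib, Finset.sum_ite_eq',
    if_pos (mem_range.2 hn)]

lemma not_both {B : Set ℕ} {b : ℕ} (hb : b ∉ B) {α : ℤ_[p]}
    (h : ∀ m : ℕ, 1 ≤ m → α ≠ -(m : ℤ_[p]))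
    (h1 : Tendsto (fun n => G B n α) atTop (𝓝 0))
    (h2 : Tendsto (fun n => G (insert b B) n α) atTop (𝓝 0)) : False := by
  have h3 := h2.sub h1
  rw [sub_zero] at h3
  have h4 : Tendsto (fun n => G (insert b B) n α - G B n α) atTop (𝓝 (rise α b)) := by
    refine tendsto_const_nhds.congr' ?_
    filter_upwards [eventually_gt_atTop b] with n hn
    rw [G_insert hb rfl hn]; ring
  exact rise_ne_zero h b (tendsto_nhds_unique h4 h3)

lemma no_toggle {α : ℤ_[p]} (h : ∀ m : ℕ, 1 ≤ m → α ≠ -(m : ℤ_[p])) {s : ℕ → Bool} {N : ℕ}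
    (hs' : s ∈ K α) (hN1 : toggle s N ∈ K α) (hN2 : 1 ≤ N) : False := by
  have h0 := hp.1.pos
  -- the toggled index is not in the base block
  have hbase : 6 * p * (N + 1) ∉ base p := by
    have h6 : 6 * p * 2 ≤ 6 * p * (N + 1) := Nat.mul_le_mul_left _ (by omega)
    unfold base
    split_ifs with h2'
    · subst h2'
      simp only [Set.mem_insert_iff, Set.mem_singleton_iff, not_or]
      refine ⟨?_, ?_, ?_, ?_⟩ <;> omega
    · simp only [Set.mem_insert_iff, Set.mem_singleton_iff, not_or]
      refine ⟨?_, ?_, ?_⟩ <;> omega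
  have inj : ∀ t, 6 * p * (N + 1) = 6 * p * (t + 1) → t = N := by
    intro t ht
    have := Nat.eq_of_mul_eq_mul_left (by positivity : 0 < 6 * p) ht
    omega
  cases hsN : s N with
  | false =>
    have hnot : 6 * p * (N + 1) ∉ pat p (tail p s) := by
      rintro (hb | ⟨t, ht1, ht2⟩)
      · exact hbase hb
      · rw [inj t ht2, hsN] at ht1; exact absurd ht1 (by decide)
    have hins : pat p (tail p (toggle s N)) = insert (6 * p * (N + 1)) (pat p (tail p s)) := by
      ext c
      simp only [pat, tail, Set.mem_union, Set.mem_insert_iff, Set.mem_ofPred_eq]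
      constructor
      · rintro (hb | ⟨t, ht1, ht2⟩)
        · exact Or.inr (Or.inl hb)
        · by_cases htN : t = N
          · left; rw [ht2, htN]
          · right; right
            unfold toggle at ht1
            rw [if_neg htN] at ht1
            exact ⟨t, ht1, ht2⟩
      · rintro (hb | hb | ⟨t, ht1, ht2⟩)
        · right; exact ⟨N, by unfold toggle; rw [if_pos rfl, hsN]; rfl, hb⟩
        · exact Or.inl hb
        · right
          refine ⟨t, ?_, ht2⟩
          unfold toggle
          rw [if_neg]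
          · exact ht1
          · rintro rfl; rw [hsN] at ht1; exact absurd ht1 (by decide)
    have hk : Tendsto (fun n => G (pat p (tail p (toggle s N))) n α) atTop (𝓝 0) := hN1
    rw [hins] at hk
    exact not_both hnot h hs' hk
  | true =>
    have hnot : 6 * p * (N + 1) ∉ pat p (tail p (toggle s N)) := by
      rintro (hb | ⟨t, ht1, ht2⟩)
      · exact hbase hb
      · unfold toggle at ht1
        rw [if_pos (inj t ht2), inj t ht2, hsN] at ht1; exact absurd ht1 (by decide)
    have hins : pat p (tail p s) = insert (6 * p * (N + 1)) (pat p (tail p (toggle s N))) := by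
      ext c
      simp only [pat, tail, Set.mem_union, Set.mem_insert_iff, Set.mem_ofPred_eq]
      constructor
      · rintro (hb | ⟨t, ht1, ht2⟩)
        · exact Or.inr (Or.inl hb)
        · by_cases htN : t = N
          · left; rw [ht2, htN]
          · right; right
            refine ⟨t, ?_, ht2⟩
            unfold toggle
            rw [if_neg htN]
            exact ht1
      · rintro (hb | hb | ⟨t, ht1, ht2⟩)
        · right; exact ⟨N, hsN, hb⟩
        · exact Or.inl hb
        · right
          refine ⟨t, ?_, ht2⟩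
          unfold toggle at ht1
          by_cases htN : t = N
          · rw [if_pos htN, htN, hsN] at ht1; exact absurd ht1 (by decide)
          · rw [if_neg htN] at ht1; exact ht1
    have hk : Tendsto (fun n => G (pat p (tail p s)) n α) atTop (𝓝 0) := hs'
    rw [hins] at hk
    exact not_both hnot h hN1 hk

/-- the set of `p`-adic starting points is uncountable. -/
theorem start_uncountable (p : ℕ) [hp : Fact p.Prime] : ¬ (Start p).Countable := by
  intro hcount
  have h0 := hp.1.pos
  -- the patterns with infinitely many ones together with all others are covered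
  have : Countable (Start p) := hcount.to_subtype
  -- use even digits: `s t = true` for all odd `t` makes the pattern infinite
  let ext : (ℕ → Bool) → (ℕ → Bool) := fun s t => if t % 2 = 1 then true else s (t / 2)
  have hext : Continuous ext := by
    rw [continuous_pi_iff]
    intro t
    by_cases ht : t % 2 = 1
    · simp only [ext, ht, if_true]; exact continuous_const
    · simp only [ext, ht, if_false]; exact continuous_apply _
  have hinf : ∀ s, (pat p (tail p (ext s))).Infinite := by
    intro s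
    refine Set.infinite_of_injective_forall_mem (f := fun t : ℕ => 6 * p * ((2 * t + 1) + 1)) ?_ ?_
    · intro i j hij
      have := Nat.eq_of_mul_eq_mul_left (by positivity : 0 < 6 * p) hij
      omega
    · intro t
      right
      refine ⟨2 * t + 1, ?_, rfl⟩
      simp only [ext]
      rw [if_pos (by omega)]
  have hcover : (⋃ α : Start p, ext ⁻¹' (K (α : ℤ_[p]))) = Set.univ := by
    rw [Set.eq_univ_iff_forall]
    intro s
    obtain ⟨hC, hC2⟩ := tail_ok (p := p) (ext s)
    obtain ⟨α, h1, h2⟩ := alpha_all p (tail p (ext s)) hC hC2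
    rw [Set.mem_iUnion]
    exact ⟨⟨α, mem_Start.2 ⟨h1, _, hinf s, zero_mem_pat _, h2⟩⟩, h2⟩
  obtain ⟨α, s, hs⟩ := nonempty_interior_of_iUnion_of_closed
    (fun α : Start p => (K_closed (α : ℤ_[p])).preimage hext) hcover
  have hne : ∀ m : ℕ, 1 ≤ m → (α : ℤ_[p]) ≠ -(m : ℤ_[p]) := (mem_Start.1 α.2).1
  -- toggling the digit `N` of `s` toggles the digit `2N` of `ext s`
  have h1 : ext ⁻¹' (K (α : ℤ_[p])) ∈ 𝓝 s := mem_interior_iff_mem_nhds.1 hs
  have h2 : ∀ᶠ N in atTop, toggle s N ∈ ext ⁻¹' (K (α : ℤ_[p])) :=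
    (toggle_tendsto s).eventually h1
  obtain ⟨N, hN1, hN2⟩ := (h2.and (eventually_ge_atTop 1)).exists
  have hs' : ext s ∈ K (α : ℤ_[p]) := by
    have h := (interior_subset : interior (ext ⁻¹' (K (α : ℤ_[p]))) ⊆ _) hs
    exact h
  have htog : ext (toggle s N) = toggle (ext s) (2 * N) := by
    funext t
    simp only [ext, toggle]
    by_cases ht : t % 2 = 1
    · rw [if_pos ht, if_pos ht, if_neg (by omega)]
    · rw [if_neg ht, if_neg ht]
      by_cases htN : t = 2 * N
      · rw [if_pos (by omega), if_pos htN]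
      · rw [if_neg (by omega), if_neg htN]
  have hN3 : toggle (ext s) (2 * N) ∈ K (α : ℤ_[p]) := by rw [← htog]; exact hN1
  exact no_toggle hne hs' hN3 (by omega)

end Pool.Agent.PS38
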