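import Mathlib
import Pool.Agent.PS38.Uncount

set_option autoImplicit false

namespace Pool.Agent.PS38

open Finset Filter
open scoped Nat Topology

variable {p : ℕ} [hp : Fact p.Prime]

/-- support of a 0-1 sequence. -/
def supp (s : ℕ → Bool) : Set ℕ := {n | s n = true}

lemma G_supp_congr {s s' : ℕ → Bool} {m : ℕ} (h : ∀ t < m, s t = s' t) (x : ℤ_[p]) :
    G (supp s) m x = G (supp s') m x := by
  classical
  unfold G
  congr 1
  ext b
  simp only [mem_filter, mem_range]
  refine and_congr_right fun hb => ?_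
  change s b = true ↔ s' b = true
  rw [h b hb]

/-- stage `m`. -/
def Stage (a : ℕ) (m : ℕ) : Set (ℕ → Bool) :=
  {s | s 0 = true ∧ ‖G (supp s) (m + 1) (a : ℤ_[p])‖ ≤ ‖rise (a : ℤ_[p]) (m + 1)‖}

lemma stage_closed (a m : ℕ) : IsClosed (Stage (p := p) a m) := by
  rw [← isOpen_compl_iff, isOpen_iff_mem_nhds]
  intro s hs
  have h2 : ∀ᶠ s' in 𝓝 s, ∀ t ∈ range (m + 1), s t = s' t := by
    rw [Filter.eventually_all_finset]
    intro t _
    have h3 : Tendsto (fun s' : ℕ → Bool => s' t) (𝓝 s) (𝓝 (s t)) :=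
      (continuous_apply t).tendsto s
    rw [nhds_discrete Bool, tendsto_pure] at h3
    filter_upwards [h3] with s' h using h.symm
  filter_upwards [h2] with s' hs'
  intro hK
  apply hs
  refine ⟨?_, ?_⟩
  · rw [hs' 0 (mem_range.2 (by omega))]; exact hK.1
  · rw [G_supp_congr (fun t ht => hs' t (mem_range.2 ht))]; exact hK.2

lemma stage_anti (a m : ℕ) : Stage (p := p) a (m + 1) ⊆ Stage (p := p) a m := by
  classical
  rintro s ⟨h1, h2⟩
  refine ⟨h1, ?_⟩
  have h3 := norm_tail_le (supp s) (a : ℤ_[p]) (n := m + 1) (m := m + 1 + 1) (by omega)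
  have e1 : G (supp s) (m + 1) (a : ℤ_[p]) = G (supp s) (m + 1 + 1) (a : ℤ_[p])
      + -(G (supp s) (m + 1 + 1) (a : ℤ_[p]) - G (supp s) (m + 1) (a : ℤ_[p])) := by ring
  rw [e1]
  refine (PadicInt.nonarchimedean _ _).trans (max_le ?_ ?_)
  · exact h2.trans (norm_rise_anti _ (by omega))
  · rw [norm_neg]; exact h3

open Classical in
lemma norm_G_iff {B : Set ℕ} (a m : ℕ) :
    ‖G B m (a : ℤ_[p])‖ ≤ ‖rise (a : ℤ_[p]) m‖ ↔
      p ^ padicValNat p (a + m)! ∣ ∑ c ∈ (range m).filter (· ∈ B), (a + c)! := by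
  constructor
  · exact crit_nat
  · intro h
    have h1 : ((∑ c ∈ (range m).filter (· ∈ B), (a + c)! : ℕ) : ℤ_[p])
        = ((a ! : ℕ) : ℤ_[p]) * G B m (a : ℤ_[p]) := by
      unfold G
      rw [Finset.mul_sum]
      push_cast
      refine Finset.sum_congr rfl fun c _ => ?_
      rw [← rise_nat]
    have h2 := (PadicInt.norm_int_le_pow_iff_dvd (p := p)
      (k := ((∑ c ∈ (range m).filter (· ∈ B), (a + c)! : ℕ) : ℤ))
      (n := padicValNat p (a + m)!)).2 (by exact_mod_cast h)
    have h3 : ‖((∑ c ∈ (range m).filter (· ∈ B), (a + c)! : ℕ) : ℤ_[p])‖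
        ≤ ‖(((a + m)! : ℕ) : ℤ_[p])‖ := by
      rw [norm_nat_eq _ (Nat.factorial_ne_zero (a + m))]
      simpa using h2
    rw [h1, ← rise_nat, norm_mul, norm_mul] at h3
    have ha : 0 < ‖((a ! : ℕ) : ℤ_[p])‖ := norm_pos_iff.2 (by
      exact_mod_cast Nat.factorial_ne_zero a)
    exact le_of_mul_le_mul_left h3 ha

/-- compactness: a natural number is a starting point iff every finite stage can be passed. -/
theorem konig (a : ℕ) (ha : 1 ≤ a) :
    ((a : ℤ_[p]) ∈ Start p ↔ ∀ m : ℕ, ∃ T : Finset ℕ, 0 ∈ T ∧ (∀ c ∈ T, c ≤ m) ∧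
      p ^ padicValNat p (a + m + 1)! ∣ ∑ c ∈ T, (a + c)!) := by
  classical
  constructor
  · intro h m
    obtain ⟨-, B, -, h0, hlim⟩ := mem_Start.1 h
    refine ⟨(range (m + 1)).filter (· ∈ B), ?_, ?_, ?_⟩
    · rw [mem_filter, mem_range]; exact ⟨by omega, h0⟩
    · intro c hc
      rw [mem_filter, mem_range] at hc
      omega
    · exact (norm_G_iff a (m + 1)).1 (norm_G_le hlim (m + 1))
  · intro h
    have hne : ∀ m, (Stage (p := p) a m).Nonempty := by
      intro m
      obtain ⟨T, hT0, hT, hd⟩ := h m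
      refine ⟨fun n => decide (n ∈ T), by simpa using hT0, ?_⟩
      rw [norm_G_iff]
      have : (range (m + 1)).filter (· ∈ supp (fun n => decide (n ∈ T))) = T := by
        ext c
        simp only [mem_filter, mem_range, supp, Set.mem_ofPred_eq, decide_eq_true_eq]
        constructor
        · exact fun h => h.2
        · intro hc
          have := hT c hc
          exact ⟨by omega, hc⟩
      rw [this]
      exact hd
    obtain ⟨s, hs⟩ := IsCompact.nonempty_iInter_of_sequence_nonempty_isCompact_isClosed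
      (fun m => Stage (p := p) a m) (fun m => stage_anti a m) hne
      (stage_closed (p := p) a 0).isCompact (fun m => stage_closed a m)
    rw [Set.mem_iInter] at hs
    have h0 : (0 : ℕ) ∈ supp s := (hs 0).1
    have hlim : Tendsto (fun n => G (supp s) n (a : ℤ_[p])) atTop (𝓝 0) := by
      rw [tendsto_iff]
      intro m
      rcases m with _ | m
      · simp [G]
      · exact (hs m).2
    refine mem_Start.2 ⟨?_, supp s, ?_, h0, hlim⟩
    · intro m hm hcon
      have : ((a + m : ℕ) : ℤ_[p]) = 0 := by push_cast; rw [hcon]; ring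
      have h2 : a + m = 0 := by exact_mod_cast this
      omega
    · intro hfin
      obtain ⟨N, hN⟩ : ∃ N, ∀ c ∈ supp s, c < N := by
        obtain ⟨N, hN⟩ := hfin.bddAbove
        exact ⟨N + 1, fun c hc => Nat.lt_succ_of_le (hN hc)⟩
      have hconst : ∀ n, N ≤ n → G (supp s) n (a : ℤ_[p]) = G (supp s) N (a : ℤ_[p]) := by
        intro n hn
        have := G_tail (supp s) (a : ℤ_[p]) hn
        rw [Finset.sum_eq_zero] at this
        · exact sub_eq_zero.1 this
        · intro b hb
          rw [mem_filter, mem_Ico] at hb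
          have := hN b hb.2
          omega
      have hl2 : Tendsto (fun n => G (supp s) n (a : ℤ_[p])) atTop
          (𝓝 (G (supp s) N (a : ℤ_[p]))) := by
        refine tendsto_const_nhds.congr' ?_
        filter_upwards [eventually_ge_atTop N] with n hn
        exact (hconst n hn).symm
      have hz := tendsto_nhds_unique hl2 hlim
      have h1 : ((∑ c ∈ (range N).filter (· ∈ supp s), (a + c)! : ℕ) : ℤ_[p])
          = ((a ! : ℕ) : ℤ_[p]) * G (supp s) N (a : ℤ_[p]) := by
        unfold G
        rw [Finset.mul_sum]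
        push_cast
        refine Finset.sum_congr rfl fun c _ => ?_
        rw [← rise_nat]
      rw [hz, mul_zero] at h1
      have h2 : ∑ c ∈ (range N).filter (· ∈ supp s), (a + c)! = 0 := by exact_mod_cast h1
      have h3 := Finset.sum_eq_zero_iff.1 h2 0
        (by rw [mem_filter, mem_range]; exact ⟨hN 0 h0, h0⟩)
      exact Nat.factorial_ne_zero _ h3

end Pool.Agent.PS38
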