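import Mathlib
import Pool.Agent.PS38.Konig

set_option autoImplicit false

namespace Pool.Agent.PS38

open Finset Filter
open scoped Nat Topology

variable {p : ℕ} [hp : Fact p.Prime]

lemma sum_desc_bound (n : ℕ) : ∑ c ∈ range (n + 1), n.descFactorial c + 1 ≤ 3 * n ! := by
  induction n with
  | zero => decide
  | succ n ih =>
    have h1 : ∑ c ∈ range (n + 1 + 1), (n + 1).descFactorial c
        = (n + 1) * ∑ c ∈ range (n + 1), n.descFactorial c + 1 := by
      rw [Finset.sum_range_succ', Finset.mul_sum]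
      congr 1
      exact Finset.sum_congr rfl fun c _ => Nat.succ_descFactorial_succ _ _
    rw [h1, Nat.factorial_succ]
    rcases n with _ | n
    · decide
    · have h2 : (n + 1 + 1) * (∑ c ∈ range (n + 1 + 1), (n + 1).descFactorial c + 1)
          ≤ (n + 1 + 1) * (3 * (n + 1)!) := Nat.mul_le_mul_left _ ih
      nlinarith

open Classical in
lemma Z_ne {B : Set ℕ} (h0 : 0 ∈ B) {b : ℕ} (hb : 1 ≤ b) (hb2 : b ≠ 2) :
    ∑ c ∈ (range b).filter (· ∈ B), (-1 : ℤ) ^ c * ((b - 1).descFactorial c : ℤ) ≠ 0 := by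
  have hmem : 0 ∈ (range b).filter (· ∈ B) := by
    rw [mem_filter, mem_range]; exact ⟨by omega, h0⟩
  rw [← Finset.add_sum_erase _ _ hmem]
  have hdiv : ((b - 1 : ℕ) : ℤ) ∣ ∑ c ∈ ((range b).filter (· ∈ B)).erase 0,
      (-1 : ℤ) ^ c * ((b - 1).descFactorial c : ℤ) := by
    refine Finset.dvd_sum fun c hc => ?_
    rw [mem_erase] at hc
    obtain ⟨d, rfl⟩ : ∃ d, c = d + 1 := ⟨c - 1, by omega⟩
    refine Dvd.dvd.mul_left ?_ _
    have : (b - 1) ∣ (b - 1).descFactorial (d + 1) := by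
      rcases Nat.eq_zero_or_pos (b - 1) with h | h
      · rw [h]; simp
      · obtain ⟨e, he⟩ : ∃ e, b - 1 = e + 1 := ⟨b - 1 - 1, by omega⟩
        rw [he, Nat.succ_descFactorial_succ]
        exact Dvd.intro _ rfl
    exact_mod_cast this
  intro hz
  simp only [pow_zero, Nat.descFactorial_zero, Nat.cast_one, mul_one] at hz
  have h1 : ((b - 1 : ℕ) : ℤ) ∣ 1 := by
    have h2 : (1 : ℤ) = -(∑ c ∈ ((range b).filter (· ∈ B)).erase 0,
      (-1 : ℤ) ^ c * ((b - 1).descFactorial c : ℤ)) := by linarith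
    rw [h2]
    exact (dvd_neg).2 hdiv
  have h3 : (b - 1) ∣ 1 := by exact_mod_cast h1
  have h4 := Nat.dvd_one.1 h3
  omega

/-- a starting point cannot be too close below a highly divisible number. -/
theorem not_close {α : ℤ_[p]} (hα : α ∈ Start p) {b t : ℕ} (hb : 1 ≤ b) (hb2 : b ≠ 2)
    (h : ‖α + (b : ℤ_[p])‖ ≤ (p : ℝ) ^ (-(t : ℤ))) : p ^ t < 3 * (b - 1)! := by
  classical
  obtain ⟨-, B, -, h0, hlim⟩ := mem_Start.1 hα
  have h1 : ‖rise α b‖ ≤ ‖α + (b : ℤ_[p])‖ := by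
    obtain ⟨d, rfl⟩ : ∃ d, b = d + 1 := ⟨b - 1, by omega⟩
    have h2 : rise α (d + 1) = rise α d * (α + d + 1) := by
      unfold rise; rw [Finset.prod_range_succ]
    rw [h2, norm_mul]
    push_cast
    rw [add_assoc]
    exact mul_le_of_le_one_left (norm_nonneg _) (PadicInt.norm_le_one _)
  have h2 : ‖G B b (-(b : ℤ_[p]))‖ ≤ (p : ℝ) ^ (-(t : ℤ)) := by
    have e1 : G B b (-(b : ℤ_[p])) = G B b α + -(G B b α - G B b (-(b : ℤ_[p]))) := by ring
    rw [e1]
    refine (PadicInt.nonarchimedean _ _).trans (max_le ?_ ?_)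
    · exact (norm_G_le hlim b).trans (h1.trans h)
    · rw [norm_neg]
      refine (G_lip B b _ _).trans ?_
      rw [sub_neg_eq_add]; exact h
  set Z : ℤ := ∑ c ∈ (range b).filter (· ∈ B), (-1 : ℤ) ^ c * ((b - 1).descFactorial c : ℤ)
    with hZ
  have h3 : G B b (-(b : ℤ_[p])) = (Z : ℤ_[p]) := by
    unfold G
    rw [hZ, Int.cast_sum]
    refine Finset.sum_congr rfl fun c hc => ?_
    rw [mem_filter, mem_range] at hc
    exact rise_neg b c hc.1
  rw [h3, PadicInt.norm_int_le_pow_iff_dvd] at h2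
  have hne : Z ≠ 0 := Z_ne h0 hb hb2
  have h4 : (p : ℤ) ^ t ≤ |Z| := Int.le_of_dvd (abs_pos.2 hne) ((dvd_abs _ _).2 h2)
  have h5 : |Z| ≤ ((∑ c ∈ range b, (b - 1).descFactorial c : ℕ) : ℤ) := by
    refine (Finset.abs_sum_le_sum_abs _ _).trans ?_
    push_cast
    refine (Finset.sum_le_sum_of_subset_of_nonneg (Finset.filter_subset _ _)
      (fun _ _ _ => abs_nonneg _)).trans (Finset.sum_le_sum fun c _ => ?_)
    rw [abs_mul, abs_pow, abs_neg, abs_one, one_pow, one_mul]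
    exact le_of_eq (abs_of_nonneg (by positivity))
  have h6 := sum_desc_bound (b - 1)
  rw [Nat.sub_add_cancel hb] at h6
  have h7 : p ^ t ≤ ∑ c ∈ range b, (b - 1).descFactorial c := by
    exact_mod_cast h4.trans h5
  omega

/-- the set of starting points is nowhere dense. -/
theorem nowhereDense (p : ℕ) [hp : Fact p.Prime] : IsNowhereDense (Start p) := by
  unfold IsNowhereDense
  rw [Set.eq_empty_iff_forall_notMem]
  intro x hx
  have hxo : interior (closure (Start p)) ∈ 𝓝 x := isOpen_interior.mem_nhds hx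
  obtain ⟨ε, hε, hball⟩ := Metric.mem_nhds_iff.1 hxo
  obtain ⟨k, hk⟩ := PadicInt.exists_pow_neg_lt (p := p) hε
  -- a natural number `b ≥ 3` with `-b` in the ball
  set b : ℕ := (-x).appr k + 3 * p ^ k with hb
  have hpk : 1 ≤ p ^ k := Nat.one_le_pow _ _ hp.1.pos
  have hb3 : 3 ≤ b := by omega
  have hclose : ‖-(b : ℤ_[p]) - x‖ < ε := by
    have h1 : ‖(-x) - (((-x).appr k : ℕ) : ℤ_[p])‖ ≤ (p : ℝ) ^ (-(k : ℤ)) :=
      (PadicInt.norm_le_pow_iff_mem_span_pow _ _).2 (PadicInt.appr_spec k (-x))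
    have h2 : ‖((3 * p ^ k : ℕ) : ℤ_[p])‖ ≤ (p : ℝ) ^ (-(k : ℤ)) := by
      have := (PadicInt.norm_int_le_pow_iff_dvd (p := p) (k := ((3 * p ^ k : ℕ) : ℤ)) (n := k)).2
        (by push_cast; exact Dvd.intro_left _ rfl)
      simpa using this
    have e1 : -(b : ℤ_[p]) - x
        = ((-x) - (((-x).appr k : ℕ) : ℤ_[p])) + -((3 * p ^ k : ℕ) : ℤ_[p]) := by
      rw [hb]; push_cast; ring
    rw [e1]
    refine lt_of_le_of_lt ((PadicInt.nonarchimedean _ _).trans (max_le h1 ?_)) hk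
    rw [norm_neg]; exact h2
  have hmem : -(b : ℤ_[p]) ∈ interior (closure (Start p)) := hball (by
    rw [Metric.mem_ball, dist_eq_norm]; exact hclose)
  -- a small ball around `-b` misses `Start p`
  obtain ⟨t, ht⟩ : ∃ t : ℕ, 3 * (b - 1)! ≤ p ^ t :=
    ⟨3 * (b - 1)!, (Nat.lt_pow_self hp.1.one_lt).le⟩
  have hU : Metric.ball (-(b : ℤ_[p])) ((p : ℝ) ^ (-(t : ℤ))) ∈ 𝓝 (-(b : ℤ_[p])) :=
    Metric.ball_mem_nhds _ (by
      have : (0 : ℝ) < p := by exact_mod_cast hp.1.pos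
      positivity)
  have hcl : -(b : ℤ_[p]) ∈ closure (Start p) := interior_subset hmem
  obtain ⟨α, hα1, hα2⟩ := mem_closure_iff_nhds.1 hcl _ hU
  rw [Metric.mem_ball, dist_eq_norm, sub_neg_eq_add] at hα1
  have := not_close hα2 (b := b) (t := t) (by omega) (by omega) hα1.le
  omega

end Pool.Agent.PS38
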