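import Mathlib
import Pool.Agent.PS38.Nowhere

set_option autoImplicit false

namespace Pool.Agent.PS38

open Finset Filter
open scoped Nat Topology

variable {p : ℕ} [hp : Fact p.Prime]

omit hp in
/-- finite sums with first term `a` divisible by high powers from one infinite sequence. -/
lemma sums_of_seq {a : ℕ} (h : ∃ u : ℕ → ℕ, StrictMono u ∧ u 0 = a ∧
    Tendsto (fun k => padicValNat p (S u k)) atTop atTop) (K : ℕ) :
    ∃ T : Finset ℕ, (∀ t ∈ T, a < t) ∧ p ^ K ∣ a ! + ∑ t ∈ T, t ! := by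
  obtain ⟨u, hu, h0, ht⟩ := h
  rw [tendsto_atTop_atTop] at ht
  obtain ⟨N, hN⟩ := ht K
  refine ⟨(range N).image (fun i => u (i + 1)), ?_, ?_⟩
  · intro t htm
    rw [mem_image] at htm
    obtain ⟨i, -, rfl⟩ := htm
    rw [← h0]
    exact hu (Nat.succ_pos i)
  · have h1 : a ! + ∑ t ∈ (range N).image (fun i => u (i + 1)), t ! = S u N := by
      rw [Finset.sum_image (fun i _ j _ hij => by have := hu.injective hij; omega)]
      unfold S
      rw [Finset.sum_range_succ', h0, add_comm]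
    rw [h1]
    exact (pow_dvd_pow p (hN N le_rfl)).trans pow_padicValNat_dvd

omit hp in
/-- truncation of a finite sum. -/
lemma stage_of_sums {a : ℕ} (h : ∀ K : ℕ, ∃ T : Finset ℕ, (∀ t ∈ T, a < t) ∧
    p ^ K ∣ a ! + ∑ t ∈ T, t !) (m : ℕ) :
    ∃ T : Finset ℕ, 0 ∈ T ∧ (∀ c ∈ T, c ≤ m) ∧
      p ^ padicValNat p (a + m + 1)! ∣ ∑ c ∈ T, (a + c)! := by
  classical
  obtain ⟨T, hT, hd⟩ := h (padicValNat p (a + m + 1)!)
  set T₁ : Finset ℕ := T.filter (· ≤ a + m) with hT₁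
  refine ⟨insert 0 (T₁.image (fun t => t - a)), mem_insert_self _ _, ?_, ?_⟩
  · intro c hc
    rw [mem_insert, mem_image] at hc
    rcases hc with rfl | ⟨t, ht, rfl⟩
    · omega
    · rw [hT₁, mem_filter] at ht
      omega
  · have h0 : 0 ∉ T₁.image (fun t => t - a) := by
      rw [mem_image]
      rintro ⟨t, ht, h0⟩
      rw [hT₁, mem_filter] at ht
      have := hT t ht.1
      omega
    rw [Finset.sum_insert h0, Finset.sum_image (fun s hs t ht hst => by
      have hs' : s ∈ T₁ := hs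
      have ht' : t ∈ T₁ := ht
      rw [hT₁, mem_filter] at hs' ht'
      have h1 := hT s hs'.1
      have h2 := hT t ht'.1
      have h3 : s - a = t - a := hst
      omega)]
    have h1 : ∑ t ∈ T₁, (a + (t - a))! = ∑ t ∈ T₁, t ! := by
      refine Finset.sum_congr rfl fun t ht => ?_
      rw [hT₁, mem_filter] at ht
      have := hT t ht.1
      rw [Nat.add_sub_cancel' (by omega)]
    rw [h1, add_zero]
    have h2 : ∑ t ∈ T, t ! = ∑ t ∈ T₁, t ! + ∑ t ∈ T.filter (fun t => ¬ t ≤ a + m), t ! := by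
      rw [hT₁, Finset.sum_filter_add_sum_filter_not]
    rw [h2, ← add_assoc] at hd
    refine (Nat.dvd_add_left ?_).1 hd
    refine Finset.dvd_sum fun t ht => ?_
    rw [mem_filter] at ht
    exact pow_padicValNat_dvd.trans (Nat.factorial_dvd_factorial (by omega))

/-- compactness: four equivalent forms. -/
theorem compactness (p : ℕ) [hp : Fact p.Prime] (a : ℕ) (ha : 1 ≤ a) :
    List.TFAE [
      ∃ u : ℕ → ℕ, StrictMono u ∧ u 0 = a ∧
        Tendsto (fun k => padicValNat p (∑ i ∈ range (k + 1), (u i)!)) atTop atTop,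
      ∃ u : ℕ → ℕ, StrictMono u ∧ u 0 = a ∧
        ∀ k, padicValNat p (u (k + 1))! ≤ padicValNat p (∑ i ∈ range (k + 1), (u i)!),
      ∀ K : ℕ, ∃ T : Finset ℕ, (∀ t ∈ T, a < t) ∧ p ^ K ∣ a ! + ∑ t ∈ T, t !,
      ∀ m : ℕ, ∃ T : Finset ℕ, 0 ∈ T ∧ (∀ c ∈ T, c ≤ m) ∧
        p ^ padicValNat p (a + m + 1)! ∣ ∑ c ∈ T, (a + c)!] := by
  tfae_have 1 ↔ 2 := by
    constructor
    · rintro ⟨u, hu, h0, ht⟩
      exact ⟨u, hu, h0, (crit hu).1 ht⟩
    · rintro ⟨u, hu, h0, ht⟩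
      exact ⟨u, hu, h0, (crit hu).2 ht⟩
  tfae_have 1 → 3 := fun h K => sums_of_seq h K
  tfae_have 3 → 4 := fun h m => stage_of_sums h m
  tfae_have 4 → 1 := fun h => (natural_start a).1 ((konig a ha).2 h)
  tfae_finish

end Pool.Agent.PS38
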