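import Mathlib
import Pool.Agent.PS38.Compact

set_option autoImplicit false

namespace Pool.Agent.PS38.Compactness

open Finset Filter
open scoped Nat

/-- Fix a prime `p` and a first term `a ≥ 1`.  Equivalent: (1) some strictly increasing sequence
with first term `a` has `m_k → ∞`; (2) some strictly increasing sequence with first term `a`
satisfies `v_p((u (k+1))!) ≤ m_k` for all `k`; (3) for every `K` some finite sum of distinct
factorials with smallest term `a !` is divisible by `p ^ K`; (4) for every `m` some sum of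
factorials `(a + c)!`, `c ≤ m`, containing `a !`, is divisible by the `p`-part of
`(a + m + 1)!`. -/
theorem result (p : ℕ) [Fact p.Prime] (a : ℕ) (ha : 1 ≤ a) :
    List.TFAE [
      ∃ u : ℕ → ℕ, StrictMono u ∧ u 0 = a ∧
        Tendsto (fun k => padicValNat p (∑ i ∈ range (k + 1), (u i)!)) atTop atTop,
      ∃ u : ℕ → ℕ, StrictMono u ∧ u 0 = a ∧
        ∀ k, padicValNat p (u (k + 1))! ≤ padicValNat p (∑ i ∈ range (k + 1), (u i)!),
      ∀ K : ℕ, ∃ T : Finset ℕ, (∀ t ∈ T, a < t) ∧ p ^ K ∣ a ! + ∑ t ∈ T, t !,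
      ∀ m : ℕ, ∃ T : Finset ℕ, 0 ∈ T ∧ (∀ c ∈ T, c ≤ m) ∧
        p ^ padicValNat p (a + m + 1)! ∣ ∑ c ∈ T, (a + c)!] :=
  PS38.compactness p a ha

end Pool.Agent.PS38.Compactness
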