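import Mathlib

set_option autoImplicit false

/-!
For `p = 2` the sums of distinct factorials occupy a vanishing proportion of the residue classes
modulo `2 ^ k`.
-/

namespace Pool.Agent.PS38.Null

open Finset Filter
open scoped Nat Topology

/-- residues modulo `2 ^ k` of the members of `A`. -/
noncomputable def im (k : ℕ) (A : Set ℤ) : Finset (ZMod (2 ^ k)) :=
  (Set.toFinite ((fun x : ℤ => (x : ZMod (2 ^ k))) '' A)).toFinset

lemma mem_im {k : ℕ} {A : Set ℤ} {y : ZMod (2 ^ k)} :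
    y ∈ im k A ↔ ∃ x ∈ A, (x : ZMod (2 ^ k)) = y := by
  unfold im
  rw [Set.Finite.mem_toFinset]
  rfl

/-- number of residues. -/
noncomputable def c (k : ℕ) (A : Set ℤ) : ℕ := (im k A).card

lemma im_mono {k : ℕ} {A B : Set ℤ} (h : A ⊆ B) : im k A ⊆ im k B := by
  intro y hy
  rw [mem_im] at hy ⊢
  obtain ⟨x, hx, rfl⟩ := hy
  exact ⟨x, h hx, rfl⟩

lemma c_mono {k : ℕ} {A B : Set ℤ} (h : A ⊆ B) : c k A ≤ c k B := card_le_card (im_mono h)

lemma c_union (k : ℕ) (A B : Set ℤ) : c k (A ∪ B) ≤ c k A + c k B := by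
  classical
  unfold c
  refine (card_le_card (t := im k A ∪ im k B) ?_).trans (card_union_le _ _)
  intro y hy
  rw [mem_union, mem_im, mem_im]
  rw [mem_im] at hy
  obtain ⟨x, hx | hx, rfl⟩ := hy
  · exact Or.inl ⟨x, hx, rfl⟩
  · exact Or.inr ⟨x, hx, rfl⟩

lemma eq_iff_dvd (k : ℕ) (x y : ℤ) :
    (x : ZMod (2 ^ k)) = (y : ZMod (2 ^ k)) ↔ (2 ^ k : ℤ) ∣ x - y := by
  rw [ZMod.intCast_eq_intCast_iff_dvd_sub]
  push_cast
  constructor
  · intro h
    have := (dvd_neg).2 h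
    rwa [neg_sub] at this
  · intro h
    have := (dvd_neg).2 h
    rwa [neg_sub] at this

lemma c_le {k l : ℕ} {f : ℤ → ℤ} (A : Set ℤ)
    (h : ∀ x y : ℤ, (2 ^ k : ℤ) ∣ x - y → (2 ^ l : ℤ) ∣ f x - f y) :
    c l (f '' A) ≤ c k A := by
  classical
  unfold c
  refine (card_le_card (t := (im k A).image
    (fun y : ZMod (2 ^ k) => ((f (y.cast : ℤ) : ℤ) : ZMod (2 ^ l)))) ?_).trans card_image_le
  intro y hy
  rw [mem_im] at hy
  obtain ⟨-, ⟨x, hx, rfl⟩, rfl⟩ := hy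
  rw [mem_image]
  refine ⟨(x : ZMod (2 ^ k)), mem_im.2 ⟨x, hx, rfl⟩, ?_⟩
  rw [eq_iff_dvd]
  apply h
  rw [← eq_iff_dvd]
  simp

lemma c_refine {k t : ℕ} (h : t ≤ k) (A : Set ℤ) : c k A ≤ c t A * 2 ^ (k - t) := by
  classical
  have hsplit : 2 ^ k = 2 ^ t * 2 ^ (k - t) := by rw [← pow_add]; congr 1; omega
  unfold c
  have h1 : (im t A ×ˢ range (2 ^ (k - t))).card = (im t A).card * 2 ^ (k - t) := by
    rw [card_product, card_range]
  rw [← h1]
  refine card_le_card_of_injOn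
    (fun y : ZMod (2 ^ k) => (((y.val : ℕ) : ZMod (2 ^ t)), y.val / 2 ^ t)) ?_ ?_
  · intro y hy
    have hy' := mem_im.1 (Finset.mem_coe.1 hy)
    obtain ⟨x, hx, hxy⟩ := hy'
    rw [Finset.mem_coe, mem_product, mem_range]
    refine ⟨?_, ?_⟩
    · rw [mem_im]
      refine ⟨x, hx, ?_⟩
      have e1 : ((y.val : ℕ) : ZMod (2 ^ t)) = (((y.val : ℕ) : ℤ) : ZMod (2 ^ t)) := by
        push_cast; rfl
      simp only []
      rw [e1, eq_iff_dvd]
      have h2 : (2 ^ k : ℤ) ∣ x - ((y.val : ℕ) : ℤ) := by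
        rw [← eq_iff_dvd, hxy]
        simp
      exact (pow_dvd_pow 2 h).trans h2
    · have h3 := ZMod.val_lt y
      exact Nat.div_lt_of_lt_mul (by rw [← hsplit]; exact h3)
  · intro y hy z hz hyz
    simp only [Prod.mk.injEq] at hyz
    obtain ⟨h2, h3⟩ := hyz
    rw [ZMod.natCast_eq_natCast_iff'] at h2
    apply ZMod.val_injective
    rw [← Nat.div_add_mod y.val (2 ^ t), ← Nat.div_add_mod z.val (2 ^ t), h2, h3]

/-- `∏_{i < b} (n + i + 1)`. -/
def g (n b : ℕ) : ℤ := ∏ i ∈ range b, ((n : ℤ) + i + 1)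

/-- sums `∑ e b * g n b` with `e b` equal to `0` or `1`. -/
def X (n : ℕ) : Set ℤ := {x | ∃ (m : ℕ) (e : ℕ → ℤ), (∀ b, e b = 0 ∨ e b = 1) ∧
  x = ∑ b ∈ range m, e b * g n b}

lemma g_succ (n b : ℕ) : g n (b + 1) = ((n : ℤ) + 1) * g (n + 1) b := by
  unfold g
  rw [Finset.prod_range_succ', mul_comm]
  have h : ∀ i ∈ range b, ((n : ℤ) + ((i + 1 : ℕ) : ℤ) + 1) = (((n + 1 : ℕ) : ℤ) + (i : ℤ) + 1) := by
    intro i _
    push_cast; ring
  rw [Finset.prod_congr rfl h]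
  simp

lemma g_zero (n : ℕ) : g n 0 = 1 := by simp [g]

/-- one step: `X n = {0, 1} + (n + 1) X (n + 1)`. -/
lemma mem_X_succ {n : ℕ} {x : ℤ} :
    x ∈ X n ↔ ∃ y ∈ X (n + 1), x = ((n : ℤ) + 1) * y ∨ x = 1 + ((n : ℤ) + 1) * y := by
  constructor
  · rintro ⟨m, e, he, rfl⟩
    rcases m with _ | m
    · exact ⟨0, ⟨0, fun _ => 0, fun _ => Or.inl rfl, by simp⟩, Or.inl (by simp)⟩
    · refine ⟨∑ b ∈ range m, e (b + 1) * g (n + 1) b,
        ⟨m, fun b => e (b + 1), fun b => he _, rfl⟩, ?_⟩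
      have h1 : ∑ b ∈ range (m + 1), e b * g n b
          = e 0 + ((n : ℤ) + 1) * ∑ b ∈ range m, e (b + 1) * g (n + 1) b := by
        rw [Finset.sum_range_succ', Finset.mul_sum, g_zero, mul_one, add_comm]
        congr 1
        refine Finset.sum_congr rfl fun b _ => ?_
        rw [g_succ]; ring
      rw [h1]
      rcases he 0 with h | h <;> rw [h]
      · left; ring
      · right; rfl
  · have key : ∀ (d : ℤ), (d = 0 ∨ d = 1) → ∀ y ∈ X (n + 1), d + ((n : ℤ) + 1) * y ∈ X n := by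
      rintro d hd y ⟨m, e, he, rfl⟩
      refine ⟨m + 1, fun b => if b = 0 then d else e (b - 1), ?_, ?_⟩
      · intro b
        by_cases hb : b = 0
        · simp [hb, hd]
        · simp [hb, he]
      · rw [Finset.sum_range_succ', Finset.mul_sum, g_zero]
        simp only [Nat.add_eq_zero_iff, one_ne_zero, and_false, if_false, Nat.add_sub_cancel,
          if_true, mul_one]
        rw [add_comm]
        congr 1
        refine Finset.sum_congr rfl fun b _ => ?_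
        rw [g_succ]; ring
    rintro ⟨y, hy, rfl | rfl⟩
    · have := key 0 (Or.inl rfl) y hy
      rwa [zero_add] at this
    · exact key 1 (Or.inr rfl) y hy

lemma X_sub (n : ℕ) : X n ⊆ (fun y : ℤ => ((n : ℤ) + 1) * y) '' X (n + 1) ∪
    (fun y : ℤ => 1 + ((n : ℤ) + 1) * y) '' X (n + 1) := by
  intro x hx
  obtain ⟨y, hy, h | h⟩ := mem_X_succ.1 hx
  · exact Or.inl ⟨y, hy, h.symm⟩
  · exact Or.inr ⟨y, hy, h.symm⟩

lemma dvd_mul_aux {k v : ℕ} {m d : ℤ} (hv : (2 ^ v : ℤ) ∣ m) (x y : ℤ)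
    (h : (2 ^ k : ℤ) ∣ x - y) :
    (2 ^ (k + v) : ℤ) ∣ (d + m * x) - (d + m * y) := by
  have : (d + m * x) - (d + m * y) = m * (x - y) := by ring
  rw [this, pow_add, mul_comm ((2 : ℤ) ^ k)]
  exact mul_dvd_mul hv h

lemma step (n k v : ℕ) (hv : 2 ^ v ∣ n + 1) : c (k + v) (X n) ≤ 2 * c k (X (n + 1)) := by
  have hv' : (2 ^ v : ℤ) ∣ (n : ℤ) + 1 := by exact_mod_cast hv
  have h1 := (c_mono (k := k + v) (X_sub n)).trans (c_union (k + v) _ _)
  have h2 : c (k + v) ((fun y : ℤ => ((n : ℤ) + 1) * y) '' X (n + 1)) ≤ c k (X (n + 1)) :=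
    c_le _ (fun x y h => by
      have := dvd_mul_aux (d := 0) hv' x y h
      simpa using this)
  have h3 : c (k + v) ((fun y : ℤ => 1 + ((n : ℤ) + 1) * y) '' X (n + 1)) ≤ c k (X (n + 1)) :=
    c_le _ (fun x y h => dvd_mul_aux (d := 1) hv' x y h)
  omega

lemma chain (M : ℕ) : ∀ j k, c (k + ∑ i ∈ range j, padicValNat 2 (M + i + 1)) (X M)
    ≤ 2 ^ j * c k (X (M + j)) := by
  intro j
  induction j with
  | zero => intro k; simp
  | succ j ih =>
    intro k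
    rw [Finset.sum_range_succ]
    have h1 := ih (k + padicValNat 2 (M + j + 1))
    have h2 := step (M + j) k (padicValNat 2 (M + j + 1)) pow_padicValNat_dvd
    have e1 : k + (∑ i ∈ range j, padicValNat 2 (M + i + 1) + padicValNat 2 (M + j + 1))
        = k + padicValNat 2 (M + j + 1) + ∑ i ∈ range j, padicValNat 2 (M + i + 1) := by ring
    rw [e1]
    refine h1.trans ?_
    rw [pow_succ, mul_assoc]
    exact Nat.mul_le_mul_left _ h2

lemma sum_val (M : ℕ) : ∀ j, ∑ i ∈ range j, padicValNat 2 (M + i + 1) + padicValNat 2 M !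
    = padicValNat 2 (M + j)! := by
  intro j
  induction j with
  | zero => simp
  | succ j ih =>
    rw [Finset.sum_range_succ, ← add_assoc M j 1, Nat.factorial_succ,
      padicValNat.mul (by omega) (Nat.factorial_ne_zero _), ← ih]
    ring

lemma val_two_pow (t : ℕ) : padicValNat 2 (2 ^ t)! + 1 = 2 ^ t := by
  induction t with
  | zero => simp
  | succ t ih =>
    rw [pow_succ, mul_comm, padicValNat_factorial_mul]
    omega

/-! ### The half lemma -/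

lemma half {α β : Type*} [DecidableEq α] [DecidableEq β] {P S : Finset α} {U : Finset β}
    {F : α → β} (hS : S ⊆ P) (h2 : P.card ≤ 2 * S.card) (hF : ∀ s ∈ S, F s ∈ U) :
    2 * (U ∪ P.image F).card ≤ 2 * U.card + P.card := by
  have h1 : U ∪ P.image F ⊆ U ∪ (P \ S).image F := by
    intro x hx
    rcases mem_union.1 hx with h | h
    · exact mem_union_left _ h
    · obtain ⟨y, hy, rfl⟩ := mem_image.1 h
      by_cases hyS : y ∈ S
      · exact mem_union_left _ (hF y hyS)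
      · exact mem_union_right _ (mem_image_of_mem _ (mem_sdiff.2 ⟨hy, hyS⟩))
  have h3 := (card_le_card h1).trans (card_union_le _ _)
  have h4 : ((P \ S).image F).card ≤ P.card - S.card := by
    refine card_image_le.trans ?_
    rw [card_sdiff_of_subset hS]
  have h5 := card_le_card hS
  omega

/-- the part of `X n` with no term `g n 0`. -/
def Y (n : ℕ) : Set ℤ := (fun y : ℤ => ((n : ℤ) + 1) * y) '' X (n + 1)

lemma Y_sub (n : ℕ) : Y n ⊆ X n := by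
  rintro x ⟨y, hy, rfl⟩
  exact mem_X_succ.2 ⟨y, hy, Or.inl rfl⟩

lemma Y_add_one (n : ℕ) {y : ℤ} (hy : y ∈ Y n) : 1 + y ∈ X n := by
  obtain ⟨z, hz, rfl⟩ := hy
  exact mem_X_succ.2 ⟨z, hz, Or.inr rfl⟩

lemma X_cases {n : ℕ} {x : ℤ} (hx : x ∈ X n) : x ∈ Y n ∨ ∃ y ∈ Y n, x = 1 + y := by
  obtain ⟨y, hy, h | h⟩ := mem_X_succ.1 hx
  · exact Or.inl ⟨y, hy, h.symm⟩
  · exact Or.inr ⟨_, ⟨y, hy, rfl⟩, h⟩

lemma card_Y (k n : ℕ) : c k (X n) ≤ 2 * c k (Y n) := by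
  have h1 : X n ⊆ Y n ∪ (fun y : ℤ => 1 + y) '' Y n := by
    intro x hx
    rcases X_cases hx with h | ⟨y, hy, rfl⟩
    · exact Or.inl h
    · exact Or.inr ⟨y, hy, rfl⟩
  have h2 := (c_mono (k := k) h1).trans (c_union k _ _)
  have h3 : c k ((fun y : ℤ => 1 + y) '' Y n) ≤ c k (Y n) := c_le _ fun x y h => by
    simpa using h
  omega

lemma g_mod (N b : ℕ) : (N : ℤ) ∣ g N b - g 0 b := by
  unfold g
  induction b with
  | zero => simp
  | succ b ih =>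
    rw [prod_range_succ, prod_range_succ]
    obtain ⟨q, hq⟩ := ih
    refine ⟨q * ((N : ℤ) + b + 1) + ∏ i ∈ range b, (((0 : ℕ) : ℤ) + i + 1), ?_⟩
    have : ∏ i ∈ range b, ((N : ℤ) + i + 1)
        = (N : ℤ) * q + ∏ i ∈ range b, (((0 : ℕ) : ℤ) + i + 1) := by linarith
    rw [this]
    push_cast
    ring

lemma X_mod {N : ℕ} {y : ℤ} (hy : y ∈ X N) : ∃ x ∈ X 0, (N : ℤ) ∣ y - x := by
  obtain ⟨m, e, he, rfl⟩ := hy
  refine ⟨_, ⟨m, e, he, rfl⟩, ?_⟩
  rw [← sum_sub_distrib]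
  refine dvd_sum fun b _ => ?_
  rw [← mul_sub]
  exact dvd_mul_of_dvd_right (g_mod N b) _

/-! ### The main inequality -/

/-- the integers whose negative is congruent mod `2 ^ t` to a member of `X 0`. -/
def U (t : ℕ) : Set ℤ := {z | ∃ x ∈ X 0, (2 ^ t : ℤ) ∣ z + x}

lemma card_U (t : ℕ) : c t (U t) ≤ c t (X 0) := by
  have h1 : c t ((fun y : ℤ => -y) '' X 0) ≤ c t (X 0) := c_le _ fun x y h => by
    have h2 := (dvd_neg).2 h
    have e : -x - -y = -(x - y) := by ring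
    show (2 ^ t : ℤ) ∣ -x - -y
    rwa [e]
  refine le_trans (card_le_card ?_) h1
  intro z hz
  rw [mem_im] at hz ⊢
  obtain ⟨u, ⟨x, hx, hux⟩, rfl⟩ := hz
  refine ⟨_, ⟨x, hx, rfl⟩, ?_⟩
  rw [eq_iff_dvd]
  have h2 := (dvd_neg).2 hux
  have e : -x - u = -(u + x) := by ring
  show (2 ^ t : ℤ) ∣ -x - u
  rwa [e]

lemma mem_U {t : ℕ} (d : ℤ) (hd : (2 ^ t : ℤ) ∣ d) {y : ℤ} (hy : y ∈ X (2 ^ t)) :
    d + ((2 : ℤ) ^ t - 1) * y ∈ U t := by
  obtain ⟨x, hx, h⟩ := X_mod hy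
  refine ⟨x, hx, ?_⟩
  push_cast at h
  have e : d + ((2 : ℤ) ^ t - 1) * y + x = d + 2 ^ t * y - (y - x) := by ring
  rw [e]
  exact dvd_sub (dvd_add hd (dvd_mul_right _ _)) h

lemma card_W (t k : ℕ) (hk : t ≤ k) :
    2 * c k ((fun y : ℤ => ((2 : ℤ) ^ t - 1) * y) '' X (2 ^ t) ∪
      (fun y : ℤ => 1 + ((2 : ℤ) ^ t - 1) * y) '' X (2 ^ t)) ≤
      2 * (c t (X 0) * 2 ^ (k - t)) + c k (X (2 ^ t)) := by
  classical
  set F : ZMod (2 ^ k) → ZMod (2 ^ k) := fun z => 1 + ((2 : ZMod (2 ^ k)) ^ t - 1) * z with hF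
  have hU : (im k (U t)).card ≤ c t (X 0) * 2 ^ (k - t) :=
    (c_refine hk (U t)).trans (Nat.mul_le_mul_right _ (card_U t))
  set S : Finset (ZMod (2 ^ k)) := im k ((fun y : ℤ => 1 + y) '' Y (2 ^ t)) with hSdef
  have hS : S ⊆ im k (X (2 ^ t)) := im_mono (by
    rintro _ ⟨y, hy, rfl⟩
    exact Y_add_one _ hy)
  have hcS : c k (Y (2 ^ t)) ≤ S.card := by
    have h1 : c k ((fun y : ℤ => -1 + y) '' ((fun y : ℤ => 1 + y) '' Y (2 ^ t))) ≤
        c k ((fun y : ℤ => 1 + y) '' Y (2 ^ t)) := c_le _ fun x y h => by simpa using h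
    have e : (fun y : ℤ => -1 + y) '' ((fun y : ℤ => 1 + y) '' Y (2 ^ t)) = Y (2 ^ t) := by
      ext x
      constructor
      · rintro ⟨_, ⟨y, hy, rfl⟩, rfl⟩
        have e2 : (-1 : ℤ) + (1 + y) = y := by ring
        show (-1 : ℤ) + (1 + y) ∈ Y (2 ^ t)
        rw [e2]
        exact hy
      · intro hx
        exact ⟨_, ⟨x, hx, rfl⟩, by show (-1 : ℤ) + (1 + x) = x; ring⟩
    rw [e] at h1
    exact h1
  have h2 : (im k (X (2 ^ t))).card ≤ 2 * S.card := (card_Y k _).trans (by omega)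
  have h3 : ∀ s ∈ S, F s ∈ im k (U t) := by
    intro s hs
    obtain ⟨_, ⟨y, hy, rfl⟩, rfl⟩ := mem_im.1 hs
    rw [mem_im]
    refine ⟨2 ^ t + ((2 : ℤ) ^ t - 1) * y, mem_U _ dvd_rfl (Y_sub _ hy), ?_⟩
    rw [hF]
    push_cast
    ring
  have h4 := half hS h2 h3
  have h5 : im k ((fun y : ℤ => ((2 : ℤ) ^ t - 1) * y) '' X (2 ^ t) ∪
      (fun y : ℤ => 1 + ((2 : ℤ) ^ t - 1) * y) '' X (2 ^ t)) ⊆
      im k (U t) ∪ (im k (X (2 ^ t))).image F := by
    intro z hz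
    obtain ⟨w, hw, rfl⟩ := mem_im.1 hz
    rcases hw with ⟨y, hy, rfl⟩ | ⟨y, hy, rfl⟩
    · apply mem_union_left
      rw [mem_im]
      refine ⟨_, mem_U 0 (dvd_zero _) hy, ?_⟩
      push_cast
      ring
    · apply mem_union_right
      rw [mem_image]
      refine ⟨(y : ZMod (2 ^ k)), mem_im.2 ⟨y, hy, rfl⟩, ?_⟩
      rw [hF]
      push_cast
      ring
  have h6 := card_le_card h5
  unfold c at hU ⊢
  omega

lemma key (t k : ℕ) (ht : 1 ≤ t) (hk : t ≤ k) :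
    2 * c (k + t) (X (2 ^ t - 2)) ≤
      5 * c k (X (2 ^ t)) + 2 * (c t (X 0) * 2 ^ (k - t)) := by
  have hN : 2 ≤ 2 ^ t := by
    calc 2 = 2 ^ 1 := rfl
      _ ≤ 2 ^ t := Nat.pow_le_pow_right (by norm_num) ht
  have e1 : 2 ^ t - 2 + 1 = 2 ^ t - 1 := by omega
  have e2 : 2 ^ t - 1 + 1 = 2 ^ t := by omega
  have c1 : (((2 ^ t - 2 : ℕ) : ℤ) + 1) = (2 : ℤ) ^ t - 1 := by
    push_cast [Nat.cast_sub hN]; ring
  have c2 : (((2 ^ t - 1 : ℕ) : ℤ) + 1) = (2 : ℤ) ^ t := by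
    push_cast [Nat.cast_sub (show 1 ≤ 2 ^ t by omega)]; ring
  set A := X (2 ^ t) with hA
  set W : Set ℤ := (fun y : ℤ => ((2 : ℤ) ^ t - 1) * y) '' A ∪
      (fun y : ℤ => 1 + ((2 : ℤ) ^ t - 1) * y) '' A with hW
  have hsub : X (2 ^ t - 2) ⊆ ((fun y : ℤ => 1 + ((2 : ℤ) ^ t - 1) * 2 ^ t * y) '' A ∪
      (fun y : ℤ => ((2 : ℤ) ^ t - 1) + ((2 : ℤ) ^ t - 1) * 2 ^ t * y) '' A) ∪
      (fun y : ℤ => 0 + (2 : ℤ) ^ t * y) '' W := by
    intro x hx
    obtain ⟨y, hy, hx'⟩ := mem_X_succ.1 hx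
    rw [e1] at hy
    obtain ⟨z, hz, hy'⟩ := mem_X_succ.1 hy
    rw [e2] at hz
    rw [c1] at hx'
    rw [c2] at hy'
    rcases hx' with rfl | rfl <;> rcases hy' with rfl | rfl
    · refine Or.inr ⟨_, Or.inl ⟨z, hz, rfl⟩, ?_⟩
      simp only []; ring
    · refine Or.inl (Or.inr ⟨z, hz, ?_⟩)
      simp only []; ring
    · refine Or.inl (Or.inl ⟨z, hz, ?_⟩)
      simp only []; ring
    · refine Or.inr ⟨_, Or.inr ⟨z, hz, rfl⟩, ?_⟩
      simp only []; ring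
  have h1 := (c_mono (k := k + t) hsub).trans (c_union (k + t) _ _)
  have h2 := c_union (k + t) ((fun y : ℤ => 1 + ((2 : ℤ) ^ t - 1) * 2 ^ t * y) '' A)
      ((fun y : ℤ => ((2 : ℤ) ^ t - 1) + ((2 : ℤ) ^ t - 1) * 2 ^ t * y) '' A)
  have h3 : c (k + t) ((fun y : ℤ => 1 + ((2 : ℤ) ^ t - 1) * 2 ^ t * y) '' A) ≤ c k A :=
    c_le _ fun x y h => dvd_mul_aux (v := t) (dvd_mul_left _ _) x y h
  have h4 : c (k + t) ((fun y : ℤ => ((2 : ℤ) ^ t - 1) + ((2 : ℤ) ^ t - 1) * 2 ^ t * y) '' A)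
      ≤ c k A :=
    c_le _ fun x y h => dvd_mul_aux (v := t) (dvd_mul_left _ _) x y h
  have h5 : c (k + t) ((fun y : ℤ => 0 + (2 : ℤ) ^ t * y) '' W) ≤ c k W :=
    c_le _ fun x y h => dvd_mul_aux (v := t) dvd_rfl x y h
  have h6 : 2 * c k W ≤ 2 * (c t (X 0) * 2 ^ (k - t)) + c k A := card_W t k hk
  omega

lemma base (k : ℕ) : 2 * c (k + 1) (X 0) ≤ 5 * c k (X 2) := by
  classical
  -- `X 0 = (1 + 2 X 2) ∪ 2 (X 2 ∪ (1 + X 2))`
  set W : Set ℤ := X 2 ∪ (fun y : ℤ => 1 + y) '' X 2 with hW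
  have hsub : X 0 ⊆ (fun y : ℤ => 1 + (2 : ℤ) * y) '' X 2 ∪
      (fun y : ℤ => 0 + (2 : ℤ) * y) '' W := by
    intro x hx
    obtain ⟨y, hy, hx'⟩ := mem_X_succ.1 hx
    obtain ⟨z, hz, hy'⟩ := mem_X_succ.1 hy
    norm_num at hz hx' hy'
    rcases hx' with rfl | rfl <;> rcases hy' with rfl | rfl
    · exact Or.inr ⟨z, Or.inl hz, by simp⟩
    · exact Or.inl ⟨z, hz, rfl⟩
    · exact Or.inl ⟨z, hz, rfl⟩
    · refine Or.inr ⟨_, Or.inr ⟨z, hz, rfl⟩, ?_⟩
      simp only []; ring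
  have h1 := (c_mono (k := k + 1) hsub).trans (c_union (k + 1) _ _)
  have h3 : c (k + 1) ((fun y : ℤ => 1 + (2 : ℤ) * y) '' X 2) ≤ c k (X 2) :=
    c_le _ fun x y h => dvd_mul_aux (v := 1) (by norm_num) x y h
  have h5 : c (k + 1) ((fun y : ℤ => 0 + (2 : ℤ) * y) '' W) ≤ c k W :=
    c_le _ fun x y h => dvd_mul_aux (v := 1) (by norm_num) x y h
  have h6 : 2 * c k W ≤ 2 * c k (X 2) + c k (X 2) := by
    have a1 : im k (Y 2) ⊆ im k (X 2) := im_mono (Y_sub 2)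
    have a2 : ∀ s ∈ im k (Y 2), (1 : ZMod (2 ^ k)) + s ∈ im k (X 2) := by
      intro s hs
      obtain ⟨y, hy, rfl⟩ := mem_im.1 hs
      rw [mem_im]
      exact ⟨1 + y, Y_add_one _ hy, by push_cast; rfl⟩
    have a3 := half (F := fun s => (1 : ZMod (2 ^ k)) + s) a1 (card_Y k 2) a2
    have a4 : im k W ⊆ im k (X 2) ∪ (im k (X 2)).image (fun s => (1 : ZMod (2 ^ k)) + s) := by
      intro z hz
      obtain ⟨w, hw, rfl⟩ := mem_im.1 hz
      rcases hw with hw | ⟨y, hy, rfl⟩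
      · exact mem_union_left _ (mem_im.2 ⟨w, hw, rfl⟩)
      · apply mem_union_right
        rw [mem_image]
        exact ⟨(y : ZMod (2 ^ k)), mem_im.2 ⟨y, hy, rfl⟩, by push_cast; rfl⟩
    have a5 := card_le_card a4
    unfold c
    omega
  omega

/-! ### Densities -/

/-- proportion of residue classes modulo `2 ^ k` that meet `X n`. -/
noncomputable def m (n k : ℕ) : ℝ := (c k (X n) : ℝ) / 2 ^ k

lemma m_nonneg (n k : ℕ) : 0 ≤ m n k := by unfold m; positivity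

lemma m_le_one (n k : ℕ) : m n k ≤ 1 := by
  unfold m c
  rw [div_le_one (by positivity)]
  have h := card_le_univ (im k (X n))
  rw [ZMod.card] at h
  exact_mod_cast h

lemma m_anti (n : ℕ) {t k : ℕ} (h : t ≤ k) : m n k ≤ m n t := by
  unfold m
  have h1 : (c k (X n) : ℝ) ≤ c t (X n) * 2 ^ (k - t) := by exact_mod_cast c_refine h (X n)
  rw [div_le_div_iff₀ (by positivity) (by positivity)]
  have h2 : (2 : ℝ) ^ k = 2 ^ (k - t) * 2 ^ t := by rw [← pow_add]; congr 1; omega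
  rw [h2, ← mul_assoc]
  exact mul_le_mul_of_nonneg_right h1 (by positivity)

/-- the limit density. -/
noncomputable def μ (n : ℕ) : ℝ := ⨅ k, m n k

lemma bdd (n : ℕ) : BddBelow (Set.range (m n)) := ⟨0, by rintro _ ⟨k, rfl⟩; exact m_nonneg n k⟩

lemma μ_le (n k : ℕ) : μ n ≤ m n k := ciInf_le (bdd n) k

lemma μ_nonneg (n : ℕ) : 0 ≤ μ n := le_ciInf fun k => m_nonneg n k

lemma μ_tendsto (n : ℕ) : Tendsto (m n) atTop (𝓝 (μ n)) :=
  tendsto_atTop_ciInf (fun _ _ h => m_anti n h) (bdd n)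

lemma sum_val_double (M : ℕ) : ∑ i ∈ range M, padicValNat 2 (M + i + 1) = M := by
  have h1 := sum_val M M
  rw [← two_mul, padicValNat_factorial_mul] at h1
  omega

lemma μ_double (M : ℕ) : μ M ≤ μ (2 * M) := by
  refine le_ciInf fun k => ?_
  refine (μ_le M (k + M)).trans ?_
  have h := chain M M k
  rw [sum_val_double, ← two_mul] at h
  have h' : (c (k + M) (X M) : ℝ) ≤ 2 ^ M * c k (X (2 * M)) := by exact_mod_cast h
  unfold m
  rw [div_le_div_iff₀ (by positivity) (by positivity), pow_add]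
  nlinarith [pow_pos (show (0 : ℝ) < 2 by norm_num) k]

lemma μ_zero : μ 0 ≤ 5 / 4 * μ 2 := by
  have h1 : ∀ k, μ 0 ≤ 5 / 4 * m 2 k := by
    intro k
    refine (μ_le 0 (k + 1)).trans ?_
    have h : (2 : ℝ) * c (k + 1) (X 0) ≤ 5 * c k (X 2) := by exact_mod_cast base k
    unfold m
    rw [div_le_iff₀ (by positivity), pow_succ]
    have hk : (0 : ℝ) < 2 ^ k := by positivity
    have e : 5 / 4 * ((c k (X 2) : ℝ) / 2 ^ k) * (2 ^ k * 2) = 5 / 2 * c k (X 2) := by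
      field_simp; ring
    rw [e]
    linarith
  exact ge_of_tendsto ((μ_tendsto 2).const_mul _) (Eventually.of_forall h1)

lemma μ_main (t : ℕ) (ht : 2 ≤ t) : μ (2 ^ (t - 1)) ≤ 5 / 8 * μ (2 ^ t) + 1 / 4 * m 0 t := by
  have h1 : ∀ k, t ≤ k → μ (2 ^ (t - 1)) ≤ 5 / 8 * m (2 ^ t) k + 1 / 4 * m 0 t := by
    intro k hk
    set M := 2 ^ (t - 1) with hM
    have hM2 : 2 * M = 2 ^ t := by
      rw [hM, ← pow_succ']; congr 1; omega
    have hMge : 2 ≤ M := by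
      calc 2 = 2 ^ 1 := rfl
        _ ≤ 2 ^ (t - 1) := Nat.pow_le_pow_right (by norm_num) (by omega)
    have htM : t ≤ M := by
      have := Nat.lt_two_pow_self (n := t - 1)
      omega
    -- the valuations
    have hval : ∑ i ∈ range (M - 2), padicValNat 2 (M + i + 1) + t = M := by
      have h1 := sum_val_double M
      have h2 : ∑ i ∈ range M, padicValNat 2 (M + i + 1)
          = ∑ i ∈ range (M - 2), padicValNat 2 (M + i + 1)
            + padicValNat 2 (2 ^ t - 1) + padicValNat 2 (2 ^ t) := by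
        obtain ⟨q, hq⟩ : ∃ q, M = q + 2 := ⟨M - 2, by omega⟩
        rw [show M - 2 = q by omega]
        conv_lhs => rw [hq, sum_range_succ, sum_range_succ, ← hq]
        congr 2
        · congr 1; omega
        · omega
      have h3 : padicValNat 2 (2 ^ t - 1) = 0 := by
        apply padicValNat.eq_zero_of_not_dvd
        intro h
        have : 2 ∣ 2 ^ t := dvd_pow_self 2 (by omega)
        omega
      have h4 : padicValNat 2 (2 ^ t) = t := padicValNat.prime_pow t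
      omega
    have h2 := chain M (M - 2) (k + t)
    have e1 : k + t + ∑ i ∈ range (M - 2), padicValNat 2 (M + i + 1) = k + M := by omega
    have e2 : M + (M - 2) = 2 ^ t - 2 := by omega
    rw [e1, e2] at h2
    have h3 := key t k (by omega) hk
    have h4 : 8 * c (k + M) (X M) ≤
        2 ^ M * (5 * c k (X (2 ^ t)) + 2 * (c t (X 0) * 2 ^ (k - t))) := by
      have e3 : 2 ^ M = 4 * 2 ^ (M - 2) := by
        rw [show (4 : ℕ) = 2 ^ 2 by norm_num, ← pow_add]; congr 1; omega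
      calc 8 * c (k + M) (X M) ≤ 8 * (2 ^ (M - 2) * c (k + t) (X (2 ^ t - 2))) :=
            Nat.mul_le_mul_left _ h2
        _ = 4 * 2 ^ (M - 2) * (2 * c (k + t) (X (2 ^ t - 2))) := by ring
        _ ≤ 4 * 2 ^ (M - 2) * (5 * c k (X (2 ^ t)) + 2 * (c t (X 0) * 2 ^ (k - t))) :=
            Nat.mul_le_mul_left _ h3
        _ = _ := by rw [e3]
    have h5 : (8 : ℝ) * c (k + M) (X M) ≤
        2 ^ M * (5 * c k (X (2 ^ t)) + 2 * (c t (X 0) * 2 ^ (k - t))) := by exact_mod_cast h4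
    refine (μ_le M (k + M)).trans ?_
    unfold m
    rw [div_le_iff₀ (by positivity), pow_add]
    have e4 : (2 : ℝ) ^ k = 2 ^ (k - t) * 2 ^ t := by rw [← pow_add]; congr 1; omega
    have e5 : (5 / 8 * ((c k (X (2 ^ t)) : ℝ) / 2 ^ k) + 1 / 4 * ((c t (X 0) : ℝ) / 2 ^ t))
        * (2 ^ k * 2 ^ M)
        = 2 ^ M * (5 * c k (X (2 ^ t)) + 2 * (c t (X 0) * 2 ^ (k - t))) / 8 := by
      have hk0 : (2 : ℝ) ^ k ≠ 0 := by positivity
      have ht0 : (2 : ℝ) ^ t ≠ 0 := by positivity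
      have e6 : ((c k (X (2 ^ t)) : ℝ) / 2 ^ k) * 2 ^ k = c k (X (2 ^ t)) := by
        field_simp
      have e7 : ((c t (X 0) : ℝ) / 2 ^ t) * 2 ^ k = c t (X 0) * 2 ^ (k - t) := by
        rw [e4]; field_simp
      calc _ = 5 / 8 * (((c k (X (2 ^ t)) : ℝ) / 2 ^ k) * 2 ^ k) * 2 ^ M
            + 1 / 4 * (((c t (X 0) : ℝ) / 2 ^ t) * 2 ^ k) * 2 ^ M := by ring
        _ = _ := by rw [e6, e7]; ring
    rw [e5]
    linarith
  have h2 : Tendsto (fun k => 5 / 8 * m (2 ^ t) k + 1 / 4 * m 0 t) atTop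
      (𝓝 (5 / 8 * μ (2 ^ t) + 1 / 4 * m 0 t)) :=
    ((μ_tendsto (2 ^ t)).const_mul _).add_const _
  exact ge_of_tendsto h2 (eventually_atTop.2 ⟨t, h1⟩)

theorem μ_zero_eq : μ 0 = 0 := by
  have hmono : Monotone fun t : ℕ => μ (2 ^ t) := by
    refine monotone_nat_of_le_succ fun t => ?_
    rw [pow_succ']
    exact μ_double _
  have hbdd : BddAbove (Set.range fun t : ℕ => μ (2 ^ t)) :=
    ⟨1, by rintro _ ⟨t, rfl⟩; exact (μ_le _ 0).trans (m_le_one _ _)⟩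
  set L := ⨆ t : ℕ, μ (2 ^ t) with hL
  have hlim : Tendsto (fun t : ℕ => μ (2 ^ t)) atTop (𝓝 L) := tendsto_atTop_ciSup hmono hbdd
  have h1 : ∀ t : ℕ, 1 ≤ t → μ (2 ^ t) ≤ 5 / 8 * L + 1 / 4 * m 0 (t + 1) := by
    intro t ht
    have h2 := μ_main (t + 1) (by omega)
    rw [Nat.add_sub_cancel] at h2
    have h3 : μ (2 ^ (t + 1)) ≤ L := le_ciSup hbdd (t + 1)
    linarith
  have h2 : L ≤ 5 / 8 * L + 1 / 4 * μ 0 := by
    have h3 : Tendsto (fun t : ℕ => 5 / 8 * L + 1 / 4 * m 0 (t + 1)) atTop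
        (𝓝 (5 / 8 * L + 1 / 4 * μ 0)) :=
      (((μ_tendsto 0).comp (tendsto_add_atTop_nat 1)).const_mul _).const_add _
    exact le_of_tendsto_of_tendsto hlim h3 (eventually_atTop.2 ⟨1, h1⟩)
  have h4 : μ 2 ≤ L := by
    have := le_ciSup hbdd 1
    simpa using this
  have h5 := μ_zero
  have h6 := μ_nonneg 0
  have h7 := μ_nonneg 2
  linarith

lemma g_zero_left (b : ℕ) : g 0 b = (b ! : ℤ) := by
  unfold g
  rw [← prod_range_add_one_eq_factorial]
  push_cast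
  refine prod_congr rfl fun i _ => by ring

lemma mem_X_zero {x : ℤ} : x ∈ X 0 ↔ ∃ T : Finset ℕ, x = ∑ n ∈ T, (n ! : ℤ) := by
  classical
  constructor
  · rintro ⟨M, e, he, rfl⟩
    refine ⟨(range M).filter fun b => e b = 1, ?_⟩
    rw [sum_filter]
    refine sum_congr rfl fun b _ => ?_
    rw [g_zero_left]
    rcases he b with h | h <;> simp [h]
  · rintro ⟨T, rfl⟩
    obtain ⟨M, hM⟩ : ∃ M, T ⊆ range M := ⟨T.sup id + 1, fun x hx => by
      rw [mem_range]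
      exact Nat.lt_succ_of_le (Finset.le_sup (f := id) hx)⟩
    refine ⟨M, fun b => if b ∈ T then 1 else 0, fun b => by by_cases h : b ∈ T <;> simp [h], ?_⟩
    have : ∑ b ∈ range M, (if b ∈ T then (1 : ℤ) else 0) * g 0 b
        = ∑ b ∈ range M, if b ∈ T then (b ! : ℤ) else 0 := by
      refine sum_congr rfl fun b _ => ?_
      rw [g_zero_left]
      split_ifs <;> simp
    rw [this, ← sum_filter]
    refine sum_congr ?_ fun _ _ => rfl
    ext b
    simp only [mem_filter]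
    exact ⟨fun h => ⟨hM h, h⟩, fun h => h.2⟩

/-- The proportion of the residue classes modulo `2 ^ k` which contain a sum of distinct
factorials tends to `0`. -/
theorem density_zero : Tendsto (fun k : ℕ =>
    (({r : ZMod (2 ^ k) | ∃ T : Finset ℕ, r = ((∑ n ∈ T, n ! : ℕ) : ZMod (2 ^ k))}.ncard : ℝ))
      / 2 ^ k) atTop (𝓝 0) := by
  have h := μ_tendsto 0
  rw [μ_zero_eq] at h
  refine h.congr fun k => ?_
  unfold m c
  congr 2
  rw [← Set.ncard_coe_finset]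
  congr 1
  ext r
  rw [Finset.mem_coe, mem_im, Set.mem_ofPred_eq]
  constructor
  · rintro ⟨x, hx, rfl⟩
    obtain ⟨T, rfl⟩ := mem_X_zero.1 hx
    exact ⟨T, by push_cast; rfl⟩
  · rintro ⟨T, rfl⟩
    exact ⟨_, mem_X_zero.2 ⟨T, rfl⟩, by push_cast; rfl⟩

end Pool.Agent.PS38.Null
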