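import Pool.Agent.PS38.Null

set_option autoImplicit false

/-!
For `p = 2` almost no multiple of `4` is the first term of a sequence whose partial sums of
factorials have 2-adic valuation tending to infinity.
-/

namespace Pool.Agent.PS38.Null

open Finset Filter
open scoped Nat Topology

/-! ### The null sumset theorem, uniformly in the starting point -/

lemma chain' {a a0 τ : ℕ} (h : (2 ^ τ : ℤ) ∣ (a : ℤ) - a0) : ∀ j, a0 + j ≤ 2 ^ τ → ∀ k,
    c (k + ∑ i ∈ range j, padicValNat 2 (a0 + i + 1)) (X a) ≤ 2 ^ j * c k (X (a + j)) := by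
  intro j
  induction j with
  | zero => intro _ k; simp
  | succ j ih =>
    intro hj k
    rw [Finset.sum_range_succ]
    have h1 := ih (by omega) (k + padicValNat 2 (a0 + j + 1))
    have hv : 2 ^ padicValNat 2 (a0 + j + 1) ∣ a + j + 1 := by
      have h3 : 2 ^ padicValNat 2 (a0 + j + 1) ∣ a0 + j + 1 := pow_padicValNat_dvd
      have h4 : padicValNat 2 (a0 + j + 1) ≤ τ := by
        have h5 : 2 ^ padicValNat 2 (a0 + j + 1) ≤ 2 ^ τ :=
          (Nat.le_of_dvd (by omega) h3).trans (by omega)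
        exact (Nat.pow_le_pow_iff_right (by norm_num)).1 h5
      have h6 : ((2 : ℤ) ^ padicValNat 2 (a0 + j + 1)) ∣ (a : ℤ) - a0 :=
        (pow_dvd_pow 2 h4).trans h
      have h7 : ((2 : ℤ) ^ padicValNat 2 (a0 + j + 1)) ∣ ((a0 + j + 1 : ℕ) : ℤ) := by
        exact_mod_cast h3
      have h8 := dvd_add h6 h7
      have e : (a : ℤ) - a0 + ((a0 + j + 1 : ℕ) : ℤ) = ((a + j + 1 : ℕ) : ℤ) := by
        push_cast; ring
      rw [e] at h8
      exact_mod_cast h8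
    have h2 := step (a + j) k (padicValNat 2 (a0 + j + 1)) hv
    have e1 : k + (∑ i ∈ range j, padicValNat 2 (a0 + i + 1) + padicValNat 2 (a0 + j + 1))
        = k + padicValNat 2 (a0 + j + 1) + ∑ i ∈ range j, padicValNat 2 (a0 + i + 1) := by ring
    rw [e1]
    refine h1.trans ?_
    rw [pow_succ, mul_assoc]
    exact Nat.mul_le_mul_left _ h2

lemma val_fact_le (n : ℕ) : padicValNat 2 n ! ≤ n := by
  have := sub_one_mul_padicValNat_factorial (p := 2) n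
  omega

lemma g_sub (a a' b : ℕ) : ((a : ℤ) - a') ∣ g a b - g a' b := by
  unfold g
  induction b with
  | zero => simp
  | succ b ih =>
    rw [prod_range_succ, prod_range_succ]
    obtain ⟨q, hq⟩ := ih
    refine ⟨q * ((a : ℤ) + b + 1) + ∏ i ∈ range b, ((a' : ℤ) + i + 1), ?_⟩
    have : ∏ i ∈ range b, ((a : ℤ) + i + 1)
        = ((a : ℤ) - a') * q + ∏ i ∈ range b, ((a' : ℤ) + i + 1) := by linarith
    rw [this]
    ring

lemma im_congr {t a a' : ℕ} (h : (2 ^ t : ℤ) ∣ (a : ℤ) - a') : im t (X a) ⊆ im t (X a') := by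
  intro z hz
  obtain ⟨x, ⟨m, e, he, rfl⟩, rfl⟩ := mem_im.1 hz
  rw [mem_im]
  refine ⟨_, ⟨m, e, he, rfl⟩, ?_⟩
  symm
  rw [eq_iff_dvd, ← sum_sub_distrib]
  refine dvd_sum fun b _ => ?_
  rw [← mul_sub]
  exact dvd_mul_of_dvd_right (h.trans (g_sub a a' b)) _

lemma m_unif (a τ : ℕ) : m a (τ + 2 ^ τ) ≤ 2 * m 0 τ := by
  set a0 := a % 2 ^ τ with ha0
  have hlt : a0 < 2 ^ τ := Nat.mod_lt _ (by positivity)
  obtain ⟨j, hj⟩ : ∃ j, a0 + j = 2 ^ τ := ⟨2 ^ τ - a0, by omega⟩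
  have hdm : 2 ^ τ * (a / 2 ^ τ) + a0 = a := Nat.div_add_mod a (2 ^ τ)
  have hdiv : (2 ^ τ : ℤ) ∣ (a : ℤ) - a0 := by
    refine ⟨((a / 2 ^ τ : ℕ) : ℤ), ?_⟩
    have : ((2 ^ τ * (a / 2 ^ τ) + a0 : ℕ) : ℤ) = a := by rw [hdm]
    rw [Nat.cast_add, Nat.cast_mul, Nat.cast_pow, Nat.cast_ofNat] at this
    linarith
  set σ := ∑ i ∈ range j, padicValNat 2 (a0 + i + 1) with hσ
  have h1 : σ + padicValNat 2 a0 ! = padicValNat 2 (2 ^ τ)! := by
    have := sum_val a0 j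
    rwa [hj] at this
  have h2 := val_two_pow τ
  have h3 := val_fact_le a0
  have h4 := chain' hdiv j (by omega) τ
  rw [← hσ] at h4
  have h5 : c τ (X (a + j)) ≤ c τ (X 0) := by
    refine card_le_card (im_congr ?_)
    have e : ((a + j : ℕ) : ℤ) - ((0 : ℕ) : ℤ) = ((a : ℤ) - a0) + ((a0 + j : ℕ) : ℤ) := by
      push_cast; ring
    rw [e, hj]
    exact dvd_add hdiv (by push_cast; exact dvd_rfl)
  have h6 : c (τ + σ) (X a) ≤ 2 * 2 ^ σ * c τ (X 0) := by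
    refine h4.trans (Nat.mul_le_mul ?_ h5)
    rw [← pow_succ']
    exact Nat.pow_le_pow_right (by norm_num) (by omega)
  refine (m_anti a (show τ + σ ≤ τ + 2 ^ τ by omega)).trans ?_
  have h7 : (c (τ + σ) (X a) : ℝ) ≤ 2 * 2 ^ σ * c τ (X 0) := by exact_mod_cast h6
  unfold m
  rw [div_le_iff₀ (by positivity), pow_add]
  have e : 2 * ((c τ (X 0) : ℝ) / 2 ^ τ) * (2 ^ τ * 2 ^ σ) = 2 * 2 ^ σ * c τ (X 0) := by
    field_simp
  rw [e]
  exact h7

/-! ### Data attached to a first term -/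

lemma g_add (a i j : ℕ) : g a (i + j) = g a i * g (a + i) j := by
  unfold g
  rw [prod_range_add]
  congr 1
  refine prod_congr rfl fun x _ => ?_
  push_cast; ring

lemma g_fact (a n : ℕ) : (a ! : ℤ) * g a n = ((a + n)! : ℤ) := by
  induction n with
  | zero => simp [g]
  | succ n ih =>
    rw [g_add, ← mul_assoc, ih, ← add_assoc, Nat.factorial_succ]
    simp [g]
    ring

lemma fact_dvd_g (a n : ℕ) : (n ! : ℤ) ∣ g a n := by
  have h1 : a ! * n ! ∣ (a + n)! := Nat.factorial_mul_factorial_dvd_factorial_add a n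
  have h2 : (a ! : ℤ) * (n ! : ℤ) ∣ (a ! : ℤ) * g a n := by
    rw [g_fact]
    exact_mod_cast h1
  exact Int.dvd_of_mul_dvd_mul_left (by exact_mod_cast Nat.factorial_ne_zero a) h2

/-- `a` passes the test modulo `2 ^ K`. -/
def Good (K a : ℕ) : Prop := ∃ T : Finset ℕ, 0 ∈ T ∧ (2 ^ K : ℤ) ∣ ∑ c ∈ T, g a c

/-- `a` is the first term of a sequence with `m_k → ∞`, for `p = 2`. -/
def Start (a : ℕ) : Prop := ∃ u : ℕ → ℕ, StrictMono u ∧ u 0 = a ∧
  Tendsto (fun k => padicValNat 2 (∑ i ∈ range (k + 1), (u i)!)) atTop atTop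

lemma good_of_start {a : ℕ} (h : Start a) (K : ℕ) : Good K a := by
  classical
  obtain ⟨u, hu, h0, ht⟩ := h
  obtain ⟨k, hk⟩ := (ht.eventually_ge_atTop (K + padicValNat 2 a !)).exists
  have hge : ∀ i, a ≤ u i := fun i => by rw [← h0]; exact hu.monotone (Nat.zero_le i)
  refine ⟨(range (k + 1)).image fun i => u i - a, ?_, ?_⟩
  · rw [mem_image]
    exact ⟨0, by simp, by omega⟩
  · rw [sum_image (fun i _ j _ hij => hu.injective (by
      have := hge i; have := hge j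
      omega))]
    set G : ℤ := ∑ i ∈ range (k + 1), g a (u i - a) with hG
    have h1 : (a ! : ℤ) * G = ((∑ i ∈ range (k + 1), (u i)! : ℕ) : ℤ) := by
      rw [hG, mul_sum]
      push_cast
      refine sum_congr rfl fun i _ => ?_
      rw [g_fact]
      congr 2
      have := hge i
      omega
    have hpos : 0 < (∑ i ∈ range (k + 1), (u i)! : ℕ) :=
      sum_pos (fun i _ => Nat.factorial_pos _) ⟨0, by simp⟩
    have hG0 : 0 < G := by
      have : (0 : ℤ) < (a ! : ℤ) * G := by rw [h1]; exact_mod_cast hpos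
      exact (mul_pos_iff_of_pos_left (by exact_mod_cast Nat.factorial_pos a)).1 this
    obtain ⟨G', hG'⟩ := Int.eq_ofNat_of_zero_le hG0.le
    rw [hG'] at h1 ⊢
    have h2 : a ! * G' = ∑ i ∈ range (k + 1), (u i)! := by exact_mod_cast h1
    have hG'0 : G' ≠ 0 := by
      rintro rfl
      rw [hG'] at hG0
      simp at hG0
    rw [← h2, padicValNat.mul (Nat.factorial_ne_zero _) hG'0] at hk
    have h3 : K ≤ padicValNat 2 G' := by omega
    have h4 : 2 ^ K ∣ G' := (pow_dvd_pow 2 h3).trans pow_padicValNat_dvd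
    exact_mod_cast h4

/-- the fourth tail. -/
def x4 (n a : ℕ) (b : Finset ℕ) (y : ℤ) : ℤ := ∑ j ∈ b, g (a + 4) j + g (a + 4) (n - 4) * y

/-- the test function. -/
def R (n a : ℕ) (b : Finset ℕ) (y : ℤ) : ℤ :=
  ((a : ℤ) + 2) ^ 2 + ((a : ℤ) + 1) * ((a : ℤ) + 3) * ((a : ℤ) + 4) * x4 n a b y

set_option maxRecDepth 100000 in
lemma L16 : ∀ (b x : ZMod 16) (e1 e2 e3 : Fin 2),
    1 + (e1.val : ZMod 16) * (4 * b + 1) + (e2.val : ZMod 16) * ((4 * b + 1) * (4 * b + 2))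
      + (e3.val : ZMod 16) * ((4 * b + 1) * (4 * b + 2) * (4 * b + 3))
      + (4 * b + 1) * (4 * b + 2) * (4 * b + 3) * (4 * b + 4) * x = 0 →
      e1 = 1 ∧ e2 = 0 ∧ e3 = 1 ∧ 8 * x = 8 := by
  decide

lemma exists_data {n K a : ℕ} (hn : 4 ≤ n) (hK : 4 ≤ K + 1) (h4 : 4 ∣ a) (hG : Good (K + 1) a) :
    ∃ b ⊆ range (n - 4), ∃ y ∈ X (a + n), (2 : ℤ) ∣ x4 n a b y - 1 ∧
      (2 ^ K : ℤ) ∣ R n a b y := by
  classical
  obtain ⟨T, h0, hT⟩ := hG
  obtain ⟨q, hq⟩ : ∃ q, T ⊆ range (4 + (n - 4) + q) := ⟨T.sup id + 1, fun x hx => by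
    rw [mem_range]
    have := Finset.le_sup (f := id) hx
    simp only [id] at this
    omega⟩
  set e : ℕ → ℤ := fun c => if c ∈ T then 1 else 0 with he
  have hsum : ∑ c ∈ T, g a c = ∑ c ∈ range (4 + (n - 4) + q), e c * g a c := by
    have h1 : ∑ c ∈ range (4 + (n - 4) + q), e c * g a c
        = ∑ c ∈ range (4 + (n - 4) + q), if c ∈ T then g a c else 0 := by
      refine sum_congr rfl fun c _ => ?_
      simp only [he]
      split_ifs <;> simp
    rw [h1, ← sum_filter]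
    refine sum_congr ?_ fun _ _ => rfl
    ext c
    simp only [mem_filter]
    exact ⟨fun h => ⟨hq h, h⟩, fun h => h.2⟩
  set b : Finset ℕ := (range (n - 4)).filter fun j => 4 + j ∈ T with hb
  set y : ℤ := ∑ i ∈ range q, e (4 + (n - 4) + i) * g (a + n) i with hy
  have hyX : y ∈ X (a + n) := ⟨q, fun i => e (4 + (n - 4) + i), fun i => by
    simp only [he]
    split_ifs <;> simp, rfl⟩
  have hmain : ∑ c ∈ T, g a c = ∑ c ∈ range 4, e c * g a c + g a 4 * x4 n a b y := by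
    rw [hsum, sum_range_add, sum_range_add, add_assoc]
    congr 1
    unfold x4
    rw [mul_add, mul_sum]
    congr 1
    · rw [hb, sum_filter]
      refine sum_congr rfl fun j _ => ?_
      rw [g_add]
      simp only [he]
      split_ifs <;> simp
    · rw [← mul_assoc, ← g_add, hy, mul_sum]
      refine sum_congr rfl fun j _ => ?_
      rw [g_add, show a + (4 + (n - 4)) = a + n by omega]
      ring
  obtain ⟨β, rfl⟩ := h4
  have g1 : g (4 * β) 1 = 4 * (β : ℤ) + 1 := by simp [g]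
  have g2 : g (4 * β) 2 = (4 * (β : ℤ) + 1) * (4 * β + 2) := by
    unfold g
    simp only [prod_range_succ, prod_range_zero]
    push_cast
    ring
  have g3 : g (4 * β) 3 = (4 * (β : ℤ) + 1) * (4 * β + 2) * (4 * β + 3) := by
    unfold g
    simp only [prod_range_succ, prod_range_zero]
    push_cast
    ring
  have g4 : g (4 * β) 4 = (4 * (β : ℤ) + 1) * (4 * β + 2) * (4 * β + 3) * (4 * β + 4) := by
    unfold g
    simp only [prod_range_succ, prod_range_zero]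
    push_cast
    ring
  set x := x4 n (4 * β) b y with hx
  have he0 : e 0 = 1 := by simp [he, h0]
  have hsum4 : ∑ c ∈ range 4, e c * g (4 * β) c = 1 + e 1 * (4 * β + 1)
      + e 2 * ((4 * β + 1) * (4 * β + 2)) + e 3 * ((4 * β + 1) * (4 * β + 2) * (4 * β + 3)) := by
    rw [sum_range_succ, sum_range_succ, sum_range_succ, sum_range_succ, sum_range_zero, g_zero,
      g1, g2, g3, he0]
    ring
  rw [hmain, hsum4, g4] at hT
  have hbit : ∀ c, ∃ f : Fin 2, e c = (f.val : ℤ) := by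
    intro c
    by_cases h : c ∈ T
    · exact ⟨1, by simp [he, h]⟩
    · exact ⟨0, by simp [he, h]⟩
  obtain ⟨f1, hf1⟩ := hbit 1
  obtain ⟨f2, hf2⟩ := hbit 2
  obtain ⟨f3, hf3⟩ := hbit 3
  rw [hf1, hf2, hf3] at hT
  have h16 : (16 : ℤ) ∣ 1 + (f1.val : ℤ) * (4 * β + 1)
      + (f2.val : ℤ) * ((4 * β + 1) * (4 * β + 2))
      + (f3.val : ℤ) * ((4 * β + 1) * (4 * β + 2) * (4 * β + 3))
      + (4 * (β : ℤ) + 1) * (4 * β + 2) * (4 * β + 3) * (4 * β + 4) * x := by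
    have : (2 ^ 4 : ℤ) ∣ 2 ^ (K + 1) := pow_dvd_pow 2 hK
    norm_num at this
    exact this.trans hT
  have hz := (ZMod.intCast_zmod_eq_zero_iff_dvd _ 16).2 (by exact_mod_cast h16)
  push_cast at hz
  obtain ⟨r1, r2, r3, r4⟩ := L16 (β : ZMod 16) (x : ZMod 16) f1 f2 f3 hz
  subst r1 r2 r3
  refine ⟨b, filter_subset _ _, y, hyX, ?_, ?_⟩
  · have h5 : ((8 * x - 8 : ℤ) : ZMod 16) = 0 := by push_cast; rw [r4]; ring
    have h6 := (ZMod.intCast_zmod_eq_zero_iff_dvd _ 16).1 h5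
    obtain ⟨w, hw⟩ := h6
    push_cast at hw
    exact ⟨w, by linarith⟩
  · unfold R
    rw [← hx]
    have h7 : (2 * (2 ^ K) : ℤ) ∣ 2 * ((2 * (β : ℤ) + 1) * ((((4 * β : ℕ) : ℤ) + 2) ^ 2
        + (((4 * β : ℕ) : ℤ) + 1) * (((4 * β : ℕ) : ℤ) + 3) * (((4 * β : ℕ) : ℤ) + 4) * x)) := by
      rw [← pow_succ']
      convert hT using 1
      push_cast
      simp
      ring
    have h8 := Int.dvd_of_mul_dvd_mul_left (by norm_num) h7
    refine IsCoprime.dvd_of_dvd_mul_left ?_ h8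
    apply IsCoprime.pow_left
    exact ⟨-(β : ℤ), 1, by ring⟩

/-- the coefficient of `y`. -/
def H (n a : ℕ) : ℤ := ((a : ℤ) + 1) * ((a : ℤ) + 3) * ((a : ℤ) + 4) * g (a + 4) (n - 4)

lemma R_inj {n a a' : ℕ} {b : Finset ℕ} {y y' : ℤ} {K : ℕ} (h4 : 4 ∣ a) (h4' : 4 ∣ a')
    (hodd : (2 : ℤ) ∣ x4 n a b y - 1) (h1 : (2 ^ K : ℤ) ∣ R n a b y)
    (h2 : (2 ^ K : ℤ) ∣ R n a' b y') (h3 : (2 ^ K : ℤ) ∣ H n a' * (y - y')) :
    (2 ^ K : ℤ) ∣ (a : ℤ) - a' := by
  -- replace `y'` by `y`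
  have h5 : (2 ^ K : ℤ) ∣ R n a' b y := by
    have e : R n a' b y = R n a' b y' + H n a' * (y - y') := by unfold R H x4; ring
    rw [e]
    exact dvd_add h2 h3
  obtain ⟨z, hz⟩ : ((a : ℤ) - a') ∣ x4 n a b y - x4 n a' b y := by
    have e : x4 n a b y - x4 n a' b y = (∑ j ∈ b, (g (a + 4) j - g (a' + 4) j))
        + (g (a + 4) (n - 4) - g (a' + 4) (n - 4)) * y := by
      unfold x4; rw [sum_sub_distrib]; ring
    rw [e]
    have hc : ((a : ℤ) - a') = ((a + 4 : ℕ) : ℤ) - ((a' + 4 : ℕ) : ℤ) := by push_cast; ring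
    rw [hc]
    exact dvd_add (dvd_sum fun j _ => g_sub _ _ _) (dvd_mul_of_dvd_left (g_sub _ _ _) _)
  obtain ⟨w, hw⟩ := hodd
  obtain ⟨α, rfl⟩ := h4
  obtain ⟨α', rfl⟩ := h4'
  have h6 := dvd_sub h1 h5
  have hx' : x4 n (4 * α') b y = x4 n (4 * α) b y - (((4 * α : ℕ) : ℤ) - ((4 * α' : ℕ) : ℤ)) * z := by
    linarith
  have hx : x4 n (4 * α) b y = 2 * w + 1 := by linarith
  set q : ℤ := 2 * ((2 * (α : ℤ) + 2 * α' + 2)) +
    ((16 * (α : ℤ) ^ 2 + 16 * α * α' + 16 * α' ^ 2 + 32 * (α + α') + 19) * (2 * w + 1)) +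
    (4 * (α' : ℤ) + 1) * (4 * α' + 3) * (4 * α' + 4) * z with hq
  have e : R n (4 * α) b y - R n (4 * α') b y
      = q * (((4 * α : ℕ) : ℤ) - ((4 * α' : ℕ) : ℤ)) := by
    unfold R
    rw [hx', hx, hq]
    push_cast
    ring
  rw [e] at h6
  refine IsCoprime.dvd_of_dvd_mul_left ?_ h6
  apply IsCoprime.pow_left
  have hqodd : q = 2 * ((2 * (α : ℤ) + 2 * α' + 2) +
      (8 * (α : ℤ) ^ 2 + 8 * α * α' + 8 * α' ^ 2 + 16 * (α + α') + 9) * (2 * w + 1) + w +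
      (4 * (α' : ℤ) + 1) * (4 * α' + 3) * (2 * α' + 2) * z) + 1 := by
    rw [hq]; ring
  obtain ⟨M, hM⟩ : ∃ M, q = 2 * M + 1 := ⟨_, hqodd⟩
  rw [hM]
  exact ⟨-M, 1, by ring⟩

lemma H_dvd {s n a : ℕ} (hn : n = 2 ^ s) (hn4 : 4 ≤ n) (h4 : 4 ∣ a) :
    (2 ^ (n - 2) : ℤ) ∣ H n a := by
  have h1 : (2 ^ (n - 1) : ℤ) ∣ g a n := by
    refine dvd_trans ?_ (fact_dvd_g a n)
    have h2 := val_two_pow s
    rw [← hn] at h2
    have h3 : 2 ^ (n - 1) ∣ n ! := by
      rw [show n - 1 = padicValNat 2 n ! by omega]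
      exact pow_padicValNat_dvd
    exact_mod_cast h3
  obtain ⟨β, rfl⟩ := h4
  have h5 : g (4 * β) n = 2 * ((2 * (β : ℤ) + 1) * H n (4 * β)) := by
    have e : n = 4 + (n - 4) := by omega
    have h6 : g (4 * β) n = g (4 * β) 4 * g (4 * β + 4) (n - 4) := by
      conv_lhs => rw [e]
      rw [g_add]
    rw [h6]
    unfold H
    have g4 : g (4 * β) 4 = (4 * (β : ℤ) + 1) * (4 * β + 2) * (4 * β + 3) * (4 * β + 4) := by
      unfold g
      simp only [prod_range_succ, prod_range_zero]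
      push_cast
      ring
    rw [g4]
    push_cast
    ring
  rw [h5, show n - 1 = (n - 2) + 1 by omega, pow_succ'] at h1
  have h8 := Int.dvd_of_mul_dvd_mul_left (by norm_num) h1
  refine IsCoprime.dvd_of_dvd_mul_left ?_ h8
  apply IsCoprime.pow_left
  exact ⟨-(β : ℤ), 1, by ring⟩

/-! ### Counting -/

lemma count {s n t C : ℕ} (hn : n = 2 ^ s) (hn4 : 4 ≤ n) (ht : t + 2 ≤ n) (ht2 : 1 ≤ t)
    (hC : ∀ a, c t (X a) ≤ C) (D : Set ℕ)
    (hD : ∀ d ∈ D, 4 ∣ d ∧ Good (n - 2 + t + 1) d) (S : Finset ℕ)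
    (hS : ∀ r ∈ S, ∃ d ∈ D, d % 2 ^ (n - 2 + t) = r) : S.card ≤ C * 2 ^ (n - 4) := by
  classical
  set K := n - 2 + t with hK
  have hdata : ∀ r ∈ S, ∃ (d : ℕ) (b : Finset ℕ) (y : ℤ), d % 2 ^ K = r ∧ 4 ∣ d ∧
      b ⊆ range (n - 4) ∧ y ∈ X (d + n) ∧ (2 : ℤ) ∣ x4 n d b y - 1 ∧
      (2 ^ K : ℤ) ∣ R n d b y := by
    intro r hr
    obtain ⟨d, hd, hdr⟩ := hS r hr
    obtain ⟨h4, hG⟩ := hD d hd
    obtain ⟨b, hb, y, hy, h1, h2⟩ := exists_data (n := n) (K := K) hn4 (by omega) h4 hG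
    exact ⟨d, b, y, hdr, h4, hb, hy, h1, h2⟩
  choose! d b y hd h4 hb hy hodd hR using hdata
  have h1 : (S.image b).card ≤ 2 ^ (n - 4) := by
    have h2 : S.image b ⊆ (range (n - 4)).powerset := by
      intro B hB
      obtain ⟨r, hr, rfl⟩ := mem_image.1 hB
      exact mem_powerset.2 (hb r hr)
    refine (card_le_card h2).trans ?_
    rw [card_powerset, card_range]
  refine (card_le_mul_card_image S C ?_).trans (Nat.mul_le_mul_left _ h1)
  intro B hB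
  obtain ⟨r1, hr1, rfl⟩ := mem_image.1 hB
  refine le_trans ?_ (hC (d r1 + n))
  unfold c
  have hHt : ∀ a, 4 ∣ a → (2 ^ t : ℤ) ∣ H n a := fun a ha =>
    (pow_dvd_pow 2 (show t ≤ n - 2 by omega)).trans (H_dvd hn hn4 ha)
  refine card_le_card_of_injOn (fun r => ((y r : ℤ) : ZMod (2 ^ t))) ?_ ?_
  · intro r hr
    rw [Finset.mem_coe, mem_filter] at hr
    obtain ⟨hrS, hrb⟩ := hr
    rw [Finset.mem_coe]
    have hRr := hR r hrS
    rw [hrb] at hRr
    have hor := hodd r hrS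
    rw [hrb] at hor
    have hKt : (2 ^ t : ℤ) ∣ 2 ^ K := pow_dvd_pow 2 (by omega)
    have h5 : (2 ^ t : ℤ) ∣ (d r : ℤ) - (d r1 : ℤ) :=
      R_inj (h4 r hrS) (h4 r1 hr1) hor (hKt.trans hRr) (hKt.trans (hR r1 hr1))
        (dvd_mul_of_dvd_left (hHt _ (h4 r1 hr1)) _)
    refine im_congr (a := d r + n) (a' := d r1 + n) ?_ (mem_im.2 ⟨y r, hy r hrS, rfl⟩)
    have e : ((d r + n : ℕ) : ℤ) - ((d r1 + n : ℕ) : ℤ) = (d r : ℤ) - (d r1 : ℤ) := by
      push_cast; ring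
    rw [e]
    exact h5
  · intro r hr r' hr' hrr
    rw [Finset.mem_coe, mem_filter] at hr hr'
    obtain ⟨hrS, hrb⟩ := hr
    obtain ⟨hrS', hrb'⟩ := hr'
    have hRr := hR r hrS
    rw [hrb] at hRr
    have hor := hodd r hrS
    rw [hrb] at hor
    have hRr' := hR r' hrS'
    rw [hrb'] at hRr'
    have h6 : (2 ^ t : ℤ) ∣ y r - y r' := (eq_iff_dvd t _ _).1 hrr
    have h7 : (2 ^ K : ℤ) ∣ H n (d r') * (y r - y r') := by
      rw [hK, pow_add]
      exact mul_dvd_mul (H_dvd hn hn4 (h4 r' hrS')) h6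
    have h8 := R_inj (h4 r hrS) (h4 r' hrS') hor hRr hRr' h7
    have h9 : d r ≡ d r' [MOD 2 ^ K] := by
      apply Nat.ModEq.symm
      rw [Nat.modEq_iff_dvd]
      push_cast
      exact h8
    rw [← hd r hrS, ← hd r' hrS']
    exact h9

/-- the uniform bound of the number of residues. -/
lemma exists_small (ε : ℝ) (hε : 0 < ε) : ∃ t, 1 ≤ t ∧ ∀ a, (c t (X a) : ℝ) ≤ ε * 2 ^ t := by
  have h := μ_tendsto 0
  rw [μ_zero_eq] at h
  obtain ⟨τ, hτ⟩ := (h.eventually (gt_mem_nhds (show (0 : ℝ) < ε / 2 by positivity))).exists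
  refine ⟨τ + 2 ^ τ, ?_, fun a => ?_⟩
  · have : 0 < 2 ^ τ := by positivity
    omega
  · have h1 := m_unif a τ
    have h2 : m a (τ + 2 ^ τ) ≤ ε := by linarith
    unfold m at h2
    rwa [div_le_iff₀ (by positivity)] at h2

/-- natural density of the first terms. -/
theorem start_density : Tendsto (fun x : ℕ =>
    (({a : ℕ | a < x ∧ 4 ∣ a ∧ Start a}.ncard : ℝ)) / x) atTop (𝓝 0) := by
  classical
  rw [Metric.tendsto_atTop]
  intro ε hε
  obtain ⟨t, ht1, hct⟩ := exists_small (ε / 4) (by positivity)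
  obtain ⟨s, hs⟩ : ∃ s, s = t + 4 := ⟨_, rfl⟩
  obtain ⟨n, hn⟩ : ∃ n, n = 2 ^ s := ⟨_, rfl⟩
  have hsn : s < n := by rw [hn]; exact Nat.lt_two_pow_self
  set K := n - 2 + t with hK
  set D : Set ℕ := {d | 4 ∣ d ∧ Start d} with hD
  set S : Finset ℕ := (range (2 ^ K)).filter fun r => ∃ d ∈ D, d % 2 ^ K = r with hS
  set C : ℕ := ⌊ε / 4 * 2 ^ t⌋₊ with hC
  have hcount : S.card ≤ C * 2 ^ (n - 4) := by
    refine count (s := s) (t := t) hn (by omega) (by omega) ht1 (fun a => ?_) D ?_ S ?_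
    · exact Nat.le_floor (hct a)
    · rintro d ⟨hd4, hds⟩
      exact ⟨hd4, good_of_start hds _⟩
    · intro r hr
      exact (mem_filter.1 hr).2
  have hSr : (S.card : ℝ) ≤ ε / 4 * 2 ^ K := by
    have h1 : (C : ℝ) ≤ ε / 4 * 2 ^ t := Nat.floor_le (by positivity)
    have h2 : (S.card : ℝ) ≤ C * 2 ^ (n - 4) := by exact_mod_cast hcount
    refine h2.trans ((mul_le_mul_of_nonneg_right h1 (by positivity)).trans ?_)
    rw [mul_assoc, ← pow_add]
    refine mul_le_mul_of_nonneg_left ?_ (by positivity)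
    exact pow_le_pow_right₀ (by norm_num) (by omega)
  refine ⟨2 ^ K, fun x hx => ?_⟩
  have hxpos : (0 : ℝ) < x := by
    have : 0 < 2 ^ K := by positivity
    have : 0 < x := by omega
    exact_mod_cast this
  have hle : {a : ℕ | a < x ∧ 4 ∣ a ∧ Start a}.ncard ≤ (x / 2 ^ K + 1) * S.card := by
    have h1 : {a : ℕ | a < x ∧ 4 ∣ a ∧ Start a} =
        (((range x).filter fun a => 4 ∣ a ∧ Start a : Finset ℕ) : Set ℕ) := by
      ext a
      simp
    rw [h1, Set.ncard_coe_finset]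
    have h2 : (range (x / 2 ^ K + 1) ×ˢ S).card = (x / 2 ^ K + 1) * S.card := by
      rw [card_product, card_range]
    rw [← h2]
    refine card_le_card_of_injOn (fun a => (a / 2 ^ K, a % 2 ^ K)) ?_ ?_
    · intro a ha
      rw [Finset.mem_coe, mem_filter, mem_range] at ha
      rw [Finset.mem_coe, mem_product, mem_range]
      refine ⟨?_, ?_⟩
      · exact Nat.lt_succ_of_le (Nat.div_le_div_right ha.1.le)
      · rw [hS, mem_filter, mem_range]
        exact ⟨Nat.mod_lt _ (by positivity), a, ha.2, rfl⟩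
    · intro a _ a' _ haa
      simp only [Prod.mk.injEq] at haa
      rw [← Nat.div_add_mod a (2 ^ K), ← Nat.div_add_mod a' (2 ^ K), haa.1, haa.2]
  have hle' : (({a : ℕ | a < x ∧ 4 ∣ a ∧ Start a}.ncard : ℝ)) ≤
      (x / 2 ^ K + 1) * S.card := by
    have h1 : (({a : ℕ | a < x ∧ 4 ∣ a ∧ Start a}.ncard : ℝ)) ≤
        (((x / 2 ^ K : ℕ) : ℝ) + 1) * S.card := by exact_mod_cast hle
    refine h1.trans (mul_le_mul_of_nonneg_right ?_ (by positivity))
    have h2 : ((x / 2 ^ K : ℕ) : ℝ) ≤ (x : ℝ) / ((2 ^ K : ℕ) : ℝ) := Nat.cast_div_le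
    push_cast at h2
    linarith
  rw [Real.dist_eq, sub_zero, abs_of_nonneg (by positivity), div_lt_iff₀ hxpos]
  have hxK : (2 : ℝ) ^ K ≤ x := by exact_mod_cast hx
  have h3 : ((x : ℝ) / 2 ^ K + 1) * S.card ≤ ((x : ℝ) / 2 ^ K + 1) * (ε / 4 * 2 ^ K) :=
    mul_le_mul_of_nonneg_left hSr (by positivity)
  have h4 : ((x : ℝ) / 2 ^ K + 1) * (ε / 4 * 2 ^ K) = ε / 4 * (x + 2 ^ K) := by
    field_simp
  have h5 : ε / 4 * (x + 2 ^ K) ≤ ε / 4 * (x + x) :=
    mul_le_mul_of_nonneg_left (by linarith) (by positivity)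
  have h6 : ε / 4 * ((x : ℝ) + x) < ε * x := by nlinarith [mul_pos hε hxpos]
  linarith

lemma not_start_odd {a : ℕ} (ha : a % 2 = 1) : ¬ Start a := by
  intro h
  obtain ⟨T, h0, hT⟩ := good_of_start h 1
  rw [pow_one, ← Finset.add_sum_erase T _ h0, g_zero] at hT
  have h2 : (2 : ℤ) ∣ ∑ c ∈ T.erase 0, g a c := by
    refine dvd_sum fun c hc => ?_
    obtain ⟨b, rfl⟩ : ∃ b, c = b + 1 := ⟨c - 1, by
      have := (mem_erase.1 hc).1
      omega⟩
    rw [g_succ]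
    refine dvd_mul_of_dvd_left ?_ _
    omega
  omega

/-- density of the first terms `≢ 2 (mod 4)`. -/
theorem start_density' : Tendsto (fun x : ℕ =>
    (({a : ℕ | a < x ∧ a % 4 ≠ 2 ∧ Start a}.ncard : ℝ)) / x) atTop (𝓝 0) := by
  refine start_density.congr fun x => ?_
  congr 3
  ext a
  constructor
  · rintro ⟨h1, h2, h3⟩
    exact ⟨h1, by omega, h3⟩
  · rintro ⟨h1, h2, h3⟩
    refine ⟨h1, ?_, h3⟩
    by_contra h4
    exact not_start_odd (a := a) (by omega) h3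

end Pool.Agent.PS38.Null
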