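import Pool.Agent.PS38.Null2

set_option autoImplicit false

/-!
For `p = 2` almost no natural number is the first term of a sequence whose partial sums of
factorials have 2-adic valuation tending to infinity: Taylor expansions and valuations.
-/

namespace Pool.Agent.PS38.Null

open Finset Filter
open scoped Nat Topology

/-- `∏_{i < b} (x + i + 1)` for an integer `x`. -/
def G (x : ℤ) (b : ℕ) : ℤ := ∏ i ∈ range b, (x + i + 1)

/-- derivative of `G`. -/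
def G1 (x : ℤ) : ℕ → ℤ
  | 0 => 0
  | (b + 1) => G1 x b * (x + b + 1) + G x b

/-- second Taylor coefficient of `G`. -/
def G2 (x : ℤ) : ℕ → ℤ
  | 0 => 0
  | (b + 1) => G2 x b * (x + b + 1) + G1 x b

lemma G_zero (x : ℤ) : G x 0 = 1 := by simp [G]

lemma G_succ (x : ℤ) (b : ℕ) : G x (b + 1) = G x b * (x + b + 1) := by
  unfold G; rw [prod_range_succ]

lemma G1_succ (x : ℤ) (b : ℕ) : G1 x (b + 1) = G1 x b * (x + b + 1) + G x b := rfl

lemma G2_succ (x : ℤ) (b : ℕ) : G2 x (b + 1) = G2 x b * (x + b + 1) + G1 x b := rfl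

lemma g_eq_G (a b : ℕ) : g a b = G a b := rfl

lemma taylor (x h : ℤ) (b : ℕ) : (∃ k, G (x + h) b = G x b + G1 x b * h + k * h ^ 2) ∧
    ∃ k, G1 (x + h) b = G1 x b + 2 * G2 x b * h + k * h ^ 2 := by
  induction b with
  | zero => exact ⟨⟨0, by simp [G_zero, G1]⟩, ⟨0, by simp [G1, G2]⟩⟩
  | succ b ih =>
    obtain ⟨⟨k, hk⟩, ⟨k1, hk1⟩⟩ := ih
    refine ⟨⟨k * (x + b + 1) + G1 x b + k * h, ?_⟩,
      ⟨k1 * (x + b + 1) + 2 * G2 x b + k1 * h + k, ?_⟩⟩
    · rw [G_succ, G_succ, G1_succ, hk]; ring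
    · rw [G1_succ, G1_succ, G2_succ, hk, hk1]; ring

lemma G_add (x : ℤ) (i j : ℕ) : G x (i + j) = G x i * G (x + i) j := by
  induction j with
  | zero => simp [G_zero]
  | succ j ih => rw [← add_assoc, G_succ, G_succ, ih]; push_cast; ring

lemma G1_add (x : ℤ) (i j : ℕ) :
    G1 x (i + j) = G1 x i * G (x + i) j + G x i * G1 (x + i) j := by
  induction j with
  | zero => simp [G_zero, G1]
  | succ j ih => rw [← add_assoc, G1_succ, G1_succ, G_succ, ih, G_add]; push_cast; ring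

lemma G2_add (x : ℤ) (i j : ℕ) :
    G2 x (i + j) = G2 x i * G (x + i) j + G1 x i * G1 (x + i) j + G x i * G2 (x + i) j := by
  induction j with
  | zero => simp [G_zero, G1, G2]
  | succ j ih =>
    rw [← add_assoc, G2_succ, G2_succ, G1_succ, G_succ, ih, G1_add]; push_cast; ring

/-- partial sums. -/
def Z (e : ℕ → ℤ) (m : ℕ) (x : ℤ) : ℤ := ∑ j ∈ range m, e j * G x j
def Z1 (e : ℕ → ℤ) (m : ℕ) (x : ℤ) : ℤ := ∑ j ∈ range m, e j * G1 x j
def Z2 (e : ℕ → ℤ) (m : ℕ) (x : ℤ) : ℤ := ∑ j ∈ range m, e j * G2 x j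

lemma Z_add (e : ℕ → ℤ) (m k : ℕ) (x : ℤ) :
    Z e (m + k) x = Z e m x + G x m * Z (fun j => e (m + j)) k (x + m) := by
  unfold Z
  rw [sum_range_add, mul_sum]
  congr 1
  refine sum_congr rfl fun j _ => ?_
  rw [G_add]; ring

lemma Z1_add (e : ℕ → ℤ) (m k : ℕ) (x : ℤ) :
    Z1 e (m + k) x = Z1 e m x + G1 x m * Z (fun j => e (m + j)) k (x + m)
      + G x m * Z1 (fun j => e (m + j)) k (x + m) := by
  unfold Z1 Z
  rw [sum_range_add, mul_sum, mul_sum, add_assoc, ← sum_add_distrib]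
  congr 1
  refine sum_congr rfl fun j _ => ?_
  rw [G1_add]; ring

lemma Z2_add (e : ℕ → ℤ) (m k : ℕ) (x : ℤ) :
    Z2 e (m + k) x = Z2 e m x + G2 x m * Z (fun j => e (m + j)) k (x + m)
      + G1 x m * Z1 (fun j => e (m + j)) k (x + m)
      + G x m * Z2 (fun j => e (m + j)) k (x + m) := by
  unfold Z2 Z1 Z
  rw [sum_range_add, mul_sum, mul_sum, mul_sum, add_assoc, add_assoc, ← sum_add_distrib,
    ← sum_add_distrib]
  congr 1
  refine sum_congr rfl fun j _ => ?_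
  rw [G2_add]; ring

lemma Z_taylor (e : ℕ → ℤ) (m : ℕ) (x h : ℤ) :
    (∃ k, Z e m (x + h) = Z e m x + Z1 e m x * h + k * h ^ 2) ∧
    ∃ k, Z1 e m (x + h) = Z1 e m x + 2 * Z2 e m x * h + k * h ^ 2 := by
  choose k hk using fun b => (taylor x h b).1
  choose k1 hk1 using fun b => (taylor x h b).2
  refine ⟨⟨∑ j ∈ range m, e j * k j, ?_⟩, ⟨∑ j ∈ range m, e j * k1 j, ?_⟩⟩
  · unfold Z Z1
    rw [sum_mul, sum_mul, ← sum_add_distrib, ← sum_add_distrib]
    refine sum_congr rfl fun j _ => ?_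
    rw [hk]; ring
  · unfold Z1 Z2
    rw [mul_sum, sum_mul, sum_mul, ← sum_add_distrib, ← sum_add_distrib]
    refine sum_congr rfl fun j _ => ?_
    rw [hk1]; ring

/-- the test function and its Taylor coefficients. -/
def Rf (e : ℕ → ℤ) (m : ℕ) (x : ℤ) : ℤ := 1 + (x + 1) * Z e m (x + 2)
def Rf1 (e : ℕ → ℤ) (m : ℕ) (x : ℤ) : ℤ := Z e m (x + 2) + (x + 1) * Z1 e m (x + 2)
def Rf2 (e : ℕ → ℤ) (m : ℕ) (x : ℤ) : ℤ := Z1 e m (x + 2) + (x + 1) * Z2 e m (x + 2)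
def Hf (m : ℕ) (x : ℤ) : ℤ := (x + 1) * G (x + 2) m
def Hf1 (m : ℕ) (x : ℤ) : ℤ := G (x + 2) m + (x + 1) * G1 (x + 2) m

lemma Rf_add (e : ℕ → ℤ) (m k : ℕ) (x : ℤ) :
    Rf e (m + k) x = Rf e m x + Hf m x * Z (fun j => e (m + j)) k (x + 2 + m) := by
  unfold Rf Hf; rw [Z_add]; ring

lemma Rf1_add (e : ℕ → ℤ) (m k : ℕ) (x : ℤ) :
    Rf1 e (m + k) x = Rf1 e m x + Hf1 m x * Z (fun j => e (m + j)) k (x + 2 + m)
      + Hf m x * Z1 (fun j => e (m + j)) k (x + 2 + m) := by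
  unfold Rf1 Hf Hf1; rw [Z_add, Z1_add]; ring

lemma Rf_taylor (e : ℕ → ℤ) (m : ℕ) (x h : ℤ) :
    ∃ k, Rf e m (x + h) = Rf e m x + Rf1 e m x * h + k * h ^ 2 := by
  obtain ⟨k, hk⟩ := (Z_taylor e m (x + 2) h).1
  refine ⟨Z1 e m (x + 2) + (x + 1) * k + k * h, ?_⟩
  unfold Rf Rf1
  rw [show x + h + 2 = x + 2 + h by ring, hk]; ring

lemma Rf1_taylor (e : ℕ → ℤ) (m : ℕ) (x h : ℤ) :
    ∃ k, Rf1 e m (x + h) = Rf1 e m x + 2 * Rf2 e m x * h + k * h ^ 2 := by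
  obtain ⟨k, hk⟩ := (Z_taylor e m (x + 2) h).1
  obtain ⟨k1, hk1⟩ := (Z_taylor e m (x + 2) h).2
  refine ⟨k + 2 * Z2 e m (x + 2) + (x + 1) * k1 + k1 * h, ?_⟩
  unfold Rf1 Rf2
  rw [show x + h + 2 = x + 2 + h by ring, hk, hk1]; ring

lemma Hf_taylor (m : ℕ) (x h : ℤ) :
    ∃ k, Hf m (x + h) = Hf m x + Hf1 m x * h + k * h ^ 2 := by
  obtain ⟨k, hk⟩ := (taylor (x + 2) h m).1
  refine ⟨G1 (x + 2) m + (x + 1) * k + k * h, ?_⟩
  unfold Hf Hf1
  rw [show x + h + 2 = x + 2 + h by ring, hk]; ring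

lemma G_two (x : ℤ) : G x 2 = (x + 1) * (x + 2) := by
  rw [G_succ, G_succ, G_zero]; push_cast; ring

lemma G1_two (x : ℤ) : G1 x 2 = 2 * x + 3 := by
  rw [G1_succ, G1_succ, G_succ, G_zero]; simp [G1]; ring

lemma Hf_mul (m : ℕ) (x : ℤ) : (x + 2) * Hf m x = G x (2 + m) := by
  rw [G_add, G_two]; unfold Hf; push_cast; ring

lemma Hf1_mul (m : ℕ) (x : ℤ) : (x + 2) * Hf1 m x = G1 x (2 + m) - Hf m x := by
  rw [G1_add, G_two, G1_two]; unfold Hf Hf1; push_cast; ring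

lemma pow_dvd_of_mul (A : ℕ) : ∀ (j : ℕ) (B : ℕ) (u v : ℤ), B + j ≤ A → ¬ (2 ^ (j + 1) : ℤ) ∣ u →
    (2 ^ A : ℤ) ∣ u * v → (2 ^ B : ℤ) ∣ v := by
  intro j
  induction j generalizing A with
  | zero =>
    intro B u v hB hu h
    have h1 : (2 ^ B : ℤ) ∣ u * v := (pow_dvd_pow 2 (by omega)).trans h
    refine IsCoprime.dvd_of_dvd_mul_left ?_ h1
    apply IsCoprime.pow_left
    rw [zero_add, pow_one] at hu
    exact (Prime.coprime_iff_not_dvd Int.prime_two).2 hu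
  | succ j ih =>
    intro B u v hB hu h
    by_cases h2 : (2 : ℤ) ∣ u
    · obtain ⟨w, rfl⟩ := h2
      obtain ⟨A', rfl⟩ : ∃ A', A = A' + 1 := ⟨A - 1, by omega⟩
      refine ih A' B w v (by omega) ?_ ?_
      · intro h3
        apply hu
        rw [pow_succ']
        exact mul_dvd_mul_left 2 h3
      · rw [pow_succ', mul_assoc] at h
        exact Int.dvd_of_mul_dvd_mul_left (by norm_num) h
    · have h1 : (2 ^ B : ℤ) ∣ u * v := (pow_dvd_pow 2 (by omega)).trans h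
      refine IsCoprime.dvd_of_dvd_mul_left ?_ h1
      apply IsCoprime.pow_left
      exact (Prime.coprime_iff_not_dvd Int.prime_two).2 h2

lemma Hf_val {s n j a : ℕ} (hn : n = 2 ^ s) (hn2 : 2 ≤ n) (hj : ¬ 2 ^ (j + 1) ∣ a + 2) {B : ℕ}
    (hB : B + j ≤ n - 1) : (2 ^ B : ℤ) ∣ Hf (n - 2) a := by
  have h1 : (2 ^ (n - 1) : ℤ) ∣ ((a : ℤ) + 2) * Hf (n - 2) a := by
    rw [Hf_mul, show 2 + (n - 2) = n by omega, ← g_eq_G]
    refine dvd_trans ?_ (fact_dvd_g a n)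
    have h2 := val_two_pow s
    rw [← hn] at h2
    have h3 : 2 ^ (n - 1) ∣ n ! := by
      rw [show n - 1 = padicValNat 2 n ! by omega]
      exact pow_padicValNat_dvd
    exact_mod_cast h3
  exact pow_dvd_of_mul (n - 1) j B _ _ hB (by exact_mod_cast hj) h1

lemma G1_sum (x : ℤ) (n : ℕ) :
    G1 x n = ∑ i ∈ range n, G x i * G (x + i + 1) (n - 1 - i) := by
  induction n with
  | zero => simp [G1]
  | succ n ih =>
    rw [G1_succ, ih, sum_range_succ, sum_mul]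
    congr 1
    · refine sum_congr rfl fun i hi => ?_
      rw [mem_range] at hi
      rw [show n + 1 - 1 - i = (n - 1 - i) + 1 by omega, G_succ]
      have : ((n - 1 - i : ℕ) : ℤ) = (n : ℤ) - 1 - i := by
        rw [Nat.cast_sub (by omega), Nat.cast_sub (by omega)]; push_cast; ring
      rw [this]; ring
    · simp [G_zero]

lemma fact_val {s n i : ℕ} (hn : n = 2 ^ s) (hi : i < n) :
    2 ^ (n - 1 - 2 * s) ∣ i ! * (n - 1 - i)! := by
  have h2 := val_two_pow s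
  rw [← hn] at h2
  have hn0 : n ≠ 0 := by omega
  have h3 : padicValNat 2 n ! = s + padicValNat 2 (n - 1)! := by
    obtain ⟨q, hq⟩ : ∃ q, n = q + 1 := ⟨n - 1, by omega⟩
    rw [show n - 1 = q by omega, hq, Nat.factorial_succ,
      padicValNat.mul (by omega) (Nat.factorial_ne_zero _), ← hq, hn, padicValNat.prime_pow]
  have h4 := Nat.choose_mul_factorial_mul_factorial (show i ≤ n - 1 by omega)
  have hc : (n - 1).choose i ≠ 0 := (Nat.choose_pos (by omega)).ne'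
  have h5 : padicValNat 2 ((n - 1).choose i) ≤ s := by
    have h6 := Nat.factorization_choose_le_log (p := 2) (n := n - 1) (k := i)
    rw [Nat.factorization_def _ Nat.prime_two] at h6
    refine h6.trans ?_
    have h7 : Nat.log 2 (n - 1) ≤ Nat.log 2 n := Nat.log_mono_right (by omega)
    have h9 : Nat.log 2 n = s := by rw [hn]; exact Nat.log_pow (by norm_num) s
    omega
  rw [mul_assoc] at h4
  have h8 : padicValNat 2 ((n - 1).choose i) + padicValNat 2 (i ! * (n - 1 - i)!)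
      = padicValNat 2 (n - 1)! := by
    rw [← padicValNat.mul hc (mul_ne_zero (Nat.factorial_ne_zero _) (Nat.factorial_ne_zero _)), h4]
  refine (pow_dvd_pow 2 ?_).trans pow_padicValNat_dvd
  omega

lemma G1_val {s n : ℕ} (a : ℕ) (hn : n = 2 ^ s) : (2 ^ (n - 1 - 2 * s) : ℤ) ∣ G1 a n := by
  rw [G1_sum]
  refine dvd_sum fun i hi => ?_
  rw [mem_range] at hi
  have h1 := fact_val hn hi
  have h2 : ((i ! * (n - 1 - i)! : ℕ) : ℤ) ∣ G a i * G ((a : ℤ) + i + 1) (n - 1 - i) := by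
    rw [Nat.cast_mul]
    refine mul_dvd_mul (fact_dvd_g a i) ?_
    have := fact_dvd_g (a + i + 1) (n - 1 - i)
    rw [g_eq_G] at this
    push_cast at this
    exact this
  exact dvd_trans (by exact_mod_cast h1) h2

lemma Hf1_val {s n j a : ℕ} (hn : n = 2 ^ s) (hn2 : 2 ≤ n) (hj : ¬ 2 ^ (j + 1) ∣ a + 2) {B : ℕ}
    (hB : B + 2 * j + 2 * s ≤ n - 1) : (2 ^ B : ℤ) ∣ Hf1 (n - 2) a := by
  refine pow_dvd_of_mul (B + j) j B ((a : ℤ) + 2) _ le_rfl (by exact_mod_cast hj) ?_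
  rw [Hf1_mul, show 2 + (n - 2) = n by omega]
  refine dvd_sub ?_ (Hf_val hn hn2 hj (by omega))
  exact (pow_dvd_pow 2 (by omega)).trans (G1_val a hn)

end Pool.Agent.PS38.Null
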