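import Pool.Agent.PS38.Null3

set_option autoImplicit false

namespace Pool.Agent.PS38.Null

open Finset Filter
open scoped Nat Topology

set_option maxRecDepth 100000 in
lemma L8 : ∀ (β e0 e1 : Fin 2) (v v1 : ZMod 8),
    let x : ZMod 8 := 4 * (β.val : ZMod 8) + 2
    let z : ZMod 8 := (e0.val : ZMod 8) + e1.val * (x + 3) + (x + 3) * (x + 4) * v
    let z1 : ZMod 8 := (e1.val : ZMod 8) + (2 * x + 7) * v + (x + 3) * (x + 4) * v1
    1 + (x + 1) * z = 0 → 2 * (z + (x + 1) * z1) = 0 →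
      4 * (z1 + (x + 1) * (v + (2 * x + 7) * v1)) = 4 := by
  decide

lemma bit_fin {e : ℤ} (h : e = 0 ∨ e = 1) : ∃ f : Fin 2, e = (f.val : ℤ) := by
  rcases h with h | h
  · exact ⟨0, by simp [h]⟩
  · exact ⟨1, by simp [h]⟩

lemma Rf2_odd {e : ℕ → ℤ} (he : ∀ i, e i = 0 ∨ e i = 1) {m : ℕ} (hm : 2 ≤ m) {x : ℤ}
    (hx : (4 : ℤ) ∣ x - 2) (h1 : (8 : ℤ) ∣ Rf e m x) (h2 : (4 : ℤ) ∣ Rf1 e m x) :
    (2 : ℤ) ∣ Rf2 e m x - 1 := by
  obtain ⟨k, rfl⟩ : ∃ k, m = 2 + k := ⟨m - 2, by omega⟩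
  obtain ⟨f0, hf0⟩ := bit_fin (he 0)
  obtain ⟨f1, hf1⟩ := bit_fin (he 1)
  obtain ⟨w, hw⟩ := hx
  obtain ⟨β, hβ⟩ : ∃ β : Fin 2, ∃ w' : ℤ, w = β.val + 2 * w' := by
    rcases Int.even_or_odd w with ⟨r, hr⟩ | ⟨r, hr⟩
    · exact ⟨0, r, by rw [hr]; simp; ring⟩
    · exact ⟨1, r, by rw [hr]; simp; ring⟩
  obtain ⟨w', hw'⟩ := hβ
  have hG1 : G (x + 2) 2 = (x + 3) * (x + 4) := by rw [G_two]; ring
  have hG11 : G1 (x + 2) 2 = 2 * x + 7 := by rw [G1_two]; ring
  have hG22 : G2 (x + 2) 2 = 1 := by simp [G2, G1, G]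
  have hz : Z e 2 (x + 2) = e 0 + e 1 * (x + 3) := by
    unfold Z; rw [sum_range_succ, sum_range_succ, sum_range_zero, G_succ, G_zero]
    push_cast; ring
  have hz1 : Z1 e 2 (x + 2) = e 1 := by
    unfold Z1; rw [sum_range_succ, sum_range_succ, sum_range_zero, G1_succ, G_zero]
    simp [G1]
  have hz2 : Z2 e 2 (x + 2) = 0 := by
    unfold Z2; rw [sum_range_succ, sum_range_succ, sum_range_zero]
    simp [G2, G1]
  set v := Z (fun j => e (2 + j)) k (x + 2 + (2 : ℕ)) with hv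
  set v1 := Z1 (fun j => e (2 + j)) k (x + 2 + (2 : ℕ)) with hv1
  set v2 := Z2 (fun j => e (2 + j)) k (x + 2 + (2 : ℕ)) with hv2
  have a0 : Rf e (2 + k) x = 1 + (x + 1) * (e 0 + e 1 * (x + 3) + (x + 3) * (x + 4) * v) := by
    unfold Rf; rw [Z_add, hz, hG1]
  have a1 : Rf1 e (2 + k) x = (e 0 + e 1 * (x + 3) + (x + 3) * (x + 4) * v)
      + (x + 1) * (e 1 + (2 * x + 7) * v + (x + 3) * (x + 4) * v1) := by
    unfold Rf1; rw [Z_add, Z1_add, hz, hz1, hG1, hG11]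
  have a2 : Rf2 e (2 + k) x = (e 1 + (2 * x + 7) * v + (x + 3) * (x + 4) * v1)
      + (x + 1) * (v + (2 * x + 7) * v1 + (x + 3) * (x + 4) * v2) := by
    unfold Rf2; rw [Z1_add, Z2_add, hz1, hz2, hG1, hG11, hG22]; ring
  rw [a0] at h1
  rw [a1] at h2
  rw [a2]
  have hxz : ((x : ℤ) : ZMod 8) = 4 * (β.val : ZMod 8) + 2 := by
    have e8 : (8 : ZMod 8) = 0 := by decide
    have : x = 4 * (β.val : ℤ) + 2 + 8 * w' := by rw [hw'] at hw; linarith
    rw [this]; push_cast; rw [e8]; ring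
  have b1 := (ZMod.intCast_zmod_eq_zero_iff_dvd _ 8).2 (by exact_mod_cast h1)
  have b2 := (ZMod.intCast_zmod_eq_zero_iff_dvd _ 8).2
    (show ((8 : ℕ) : ℤ) ∣ 2 * ((e 0 + e 1 * (x + 3) + (x + 3) * (x + 4) * v)
      + (x + 1) * (e 1 + (2 * x + 7) * v + (x + 3) * (x + 4) * v1)) from by
      have := mul_dvd_mul_left (2 : ℤ) h2
      norm_num at this
      exact_mod_cast this)
  rw [hf0, hf1] at b1 b2
  push_cast at b1 b2
  have hL := L8 β f0 f1 (v : ZMod 8) (v1 : ZMod 8)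
  simp only [] at hL
  rw [← hxz] at hL
  have b3 := hL b1 b2
  have b4 : ((4 * ((e 1 + (2 * x + 7) * v + (x + 3) * (x + 4) * v1)
      + (x + 1) * (v + (2 * x + 7) * v1 + (x + 3) * (x + 4) * v2)) - 4 : ℤ) : ZMod 8) = 0 := by
    have e8 : (8 : ZMod 8) = 0 := by decide
    have h4 : 4 * (((x : ℤ) : ZMod 8) + 4) = 0 := by
      rw [hxz]
      have : 4 * (4 * (β.val : ZMod 8) + 2 + 4) = (8 : ZMod 8) * (2 * (β.val : ZMod 8) + 3) := by
        ring
      rw [this, e8]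
      ring
    rw [hf1]
    push_cast
    have : (4 : ZMod 8) * (((f1.val : ZMod 8) + (2 * (x : ZMod 8) + 7) * v + (x + 3) * (x + 4) * v1)
        + (x + 1) * (v + (2 * x + 7) * v1 + (x + 3) * (x + 4) * v2)) - 4
        = (4 * (((f1.val : ZMod 8) + (2 * (x : ZMod 8) + 7) * v + (x + 3) * (x + 4) * v1)
        + (x + 1) * (v + (2 * x + 7) * v1)) - 4)
          + (4 * ((x : ZMod 8) + 4)) * ((x + 1) * (x + 3) * v2) := by ring
    rw [this, h4, b3]
    ring
  have b5 := (ZMod.intCast_zmod_eq_zero_iff_dvd _ 8).1 b4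
  push_cast at b5
  omega

/-- same bits and small derivatives force the first terms to be close. -/
lemma close_of_deriv {e : ℕ → ℤ} (he : ∀ i, e i = 0 ∨ e i = 1) {m w : ℕ} (hm : 2 ≤ m)
    (hw : 2 ≤ w) {x x' : ℤ}
    (hx : (4 : ℤ) ∣ x - 2) (hx' : (4 : ℤ) ∣ x' - 2) (h8 : (8 : ℤ) ∣ Rf e m x)
    (h1 : (2 ^ w : ℤ) ∣ Rf1 e m x) (h2 : (2 ^ w : ℤ) ∣ Rf1 e m x') :
    (2 ^ (w - 1) : ℤ) ∣ x' - x := by
  have h4 : (4 : ℤ) ∣ Rf1 e m x := by
    have : (2 ^ 2 : ℤ) ∣ 2 ^ w := pow_dvd_pow 2 hw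
    norm_num at this
    exact this.trans h1
  obtain ⟨u, hu⟩ := Rf2_odd he hm hx h8 h4
  obtain ⟨h', hh⟩ : (4 : ℤ) ∣ x' - x := by
    have := dvd_sub hx' hx
    have e1 : x' - 2 - (x - 2) = x' - x := by ring
    rwa [e1] at this
  obtain ⟨k, hk⟩ := Rf1_taylor e m x (x' - x)
  rw [show x + (x' - x) = x' by ring] at hk
  have h5 : (2 ^ w : ℤ) ∣ Rf1 e m x' - Rf1 e m x := dvd_sub h2 h1
  have e2 : Rf1 e m x' - Rf1 e m x = 2 * ((2 * (u + k * h') + 1) * (x' - x)) := by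
    rw [hk, show Rf2 e m x = 2 * u + 1 by linarith, hh]; ring
  rw [e2, show w = (w - 1) + 1 by omega, pow_succ'] at h5
  have h6 := Int.dvd_of_mul_dvd_mul_left (by norm_num) h5
  refine IsCoprime.dvd_of_dvd_mul_left ?_ h6
  apply IsCoprime.pow_left
  exact ⟨-(u + k * h'), 1, by ring⟩

/-- the determined positions. -/
lemma mult {N Λ m : ℕ} {c H : ℤ} {e e' : ℕ → ℤ} (he : ∀ i, e i = 0 ∨ e i = 1)
    (he' : ∀ i, e' i = 0 ∨ e' i = 1) (h1 : (2 ^ Λ : ℤ) ∣ c + H * Z e m N)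
    (h2 : (2 ^ Λ : ℤ) ∣ c + H * Z e' m N)
    (hU : ∀ i < m, (¬ 2 ∣ N + i + 1 ∨ (2 ^ Λ : ℤ) ∣ H * G N i) → e i = e' i) :
    ∀ i < m, e i = e' i := by
  intro i
  induction i using Nat.strong_induction_on with
  | _ i ih =>
    intro him
    by_contra hne
    have h3 : ¬ (¬ 2 ∣ N + i + 1 ∨ (2 ^ Λ : ℤ) ∣ H * G N i) := fun h => hne (hU i him h)
    push Not at h3
    obtain ⟨⟨q, hq⟩, h5⟩ := h3
    apply h5
    obtain ⟨k, rfl⟩ : ∃ k, m = i + 1 + k := ⟨m - (i + 1), by omega⟩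
    have h6 : Z e i N = Z e' i N := by
      unfold Z
      refine sum_congr rfl fun j hj => ?_
      rw [mem_range] at hj
      rw [ih j hj (by omega)]
    have hexp : ∀ f : ℕ → ℤ, Z f (i + 1 + k) N = Z f i N + f i * G N i +
        G N i * (2 * q) * Z (fun j => f (i + 1 + j)) k ((N : ℤ) + ((i + 1 : ℕ) : ℤ)) := by
      intro f
      rw [Z_add]
      congr 1
      · unfold Z; rw [sum_range_succ]
      · rw [G_succ]
        have : ((N : ℤ) + i + 1) = 2 * q := by exact_mod_cast hq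
        rw [this]
    rw [hexp] at h1 h2
    have h7 := dvd_sub h1 h2
    rw [h6] at h7
    set A := Z (fun j => e (i + 1 + j)) k ((N : ℤ) + ((i + 1 : ℕ) : ℤ)) with hA
    set B := Z (fun j => e' (i + 1 + j)) k ((N : ℤ) + ((i + 1 : ℕ) : ℤ)) with hB
    obtain ⟨u, hu⟩ : ∃ u : ℤ, e i - e' i = 2 * u + 1 := by
      rcases he i with h | h <;> rcases he' i with h' | h'
      · exact absurd (h.trans h'.symm) hne
      · exact ⟨-1, by rw [h, h']; ring⟩
      · exact ⟨0, by rw [h, h']; ring⟩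
      · exact absurd (h.trans h'.symm) hne
    have e3 : c + H * (Z e' i N + e i * G N i + G N i * (2 * q) * A)
        - (c + H * (Z e' i N + e' i * G N i + G N i * (2 * q) * B))
        = (2 * (u + q * (A - B)) + 1) * (H * G N i) := by
      have : e i = e' i + (2 * u + 1) := by linarith
      rw [this]; ring
    rw [e3] at h7
    refine IsCoprime.dvd_of_dvd_mul_left ?_ h7
    apply IsCoprime.pow_left
    exact ⟨-(u + q * (A - B)), 1, by ring⟩

/-- upper bound of the valuation for typical `a`. -/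
lemma upper {a q J : ℕ} (hnorm : ∀ l < 2 ^ q, ¬ 2 ^ (q + J) ∣ a + l + 1) {m : ℕ} (hm : m ≤ 2 ^ q) :
    ∑ i ∈ range m, padicValNat 2 (a + i + 1) ≤ m + q + 1 + J := by
  classical
  set a0 := a % 2 ^ q with ha0
  have hlt : a0 < 2 ^ q := Nat.mod_lt _ (by positivity)
  have hdm : 2 ^ q * (a / 2 ^ q) + a0 = a := Nat.div_add_mod a (2 ^ q)
  have hcmp : ∀ i ∈ range m, padicValNat 2 (a + i + 1) ≤
      padicValNat 2 (a0 + i + 1) + if 2 ^ q ∣ a + i + 1 then J else 0 := by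
    intro i hi
    rw [mem_range] at hi
    have hiff : ∀ v ≤ q, (2 ^ v ∣ a + i + 1 ↔ 2 ^ v ∣ a0 + i + 1) := by
      intro v hv
      have h1 : 2 ^ v ∣ 2 ^ q * (a / 2 ^ q) := dvd_mul_of_dvd_left (pow_dvd_pow 2 hv) _
      conv_lhs => rw [← hdm, add_assoc, add_assoc]
      rw [Nat.dvd_add_right h1, ← add_assoc]
    split_ifs with h
    · have h2 : padicValNat 2 (a + i + 1) < q + J := by
        by_contra h3
        exact hnorm i (by omega) ((pow_dvd_pow 2 (by omega)).trans pow_padicValNat_dvd)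
      have h4 : q ≤ padicValNat 2 (a0 + i + 1) :=
        (padicValNat_dvd_iff_le (by omega)).1 ((hiff q le_rfl).1 h)
      omega
    · have h2 : padicValNat 2 (a + i + 1) < q := by
        by_contra h3
        exact h ((pow_dvd_pow 2 (by omega)).trans pow_padicValNat_dvd)
      rw [add_zero]
      exact (padicValNat_dvd_iff_le (by omega)).1 ((hiff _ h2.le).1 pow_padicValNat_dvd)
  refine (sum_le_sum hcmp).trans ?_
  rw [sum_add_distrib]
  have h5 : ∑ i ∈ range m, (if 2 ^ q ∣ a + i + 1 then J else 0) ≤ J := by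
    rw [← sum_filter, sum_const, smul_eq_mul]
    have h6 : ((range m).filter fun i => 2 ^ q ∣ a + i + 1).card ≤ 1 := by
      rw [card_le_one]
      intro i hi i' hi'
      rw [mem_filter, mem_range] at hi hi'
      by_contra hne
      rcases Nat.lt_or_gt_of_ne hne with h | h
      · have := (Nat.dvd_sub hi'.2 hi.2)
        have h8 := Nat.le_of_dvd (by omega) this
        omega
      · have := (Nat.dvd_sub hi.2 hi'.2)
        have h8 := Nat.le_of_dvd (by omega) this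
        omega
    calc _ ≤ 1 * J := Nat.mul_le_mul_right _ h6
      _ = J := one_mul J
  have h7 := sum_val a0 m
  have h8 := val_fact_le (a0 + m)
  have h9 : a0 ≤ padicValNat 2 a0 ! + q + 1 := by
    have h10 := val_two_pow q
    have h11 := Nat.choose_mul_factorial_mul_factorial hlt.le
    have hc : (2 ^ q).choose a0 ≠ 0 := (Nat.choose_pos hlt.le).ne'
    have h12 : padicValNat 2 ((2 ^ q).choose a0) ≤ q := by
      have h6 := Nat.factorization_choose_le_log (p := 2) (n := 2 ^ q) (k := a0)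
      rw [Nat.factorization_def _ Nat.prime_two, Nat.log_pow (by norm_num)] at h6
      exact h6
    rw [mul_assoc] at h11
    have h13 : padicValNat 2 ((2 ^ q).choose a0) + (padicValNat 2 a0 ! +
        padicValNat 2 (2 ^ q - a0)!) = padicValNat 2 (2 ^ q)! := by
      rw [← padicValNat.mul (Nat.factorial_ne_zero _) (Nat.factorial_ne_zero _),
        ← padicValNat.mul hc (mul_ne_zero (Nat.factorial_ne_zero _) (Nat.factorial_ne_zero _)), h11]
    have h14 := val_fact_le (2 ^ q - a0)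
    omega
  omega

lemma upper' {a q J : ℕ} (hnorm : ∀ l < 2 ^ q, ¬ 2 ^ (q + J) ∣ a + l + 1) {m Λ : ℕ}
    (hm : m ≤ 2 ^ q) (h : (2 ^ Λ : ℤ) ∣ G a m) : Λ ≤ m + q + 1 + J := by
  refine le_trans ?_ (upper hnorm hm)
  have h1 : ∀ m, padicValNat 2 (∏ i ∈ range m, (a + i + 1)) =
      ∑ i ∈ range m, padicValNat 2 (a + i + 1) := by
    intro m
    induction m with
    | zero => simp
    | succ m ih =>
      rw [prod_range_succ, sum_range_succ, padicValNat.mul
        (prod_ne_zero_iff.2 fun i _ => by omega) (by omega), ih]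
  rw [← h1]
  have h2 : G a m = ((∏ i ∈ range m, (a + i + 1) : ℕ) : ℤ) := by
    unfold G; push_cast; rfl
  rw [h2] at h
  exact (padicValNat_dvd_iff_le (prod_ne_zero_iff.2 fun i _ => by omega)).1 (by exact_mod_cast h)

end Pool.Agent.PS38.Null
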