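import Pool.Agent.PS38.Null4

set_option autoImplicit false

namespace Pool.Agent.PS38.Null

open Finset Filter
open scoped Nat Topology

/-- data of a first term. -/
def Dat (K M0 a : ℕ) (e : ℕ → ℤ) (M : ℕ) : Prop :=
  (∀ i, e i = 0 ∨ e i = 1) ∧ M0 ≤ M ∧ (2 ^ K : ℤ) ∣ Rf e M a

lemma dat_of_start {a j : ℕ} (ha : a % 4 = 2) (hj : ¬ 2 ^ (j + 1) ∣ a + 2) (h : Start a)
    (K M0 : ℕ) : ∃ e M, Dat K M0 a e M := by
  classical
  obtain ⟨T, h0, hT⟩ := good_of_start h (K + j + 1)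
  obtain ⟨M, hM0, hM⟩ : ∃ M, M0 ≤ M ∧ T ⊆ range (2 + M) := ⟨M0 + (T.sup id + 1), by omega,
    fun x hx => by
      rw [mem_range]
      have := Finset.le_sup (f := id) hx
      simp only [id] at this
      omega⟩
  set ε : ℕ → ℤ := fun c => if c ∈ T then 1 else 0 with hε
  have hsum : ∑ c ∈ T, g a c = ∑ c ∈ range (2 + M), ε c * G a c := by
    have h1 : ∑ c ∈ range (2 + M), ε c * G a c
        = ∑ c ∈ range (2 + M), if c ∈ T then g a c else 0 := by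
      refine sum_congr rfl fun c _ => ?_
      simp only [hε]
      split_ifs <;> simp [g_eq_G]
    rw [h1, ← sum_filter]
    refine sum_congr ?_ fun _ _ => rfl
    ext c
    simp only [mem_filter]
    exact ⟨fun h => ⟨hM h, h⟩, fun h => h.2⟩
  have hsplit : ∑ c ∈ range (2 + M), ε c * G a c
      = 1 + ε 1 * (a + 1) + (a + 1) * (a + 2) * Z (fun i => ε (2 + i)) M (a + 2) := by
    have h1 := Z_add ε 2 M a
    have h2 : Z ε 2 a = 1 + ε 1 * ((a : ℤ) + 1) := by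
      unfold Z
      rw [sum_range_succ, sum_range_succ, sum_range_zero, G_succ, G_zero]
      have : ε 0 = 1 := by simp [hε, h0]
      rw [this]; push_cast; ring
    rw [h2, G_two] at h1
    unfold Z at h1 ⊢
    rw [h1]
    push_cast; ring
  rw [hsum, hsplit] at hT
  have hbit : ∀ i, ε i = 0 ∨ ε i = 1 := fun i => by simp only [hε]; split_ifs <;> simp
  have he1 : ε 1 = 1 := by
    rcases hbit 1 with h | h
    · exfalso
      rw [h] at hT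
      have h2 : (2 : ℤ) ∣ 1 + 0 * ((a : ℤ) + 1)
          + (a + 1) * (a + 2) * Z (fun i => ε (2 + i)) M (a + 2) :=
        (dvd_pow_self 2 (by omega)).trans hT
      have h3 : (2 : ℤ) ∣ ((a : ℤ) + 1) * (a + 2) * Z (fun i => ε (2 + i)) M (a + 2) :=
        dvd_mul_of_dvd_left (dvd_mul_of_dvd_right (by omega) _) _
      omega
    · exact h
  refine ⟨fun i => ε (2 + i), M, fun i => hbit _, hM0, ?_⟩
  refine pow_dvd_of_mul (K + j + 1) j K ((a : ℤ) + 2) _ (by omega) (by exact_mod_cast hj) ?_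
  have e1 : 1 + ε 1 * ((a : ℤ) + 1) + (a + 1) * (a + 2) * Z (fun i => ε (2 + i)) M (a + 2)
      = ((a : ℤ) + 2) * Rf (fun i => ε (2 + i)) M a := by
    unfold Rf; rw [he1]; ring
  rwa [e1] at hT

lemma Rf_congr {e e' : ℕ → ℤ} {m : ℕ} (h : ∀ i < m, e i = e' i) (x : ℤ) :
    Rf e m x = Rf e' m x := by
  unfold Rf Z
  congr 2
  exact sum_congr rfl fun i hi => by rw [h i (mem_range.1 hi)]

lemma Rf1_congr {e e' : ℕ → ℤ} {m : ℕ} (h : ∀ i < m, e i = e' i) (x : ℤ) :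
    Rf1 e m x = Rf1 e' m x := by
  unfold Rf1 Z Z1
  congr 1
  · exact sum_congr rfl fun i hi => by rw [h i (mem_range.1 hi)]
  · congr 1
    exact sum_congr rfl fun i hi => by rw [h i (mem_range.1 hi)]

lemma Rf_level {s n j a : ℕ} (hn : n = 2 ^ s) (hn2 : 2 ≤ n) (hj : ¬ 2 ^ (j + 1) ∣ a + 2)
    {e : ℕ → ℤ} {K M : ℕ} (hM : n - 2 ≤ M) (h : (2 ^ K : ℤ) ∣ Rf e M a) {B : ℕ}
    (hB : B + j ≤ n - 1) (hBK : B ≤ K) : (2 ^ B : ℤ) ∣ Rf e (n - 2) a := by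
  obtain ⟨k, rfl⟩ : ∃ k, M = (n - 2) + k := ⟨M - (n - 2), by omega⟩
  rw [Rf_add] at h
  have h1 := (pow_dvd_pow (2 : ℤ) hBK).trans h
  have h2 := Hf_val hn hn2 hj hB
  exact (dvd_add_left (dvd_mul_of_dvd_left h2 _)).1 h1

lemma Rf1_level {s n j a : ℕ} (hn : n = 2 ^ s) (hn2 : 2 ≤ n) (hj : ¬ 2 ^ (j + 1) ∣ a + 2)
    {e : ℕ → ℤ} {M : ℕ} (hM : n - 2 ≤ M) {B : ℕ} (hB : B + 2 * j + 2 * s ≤ n - 1) :
    (2 ^ B : ℤ) ∣ Rf1 e M a - Rf1 e (n - 2) a := by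
  obtain ⟨k, rfl⟩ : ∃ k, M = (n - 2) + k := ⟨M - (n - 2), by omega⟩
  rw [Rf1_add]
  have h2 := Hf_val hn hn2 hj (B := B) (by omega)
  have h3 := Hf1_val hn hn2 hj (B := B) hB
  have e1 : ∀ u v w : ℤ, u + v + w - u = v + w := fun u v w => by ring
  rw [e1]
  exact dvd_add (dvd_mul_of_dvd_left h3 _) (dvd_mul_of_dvd_left h2 _)

lemma double_close {s n j J a a' K M M' w Λ : ℕ} (hn : n = 2 ^ s) (hs : 1 ≤ s)
    (ha : a % 4 = 2) (ha' : a' % 4 = 2) (hj : ¬ 2 ^ (j + 1) ∣ a + 2)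
    (hj' : ¬ 2 ^ (j + 1) ∣ a' + 2)
    (hnorm : ∀ l < 2 ^ (s + 1), ¬ 2 ^ (s + 1 + J) ∣ a + l + 1)
    {e e' : ℕ → ℤ} (he : ∀ i, e i = 0 ∨ e i = 1) (he' : ∀ i, e' i = 0 ∨ e' i = 1)
    (hM : 2 * n - 2 ≤ M) (hM' : 2 * n - 2 ≤ M') (hK : 2 * n ≤ K)
    (h : (2 ^ K : ℤ) ∣ Rf e M a) (h' : (2 ^ K : ℤ) ∣ Rf e' M' a')
    (hw : w + 2 * (s + 1) + 2 * j + 1 = 2 * n) (hΛ : Λ + 4 * s + 4 * j + 4 = 2 * n)
    (hbig : 4 * s + 4 * j + 10 ≤ n)
    (hd : (2 ^ w : ℤ) ∣ Rf1 e M a) (hd' : (2 ^ w : ℤ) ∣ Rf1 e' M' a')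
    (hcode : ∀ i < n - 2, e i = e' i)
    (hU : ∀ i < n, (i % 2 = 0 ∨ Λ ≤ n + i + (s + 1) + 1 + J) → e (n - 2 + i) = e' (n - 2 + i)) :
    (2 ^ (w - 1) : ℤ) ∣ (a' : ℤ) - a := by
  have hn2 : 2 ≤ n := by omega
  have hnn : 2 * n = 2 ^ (s + 1) := by rw [hn, pow_succ']
  obtain ⟨κ, hκ⟩ : ∃ κ, κ + 2 * s + 2 * j + 1 = n := ⟨n - 1 - 2 * s - 2 * j, by omega⟩
  -- level n
  have r1 : (2 ^ (n - 1 - j) : ℤ) ∣ Rf e (n - 2) a :=
    Rf_level hn hn2 hj (by omega) h (by omega) (by omega)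
  have r8 : (8 : ℤ) ∣ Rf e (n - 2) a := by
    have : (2 ^ 3 : ℤ) ∣ 2 ^ (n - 1 - j) := pow_dvd_pow 2 (by omega)
    norm_num at this
    exact this.trans r1
  have d1 : (2 ^ κ : ℤ) ∣ Rf1 e (n - 2) a := by
    have h1 := Rf1_level hn hn2 hj (e := e) (M := M) (by omega) (B := κ) (by omega)
    have h2 := dvd_sub ((pow_dvd_pow (2 : ℤ) (show κ ≤ w by omega)).trans hd) h1
    rwa [sub_sub_cancel] at h2
  have d1' : (2 ^ κ : ℤ) ∣ Rf1 e (n - 2) a' := by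
    have h1 := Rf1_level hn hn2 hj' (e := e') (M := M') (by omega) (B := κ) (by omega)
    have h2 := dvd_sub ((pow_dvd_pow (2 : ℤ) (show κ ≤ w by omega)).trans hd') h1
    rw [sub_sub_cancel] at h2
    rwa [Rf1_congr hcode]
  have hx : (4 : ℤ) ∣ (a : ℤ) - 2 := by omega
  have hx' : (4 : ℤ) ∣ (a' : ℤ) - 2 := by omega
  have c1 : (2 ^ (κ - 1) : ℤ) ∣ (a' : ℤ) - a :=
    close_of_deriv he (by omega) (by omega) hx hx' r8 d1 d1'
  -- level 2n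
  have R2 : (2 ^ Λ : ℤ) ∣ Rf e (2 * n - 2) a :=
    Rf_level hnn (by omega) hj (by omega) h (by omega) (by omega)
  have R2' : (2 ^ Λ : ℤ) ∣ Rf e' (2 * n - 2) a' :=
    Rf_level hnn (by omega) hj' (by omega) h' (by omega) (by omega)
  have D2 : (2 ^ w : ℤ) ∣ Rf1 e (2 * n - 2) a := by
    have h1 := Rf1_level hnn (by omega) hj (e := e) (M := M) (by omega) (B := w) (by omega)
    have h2 := dvd_sub hd h1
    rwa [sub_sub_cancel] at h2
  have D2' : (2 ^ w : ℤ) ∣ Rf1 e' (2 * n - 2) a' := by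
    have h1 := Rf1_level hnn (by omega) hj' (e := e') (M := M') (by omega) (B := w) (by omega)
    have h2 := dvd_sub hd' h1
    rwa [sub_sub_cancel] at h2
  have c2 : (2 ^ (κ - 1) : ℤ) ∣ (a : ℤ) - a' := by
    have := (dvd_neg).2 c1
    rwa [neg_sub] at this
  have S2 : (2 ^ Λ : ℤ) ∣ Rf e' (2 * n - 2) a := by
    obtain ⟨k, hk⟩ := Rf_taylor e' (2 * n - 2) a' ((a : ℤ) - a')
    rw [show (a' : ℤ) + ((a : ℤ) - a') = a by ring] at hk
    rw [hk]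
    refine dvd_add (dvd_add R2' ?_) ?_
    · have := mul_dvd_mul D2' c2
      rw [← pow_add] at this
      exact (pow_dvd_pow 2 (by omega)).trans this
    · refine dvd_mul_of_dvd_right ?_ _
      have := mul_dvd_mul c2 c2
      rw [← pow_add] at this
      rw [pow_two]
      exact (pow_dvd_pow 2 (by omega)).trans this
  -- the remaining bits
  have hsplit : 2 * n - 2 = (n - 2) + n := by omega
  have hpt : (a : ℤ) + 2 + ((n - 2 : ℕ) : ℤ) = ((a + n : ℕ) : ℤ) := by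
    rw [Nat.cast_sub hn2]; push_cast; ring
  have R3 := R2
  have S3 := S2
  rw [hsplit, Rf_add, hpt] at R3 S3
  rw [← Rf_congr hcode (a : ℤ)] at S3
  have hall := mult (N := a + n) (Λ := Λ) (m := n) (c := Rf e (n - 2) a) (H := Hf (n - 2) a)
    (e := fun i => e (n - 2 + i)) (e' := fun i => e' (n - 2 + i)) (fun i => he _)
    (fun i => he' _) R3 S3 (by
      intro i hi hor
      apply hU i hi
      rcases hor with h1 | h1
      · left
        have h2n : n % 2 = 0 := by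
          rw [hn]
          obtain ⟨s', rfl⟩ : ∃ s', s = s' + 1 := ⟨s - 1, by omega⟩
          rw [pow_succ]; omega
        omega
      · right
        have h2 : (2 ^ Λ : ℤ) ∣ G a (n + i) := by
          rw [G_add, show (a : ℤ) + n = ((a + n : ℕ) : ℤ) by push_cast; rfl]
          have h3 : G a n = ((a : ℤ) + 2) * Hf (n - 2) a := by
            rw [Hf_mul]; congr 1; omega
          rw [h3, mul_assoc]
          exact dvd_mul_of_dvd_right h1 _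
        have := upper' hnorm (m := n + i) (by omega) h2
        omega)
  have hfull : ∀ i < 2 * n - 2, e i = e' i := by
    intro i hi
    by_cases h1 : i < n - 2
    · exact hcode i h1
    · have := hall (i - (n - 2)) (by omega)
      rwa [show n - 2 + (i - (n - 2)) = i by omega] at this
  have R8 : (8 : ℤ) ∣ Rf e (2 * n - 2) a := by
    have : (2 ^ 3 : ℤ) ∣ 2 ^ Λ := pow_dvd_pow 2 (by omega)
    norm_num at this
    exact this.trans R2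
  refine close_of_deriv he (m := 2 * n - 2) (by omega) (by omega) hx hx' R8 D2 ?_
  rwa [Rf1_congr hfull]

lemma simple_close {s n j a a' K M M' w : ℕ} (hn : n = 2 ^ s) (hn2 : 2 ≤ n)
    (hj : ¬ 2 ^ (j + 1) ∣ a + 2)
    {e e' : ℕ → ℤ} (hM : n - 2 ≤ M) (hM' : n - 2 ≤ M')
    (h : (2 ^ K : ℤ) ∣ Rf e M a) (h' : (2 ^ K : ℤ) ∣ Rf e' M' a')
    (hw : ¬ (2 ^ w : ℤ) ∣ Rf1 e M a) (hw1 : 1 ≤ w) (hnw : w + 1 + 2 * j + 2 * s ≤ n - 1)
    (hcode : ∀ i < n - 2, e i = e' i) (hh : (2 ^ (w + 1) : ℤ) ∣ (a' : ℤ) - a)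
    {A B : ℕ} (hA : A ≤ K) (hB : B + (w - 1) ≤ A)
    (hH : (2 ^ A : ℤ) ∣ Hf (n - 2) a * (Z (fun i => e (n - 2 + i)) (M - (n - 2)) ((a + n : ℕ) : ℤ)
      - Z (fun i => e' (n - 2 + i)) (M' - (n - 2)) ((a' + n : ℕ) : ℤ))) :
    (2 ^ B : ℤ) ∣ (a' : ℤ) - a := by
  set y := Z (fun i => e (n - 2 + i)) (M - (n - 2)) ((a + n : ℕ) : ℤ) with hy
  set y' := Z (fun i => e' (n - 2 + i)) (M' - (n - 2)) ((a' + n : ℕ) : ℤ) with hy'
  have hpt : ∀ b : ℕ, (b : ℤ) + 2 + ((n - 2 : ℕ) : ℤ) = ((b + n : ℕ) : ℤ) := by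
    intro b
    rw [Nat.cast_sub hn2]; push_cast; ring
  have h1 : Rf e M a = Rf e (n - 2) a + Hf (n - 2) a * y := by
    conv_lhs => rw [show M = (n - 2) + (M - (n - 2)) by omega]
    rw [Rf_add, hpt]
  have h1' : Rf e' M' a' = Rf e (n - 2) a' + Hf (n - 2) a' * y' := by
    conv_lhs => rw [show M' = (n - 2) + (M' - (n - 2)) by omega]
    rw [Rf_add, hpt, ← Rf_congr hcode]
  obtain ⟨k, hk⟩ := Rf_taylor e (n - 2) a ((a' : ℤ) - a)
  obtain ⟨k', hk'⟩ := Hf_taylor (n - 2) a ((a' : ℤ) - a)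
  rw [show (a : ℤ) + ((a' : ℤ) - a) = a' by ring] at hk hk'
  have h2 := Rf1_level hn hn2 hj (e := e) (M := M) hM (B := w + 1) (by omega)
  have h3 := Hf1_val hn hn2 hj (B := w + 1) (by omega)
  set ρ := Rf1 e (n - 2) a + k * ((a' : ℤ) - a)
    + (Hf1 (n - 2) a + k' * ((a' : ℤ) - a)) * y' with hρ
  have hww : (2 ^ w : ℤ) ∣ 2 ^ (w + 1) := pow_dvd_pow 2 (by omega)
  have hρw : ¬ (2 ^ w : ℤ) ∣ ρ := by
    intro h4
    apply hw
    have h5 : Rf1 e M a = ρ + (Rf1 e M a - Rf1 e (n - 2) a) - k * ((a' : ℤ) - a)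
        - (Hf1 (n - 2) a + k' * ((a' : ℤ) - a)) * y' := by rw [hρ]; ring
    rw [h5]
    have hh' := hww.trans hh
    exact dvd_sub (dvd_sub (dvd_add h4 (hww.trans h2)) (dvd_mul_of_dvd_right hh' _))
      (dvd_mul_of_dvd_left (dvd_add (hww.trans h3) (dvd_mul_of_dvd_right hh' _)) _)
  have h6 : ρ * ((a' : ℤ) - a) = Rf e' M' a' - Rf e M a + Hf (n - 2) a * (y - y') := by
    rw [h1, h1', hk, hk', hρ]; ring
  have h7 : (2 ^ A : ℤ) ∣ ρ * ((a' : ℤ) - a) := by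
    rw [h6]
    exact dvd_add (dvd_sub ((pow_dvd_pow 2 hA).trans h') ((pow_dvd_pow 2 hA).trans h)) hH
  refine pow_dvd_of_mul A (w - 1) B ρ _ hB ?_ h7
  rwa [show w - 1 + 1 = w by omega]

end Pool.Agent.PS38.Null
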