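import Pool.Agent.PS38.Null5

set_option autoImplicit false

namespace Pool.Agent.PS38.Null

open Finset Filter
open scoped Nat Topology

/-- `D` is covered by residue classes modulo a power of `2` of total density `≤ δ`. -/
def Sm (δ : ℝ) (D : Set ℕ) : Prop :=
  ∃ (K : ℕ) (S : Finset ℕ), (∀ d ∈ D, d % 2 ^ K ∈ S) ∧ (S.card : ℝ) ≤ δ * 2 ^ K

lemma Sm.mono {δ : ℝ} {D E : Set ℕ} (h : Sm δ D) (hE : E ⊆ D) : Sm δ E := by
  obtain ⟨K, S, h1, h2⟩ := h
  exact ⟨K, S, fun d hd => h1 d (hE hd), h2⟩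

lemma Sm.lift {δ : ℝ} {D : Set ℕ} {K L : ℕ} (hKL : K ≤ L) {S : Finset ℕ}
    (h1 : ∀ d ∈ D, d % 2 ^ K ∈ S) (h2 : (S.card : ℝ) ≤ δ * 2 ^ K) :
    ∃ S' : Finset ℕ, (∀ d ∈ D, d % 2 ^ L ∈ S') ∧ (S'.card : ℝ) ≤ δ * 2 ^ L := by
  classical
  have hL : 2 ^ L = 2 ^ K * 2 ^ (L - K) := by rw [← pow_add]; congr 1; omega
  refine ⟨(range (2 ^ L)).filter fun r => r % 2 ^ K ∈ S, fun d hd => ?_, ?_⟩
  · rw [mem_filter, mem_range]
    refine ⟨Nat.mod_lt _ (by positivity), ?_⟩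
    rw [Nat.mod_mod_of_dvd _ (pow_dvd_pow 2 hKL)]
    exact h1 d hd
  · have h3 : ((range (2 ^ L)).filter fun r => r % 2 ^ K ∈ S).card ≤
        (S ×ˢ range (2 ^ (L - K))).card := by
      refine card_le_card_of_injOn (fun r => (r % 2 ^ K, r / 2 ^ K)) ?_ ?_
      · intro r hr
        rw [Finset.mem_coe, mem_filter, mem_range] at hr
        rw [Finset.mem_coe, mem_product, mem_range]
        exact ⟨hr.2, Nat.div_lt_of_lt_mul (by rw [← hL]; exact hr.1)⟩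
      · intro r _ r' _ hrr
        simp only [Prod.mk.injEq] at hrr
        rw [← Nat.div_add_mod r (2 ^ K), ← Nat.div_add_mod r' (2 ^ K), hrr.1, hrr.2]
    rw [card_product, card_range] at h3
    have h4 : (((range (2 ^ L)).filter fun r => r % 2 ^ K ∈ S).card : ℝ) ≤
        S.card * 2 ^ (L - K) := by exact_mod_cast h3
    refine h4.trans ((mul_le_mul_of_nonneg_right h2 (by positivity)).trans (le_of_eq ?_))
    rw [mul_assoc, ← pow_add]
    congr 2; omega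

lemma Sm.union {δ δ' : ℝ} {D D' : Set ℕ} (h : Sm δ D) (h' : Sm δ' D') : Sm (δ + δ') (D ∪ D') := by
  classical
  obtain ⟨K, S, h1, h2⟩ := h
  obtain ⟨K', S', h1', h2'⟩ := h'
  obtain ⟨T, t1, t2⟩ := Sm.lift (le_max_left K K') h1 h2
  obtain ⟨T', t1', t2'⟩ := Sm.lift (le_max_right K K') h1' h2'
  refine ⟨max K K', T ∪ T', ?_, ?_⟩
  · rintro d (hd | hd)
    · exact mem_union_left _ (t1 d hd)
    · exact mem_union_right _ (t1' d hd)
  · have : ((T ∪ T').card : ℝ) ≤ T.card + T'.card := by exact_mod_cast card_union_le T T'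
    linarith

/-- covered sets have small upper density. -/
lemma density_of_Sm {D : Set ℕ} (h : ∀ ε > 0, Sm ε D) :
    Tendsto (fun x : ℕ => (({a : ℕ | a < x ∧ a ∈ D}.ncard : ℝ)) / x) atTop (𝓝 0) := by
  classical
  rw [Metric.tendsto_atTop]
  intro ε hε
  obtain ⟨K, S, hS, hSr⟩ := h (ε / 4) (by positivity)
  refine ⟨2 ^ K, fun x hx => ?_⟩
  have hxpos : (0 : ℝ) < x := by
    have : 0 < 2 ^ K := by positivity
    have : 0 < x := by omega
    exact_mod_cast this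
  have hle : {a : ℕ | a < x ∧ a ∈ D}.ncard ≤ (x / 2 ^ K + 1) * S.card := by
    have h1 : {a : ℕ | a < x ∧ a ∈ D} =
        (((range x).filter fun a => a ∈ D : Finset ℕ) : Set ℕ) := by
      ext a
      simp
    rw [h1, Set.ncard_coe_finset]
    have h2 : (range (x / 2 ^ K + 1) ×ˢ S).card = (x / 2 ^ K + 1) * S.card := by
      rw [card_product, card_range]
    rw [← h2]
    refine card_le_card_of_injOn (fun a => (a / 2 ^ K, a % 2 ^ K)) ?_ ?_
    · intro a ha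
      rw [Finset.mem_coe, mem_filter, mem_range] at ha
      rw [Finset.mem_coe, mem_product, mem_range]
      exact ⟨Nat.lt_succ_of_le (Nat.div_le_div_right ha.1.le), hS a ha.2⟩
    · intro a _ a' _ haa
      simp only [Prod.mk.injEq] at haa
      rw [← Nat.div_add_mod a (2 ^ K), ← Nat.div_add_mod a' (2 ^ K), haa.1, haa.2]
  have hle' : (({a : ℕ | a < x ∧ a ∈ D}.ncard : ℝ)) ≤
      (x / 2 ^ K + 1) * S.card := by
    have h1 : (({a : ℕ | a < x ∧ a ∈ D}.ncard : ℝ)) ≤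
        (((x / 2 ^ K : ℕ) : ℝ) + 1) * S.card := by exact_mod_cast hle
    refine h1.trans (mul_le_mul_of_nonneg_right ?_ (by positivity))
    have h2 : ((x / 2 ^ K : ℕ) : ℝ) ≤ (x : ℝ) / ((2 ^ K : ℕ) : ℝ) := Nat.cast_div_le
    push_cast at h2
    linarith
  rw [Real.dist_eq, sub_zero, abs_of_nonneg (by positivity), div_lt_iff₀ hxpos]
  have hxK : (2 : ℝ) ^ K ≤ x := by exact_mod_cast hx
  have h3 : ((x : ℝ) / 2 ^ K + 1) * S.card ≤ ((x : ℝ) / 2 ^ K + 1) * (ε / 4 * 2 ^ K) :=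
    mul_le_mul_of_nonneg_left hSr (by positivity)
  have h4 : ((x : ℝ) / 2 ^ K + 1) * (ε / 4 * 2 ^ K) = ε / 4 * (x + 2 ^ K) := by
    field_simp
  have h5 : ε / 4 * (x + 2 ^ K) ≤ ε / 4 * (x + x) :=
    mul_le_mul_of_nonneg_left (by linarith) (by positivity)
  have h6 : ε / 4 * ((x : ℝ) + x) < ε * x := by nlinarith [mul_pos hε hxpos]
  linarith

lemma mod_eq_of_dvd {K d d' : ℕ} (h : (2 ^ K : ℤ) ∣ (d' : ℤ) - d) : d % 2 ^ K = d' % 2 ^ K := by
  have h9 : d ≡ d' [MOD 2 ^ K] := by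
    rw [Nat.modEq_iff_dvd]
    push_cast
    exact h
  exact h9

lemma dvd_of_mod_eq {K d d' : ℕ} (h : d % 2 ^ K = d' % 2 ^ K) : (2 ^ K : ℤ) ∣ (d' : ℤ) - d := by
  have h9 : d ≡ d' [MOD 2 ^ K] := h
  rw [Nat.modEq_iff_dvd] at h9
  push_cast at h9
  exact h9

/-- the code of a 0-1 sequence. -/
lemma code_eq {e e' : ℕ → ℤ} (he : ∀ i, e i = 0 ∨ e i = 1) (he' : ∀ i, e' i = 0 ∨ e' i = 1)
    {V : Finset ℕ} (h : V.filter (fun i => e i = 1) = V.filter (fun i => e' i = 1)) :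
    ∀ i ∈ V, e i = e' i := by
  intro i hi
  have h1 : i ∈ V.filter (fun i => e i = 1) ↔ i ∈ V.filter (fun i => e' i = 1) := by rw [h]
  rw [mem_filter, mem_filter] at h1
  rcases he i with h2 | h2 <;> rcases he' i with h3 | h3
  · rw [h2, h3]
  · exfalso
    have := (h1.2 ⟨hi, h3⟩).2
    rw [h2] at this; norm_num at this
  · exfalso
    have := (h1.1 ⟨hi, h2⟩).2
    rw [h3] at this; norm_num at this
  · rw [h2, h3]

/-- first terms with a small derivative. -/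
def DD (s j J K M0 w : ℕ) : Set ℕ := {a | a % 4 = 2 ∧ ¬ 2 ^ (j + 1) ∣ a + 2 ∧
  (∀ l < 2 ^ (s + 1), ¬ 2 ^ (s + 1 + J) ∣ a + l + 1) ∧
  ∃ e M, Dat K M0 a e M ∧ (2 ^ w : ℤ) ∣ Rf1 e M a}

lemma double_count {s n j J K M0 w Λ u : ℕ} (hn : n = 2 ^ s) (hs : 1 ≤ s)
    (hM0 : 2 * n - 2 ≤ M0) (hK : 2 * n ≤ K)
    (hw : w + 2 * (s + 1) + 2 * j + 1 = 2 * n) (hΛ : Λ + 4 * s + 4 * j + 4 = 2 * n)
    (hbig : 4 * s + 4 * j + 10 ≤ n) (hu : n / 2 + (2 * n + s + 2 + J - Λ) ≤ u) :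
    ∃ S : Finset ℕ, (∀ d ∈ DD s j J K M0 w, d % 2 ^ (w - 1) ∈ S) ∧
      S.card ≤ 2 ^ (n - 2) * 2 ^ u := by
  classical
  refine ⟨(range (2 ^ (w - 1))).filter fun r => ∃ d ∈ DD s j J K M0 w, d % 2 ^ (w - 1) = r,
    fun d hd => ?_, ?_⟩
  · rw [mem_filter, mem_range]
    exact ⟨Nat.mod_lt _ (by positivity), d, hd, rfl⟩
  set S := (range (2 ^ (w - 1))).filter fun r => ∃ d ∈ DD s j J K M0 w, d % 2 ^ (w - 1) = r
    with hS
  have hdata : ∀ r ∈ S, ∃ (d : ℕ) (e : ℕ → ℤ) (M : ℕ), d % 2 ^ (w - 1) = r ∧ d % 4 = 2 ∧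
      ¬ 2 ^ (j + 1) ∣ d + 2 ∧ (∀ l < 2 ^ (s + 1), ¬ 2 ^ (s + 1 + J) ∣ d + l + 1) ∧
      Dat K M0 d e M ∧ (2 ^ w : ℤ) ∣ Rf1 e M d := by
    intro r hr
    obtain ⟨d, ⟨h1, h2, h3, e, M, h4, h5⟩, h6⟩ := (mem_filter.1 hr).2
    exact ⟨d, e, M, h6, h1, h2, h3, h4, h5⟩
  choose! d e M h1 h2 h3 h4 h5 h6 using hdata
  set U : Finset ℕ := (range n).filter fun i => i % 2 = 0 ∨ Λ ≤ n + i + (s + 1) + 1 + J with hU
  have hUc : U.card ≤ u := by
    refine le_trans ?_ hu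
    have hsub : U ⊆ ((range (n / 2)).image fun i => 2 * i) ∪
        ((range n).filter fun i => Λ ≤ n + i + (s + 1) + 1 + J) := by
      intro i hi
      rw [hU, mem_filter, mem_range] at hi
      rcases hi.2 with h | h
      · apply mem_union_left
        rw [mem_image]
        refine ⟨i / 2, ?_, by omega⟩
        rw [mem_range]
        have h2n : n % 2 = 0 := by
          rw [hn]
          obtain ⟨s', rfl⟩ : ∃ s', s = s' + 1 := ⟨s - 1, by omega⟩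
          rw [pow_succ]; omega
        omega
      · apply mem_union_right
        rw [mem_filter, mem_range]
        exact ⟨hi.1, h⟩
    refine (card_le_card hsub).trans ((card_union_le _ _).trans ?_)
    refine Nat.add_le_add (card_image_le.trans (by rw [card_range])) ?_
    have hsub2 : ((range n).filter fun i => Λ ≤ n + i + (s + 1) + 1 + J) ⊆
        Finset.Ico (Λ - (n + s + 2 + J)) n := by
      intro i hi
      rw [mem_filter, mem_range] at hi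
      rw [Finset.mem_Ico]
      omega
    refine (card_le_card hsub2).trans ?_
    rw [Nat.card_Ico]
    omega
  have hcard : ((range (n - 2)).powerset ×ˢ U.powerset).card ≤ 2 ^ (n - 2) * 2 ^ u := by
    rw [card_product, card_powerset, card_powerset, card_range]
    exact Nat.mul_le_mul_left _ (Nat.pow_le_pow_right (by norm_num) hUc)
  refine le_trans (card_le_card_of_injOn (fun r => ((range (n - 2)).filter (fun i => e r i = 1),
    U.filter (fun i => e r (n - 2 + i) = 1))) ?_ ?_) hcard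
  · intro r _
    rw [Finset.mem_coe, mem_product, mem_powerset, mem_powerset]
    exact ⟨filter_subset _ _, filter_subset _ _⟩
  · intro r hr r' hr' hrr
    rw [Finset.mem_coe] at hr hr'
    simp only [Prod.mk.injEq] at hrr
    obtain ⟨he, hM, hR⟩ := h5 r hr
    obtain ⟨he', hM', hR'⟩ := h5 r' hr'
    have c1 := code_eq he he' hrr.1
    have c2 := code_eq (e := fun i => e r (n - 2 + i)) (e' := fun i => e r' (n - 2 + i))
      (fun i => he _) (fun i => he' _) hrr.2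
    have h7 := double_close hn hs (h2 r hr) (h2 r' hr') (h3 r hr) (h3 r' hr') (h4 r hr) he he'
      (by omega) (by omega) hK hR hR' hw hΛ hbig (h6 r hr) (h6 r' hr')
      (fun i hi => c1 i (mem_range.2 hi))
      (fun i hi hor => c2 i (by rw [hU, mem_filter, mem_range]; exact ⟨hi, hor⟩))
    rw [← h1 r hr, ← h1 r' hr']
    exact mod_eq_of_dvd h7

/-- first terms with a large derivative. -/
def SS (j K M0 w : ℕ) : Set ℕ := {a | ¬ 2 ^ (j + 1) ∣ a + 2 ∧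
  ∃ e M, Dat K M0 a e M ∧ ¬ (2 ^ w : ℤ) ∣ Rf1 e M a}

lemma simple_count {s n j K M0 w t C : ℕ} (hn : n = 2 ^ s) (hn2 : 2 ≤ n) (hM0 : n - 2 ≤ M0)
    (hw1 : 1 ≤ w) (hnw : w + t + 1 + 2 * j + 2 * s ≤ n - 1) (hK : n + t ≤ K)
    (hC : ∀ a, c t (X a) ≤ C) :
    ∃ S : Finset ℕ, (∀ d ∈ SS j K M0 w, d % 2 ^ (n - j + t - w) ∈ S) ∧
      S.card ≤ C * (2 ^ (n - 2) * 2 ^ (w + 1)) := by
  classical
  obtain ⟨L, hL⟩ : ∃ L, L = n - j + t - w := ⟨_, rfl⟩
  rw [← hL]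
  refine ⟨(range (2 ^ L)).filter fun r => ∃ d ∈ SS j K M0 w, d % 2 ^ L = r, fun d hd => ?_, ?_⟩
  · rw [mem_filter, mem_range]
    exact ⟨Nat.mod_lt _ (by positivity), d, hd, rfl⟩
  set S := (range (2 ^ L)).filter fun r => ∃ d ∈ SS j K M0 w, d % 2 ^ L = r with hS
  have hdata : ∀ r ∈ S, ∃ (d : ℕ) (e : ℕ → ℤ) (M : ℕ), d % 2 ^ L = r ∧
      ¬ 2 ^ (j + 1) ∣ d + 2 ∧ Dat K M0 d e M ∧ ¬ (2 ^ w : ℤ) ∣ Rf1 e M d := by
    intro r hr
    obtain ⟨d, ⟨h2, e, M, h4, h5⟩, h6⟩ := (mem_filter.1 hr).2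
    exact ⟨d, e, M, h6, h2, h4, h5⟩
  choose! d e M h1 h3 h5 h6 using hdata
  have hcard : ((range (n - 2)).powerset ×ˢ range (2 ^ (w + 1))).card =
      2 ^ (n - 2) * 2 ^ (w + 1) := by
    rw [card_product, card_powerset, card_range, card_range]
  set f : ℕ → Finset ℕ × ℕ := fun r => ((range (n - 2)).filter (fun i => e r i = 1),
    d r % 2 ^ (w + 1)) with hf
  have himg : (S.image f).card ≤ 2 ^ (n - 2) * 2 ^ (w + 1) := by
    rw [← hcard]
    refine card_le_card ?_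
    intro z hz
    obtain ⟨r, hr, rfl⟩ := mem_image.1 hz
    rw [mem_product, mem_powerset, mem_range]
    exact ⟨filter_subset _ _, Nat.mod_lt _ (by positivity)⟩
  refine (card_le_mul_card_image S C ?_).trans (Nat.mul_le_mul_left _ himg)
  intro z hz
  obtain ⟨r1, hr1, rfl⟩ := mem_image.1 hz
  refine le_trans ?_ (hC (d r1 + n))
  set y : ℕ → ℤ := fun r => Z (fun i => e r (n - 2 + i)) (M r - (n - 2)) ((d r + n : ℕ) : ℤ)
    with hy
  have hyX : ∀ r ∈ S, y r ∈ X (d r + n) := fun r hr =>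
    ⟨M r - (n - 2), fun i => e r (n - 2 + i), fun i => (h5 r hr).1 _, rfl⟩
  -- the general comparison
  have hcomp : ∀ r ∈ S, ∀ r' ∈ S, f r = f r' → ∀ A B : ℕ, A ≤ K → B + (w - 1) ≤ A →
      (2 ^ A : ℤ) ∣ Hf (n - 2) (d r) * (y r - y r') → (2 ^ B : ℤ) ∣ (d r' : ℤ) - d r := by
    intro r hr r' hr' hrr A B hA hB hH
    simp only [hf, Prod.mk.injEq] at hrr
    obtain ⟨he, hM, hR⟩ := h5 r hr
    obtain ⟨he', hM', hR'⟩ := h5 r' hr'
    exact simple_close hn hn2 (h3 r hr) (by omega) (by omega) hR hR' (h6 r hr) hw1 (by omega)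
      (fun i hi => code_eq he he' hrr.1 i (mem_range.2 hi)) (dvd_of_mod_eq hrr.2) hA hB hH
  have hHv : ∀ r ∈ S, (2 ^ (n - 1 - j) : ℤ) ∣ Hf (n - 2) (d r) := fun r hr =>
    Hf_val hn hn2 (h3 r hr) (by omega)
  unfold c
  refine card_le_card_of_injOn (fun r => ((y r : ℤ) : ZMod (2 ^ t))) ?_ ?_
  · intro r hr
    rw [Finset.mem_coe, mem_filter] at hr
    rw [Finset.mem_coe]
    have h7 : (2 ^ t : ℤ) ∣ (d r : ℤ) - (d r1 : ℤ) :=
      hcomp r1 hr1 r hr.1 hr.2.symm (n - 1 - j) t (by omega) (by omega)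
        (dvd_mul_of_dvd_left (hHv r1 hr1) _)
    refine im_congr (a := d r + n) (a' := d r1 + n) ?_ (mem_im.2 ⟨y r, hyX r hr.1, rfl⟩)
    have e1 : ((d r + n : ℕ) : ℤ) - ((d r1 + n : ℕ) : ℤ) = (d r : ℤ) - (d r1 : ℤ) := by
      push_cast; ring
    rw [e1]
    exact h7
  · intro r hr r' hr' hrr
    rw [Finset.mem_coe, mem_filter] at hr hr'
    have h7 : (2 ^ t : ℤ) ∣ y r - y r' := (eq_iff_dvd t _ _).1 hrr
    have h8 : (2 ^ (n - 1 - j + t) : ℤ) ∣ Hf (n - 2) (d r) * (y r - y r') := by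
      rw [pow_add]
      exact mul_dvd_mul (hHv r hr.1) h7
    have h9 := hcomp r hr.1 r' hr'.1 (hr.2.trans hr'.2.symm) (n - 1 - j + t) L (by omega)
      (by omega) h8
    rw [← h1 r hr.1, ← h1 r' hr'.1]
    exact mod_eq_of_dvd h9

end Pool.Agent.PS38.Null
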