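import Pool.Agent.PS38.Null6

set_option autoImplicit false

namespace Pool.Agent.PS38.Null

open Finset Filter
open scoped Nat Topology

lemma Sm.le {δ δ' : ℝ} {D : Set ℕ} (h : Sm δ D) (hd : δ ≤ δ') : Sm δ' D := by
  obtain ⟨K, S, h1, h2⟩ := h
  exact ⟨K, S, h1, h2.trans (mul_le_mul_of_nonneg_right hd (by positivity))⟩

lemma few (K N : ℕ) : Sm ((N : ℝ) / 2 ^ K) {a | ∃ l < N, 2 ^ K ∣ a + l + 1} := by
  classical
  refine ⟨K, (range (2 ^ K)).filter fun r => ∃ l < N, 2 ^ K ∣ r + l + 1, ?_, ?_⟩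
  · rintro d ⟨l, hl, hd⟩
    rw [mem_filter, mem_range]
    refine ⟨Nat.mod_lt _ (by positivity), l, hl, ?_⟩
    have h1 : 2 ^ K * (d / 2 ^ K) + d % 2 ^ K = d := Nat.div_add_mod d (2 ^ K)
    have h2 : 2 ^ K ∣ 2 ^ K * (d / 2 ^ K) + (d % 2 ^ K + l + 1) := by
      have e : 2 ^ K * (d / 2 ^ K) + (d % 2 ^ K + l + 1) = d + l + 1 := by omega
      rw [e]; exact hd
    exact (Nat.dvd_add_right (dvd_mul_right _ _)).1 h2
  · have h1 : ((range (2 ^ K)).filter fun r => ∃ l < N, 2 ^ K ∣ r + l + 1).card ≤ N := by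
      have h2 : ∀ r ∈ (range (2 ^ K)).filter fun r => ∃ l < N, 2 ^ K ∣ r + l + 1,
          ∃ l < N, 2 ^ K ∣ r + l + 1 := fun r hr => (mem_filter.1 hr).2
      choose! l hl hd using h2
      have h3 : ((range (2 ^ K)).filter fun r => ∃ l < N, 2 ^ K ∣ r + l + 1).card ≤
          (range N).card := by
        refine card_le_card_of_injOn l ?_ ?_
        · intro r hr
          rw [Finset.mem_coe, mem_range]
          exact hl r hr
        · intro r hr r' hr' hrr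
          have a1 := hd r hr
          have a2 := hd r' hr'
          rw [hrr] at a1
          have b1 := mem_range.1 (mem_filter.1 (Finset.mem_coe.1 hr)).1
          have b2 := mem_range.1 (mem_filter.1 (Finset.mem_coe.1 hr')).1
          by_contra hne
          rcases Nat.lt_or_gt_of_ne hne with h | h
          · have := Nat.dvd_sub a2 a1
            have h8 := Nat.le_of_dvd (by omega) this
            omega
          · have := Nat.dvd_sub a1 a2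
            have h8 := Nat.le_of_dvd (by omega) this
            omega
      rwa [card_range] at h3
    have h4 : (((range (2 ^ K)).filter fun r => ∃ l < N, 2 ^ K ∣ r + l + 1).card : ℝ) ≤ N := by
      exact_mod_cast h1
    refine h4.trans (le_of_eq ?_)
    field_simp

lemma mult_four (ε : ℝ) (hε : 0 < ε) : Sm ε {d | 4 ∣ d ∧ Start d} := by
  classical
  obtain ⟨t, ht1, hct⟩ := exists_small ε hε
  obtain ⟨s, hs⟩ : ∃ s, s = t + 4 := ⟨_, rfl⟩
  obtain ⟨n, hn⟩ : ∃ n, n = 2 ^ s := ⟨_, rfl⟩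
  have hsn : s < n := by rw [hn]; exact Nat.lt_two_pow_self
  set K := n - 2 + t with hK
  set D : Set ℕ := {d | 4 ∣ d ∧ Start d} with hD
  set S : Finset ℕ := (range (2 ^ K)).filter fun r => ∃ d ∈ D, d % 2 ^ K = r with hS
  set C : ℕ := ⌊ε * 2 ^ t⌋₊ with hC
  have hcount : S.card ≤ C * 2 ^ (n - 4) := by
    refine count (s := s) (t := t) hn (by omega) (by omega) ht1 (fun a => ?_) D ?_ S ?_
    · exact Nat.le_floor (hct a)
    · rintro d ⟨hd4, hds⟩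
      exact ⟨hd4, good_of_start hds _⟩
    · intro r hr
      exact (mem_filter.1 hr).2
  refine ⟨K, S, fun d hd => ?_, ?_⟩
  · rw [hS, mem_filter, mem_range]
    exact ⟨Nat.mod_lt _ (by positivity), d, hd, rfl⟩
  · have h1 : (C : ℝ) ≤ ε * 2 ^ t := Nat.floor_le (by positivity)
    have h2 : (S.card : ℝ) ≤ C * 2 ^ (n - 4) := by exact_mod_cast hcount
    refine h2.trans ((mul_le_mul_of_nonneg_right h1 (by positivity)).trans ?_)
    rw [mul_assoc, ← pow_add]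
    refine mul_le_mul_of_nonneg_left ?_ (by positivity)
    exact pow_le_pow_right₀ (by norm_num) (by omega)

lemma big (c : ℕ) : 128 * (c + 1) ≤ 2 ^ (c + 7) := by
  have h := Nat.lt_two_pow_self (n := c)
  have e : 2 ^ (c + 7) = 2 ^ c * 128 := by rw [pow_add]; norm_num
  omega

theorem all_small (ε : ℝ) (hε : 0 < ε) : Sm ε {d | Start d} := by
  classical
  obtain ⟨δ, hδ⟩ : ∃ δ, δ = ε / 8 := ⟨_, rfl⟩
  have hδ0 : 0 < δ := by rw [hδ]; positivity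
  obtain ⟨J, hJ⟩ : ∃ J : ℕ, (1 / 2 : ℝ) ^ J < δ := exists_pow_lt_of_lt_one hδ0 (by norm_num)
  obtain ⟨j, hj⟩ : ∃ j, j = J + 1 := ⟨_, rfl⟩
  obtain ⟨s, hs⟩ : ∃ s, s = (8 * J + 20) + 7 := ⟨_, rfl⟩
  obtain ⟨n, hn⟩ : ∃ n, n = 2 ^ s := ⟨_, rfl⟩
  have hnbig : 128 * ((8 * J + 20) + 1) ≤ n := by rw [hn, hs]; exact big _
  obtain ⟨w, hw⟩ : ∃ w, w + 2 * (s + 1) + 2 * j + 1 = 2 * n :=
    ⟨2 * n - (2 * (s + 1) + 2 * j + 1), by omega⟩
  obtain ⟨Λ, hΛ⟩ : ∃ Λ, Λ + 4 * s + 4 * j + 4 = 2 * n := ⟨2 * n - (4 * s + 4 * j + 4), by omega⟩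
  obtain ⟨t, ht1, hct⟩ := exists_small (δ / 2 ^ (2 * w + j)) (by positivity)
  obtain ⟨s', hs'⟩ : ∃ s', s' = (w + t + 2 + 2 * j) + 7 := ⟨_, rfl⟩
  obtain ⟨n', hn'⟩ : ∃ n', n' = 2 ^ s' := ⟨_, rfl⟩
  have hnbig' : 128 * ((w + t + 2 + 2 * j) + 1) ≤ n' := by rw [hn', hs']; exact big _
  obtain ⟨K, hK⟩ : ∃ K, K = 2 * n + n' + t := ⟨_, rfl⟩
  obtain ⟨M0, hM0⟩ : ∃ M0, M0 = 2 * n + n' := ⟨_, rfl⟩
  have h2J : (1 / 2 : ℝ) ^ J = 1 / 2 ^ J := by rw [div_pow, one_pow]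
  -- the pieces
  have p1 : Sm δ {d | 4 ∣ d ∧ Start d} := mult_four δ hδ0
  have p2 : Sm δ {a | ∃ l < 2, 2 ^ (j + 1) ∣ a + l + 1} := by
    refine (few (j + 1) 2).le ?_
    have e : ((2 : ℕ) : ℝ) / 2 ^ (j + 1) = 1 / 2 * (1 / 2) ^ J := by
      rw [h2J, hj, pow_succ, pow_succ]; field_simp; norm_num
    rw [e]
    have : (0 : ℝ) < (1 / 2 : ℝ) ^ J := by positivity
    linarith
  have p3 : Sm δ {a | ∃ l < 2 ^ (s + 1), 2 ^ (s + 1 + J) ∣ a + l + 1} := by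
    refine (few (s + 1 + J) (2 ^ (s + 1))).le ?_
    have e : ((2 ^ (s + 1) : ℕ) : ℝ) / 2 ^ (s + 1 + J) = (1 / 2) ^ J := by
      rw [h2J, pow_add (2 : ℝ) (s + 1) J]; push_cast; field_simp
    rw [e]
    exact hJ.le
  have p4 : Sm δ (DD s j J K M0 w) := by
    obtain ⟨S, hS1, hS2⟩ := double_count (s := s) (n := n) (j := j) (J := J) (K := K) (M0 := M0)
      (w := w) (Λ := Λ) (u := n / 2 + (2 * n + s + 2 + J - Λ)) hn (by omega) (by omega) (by omega)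
      hw hΛ (by omega) le_rfl
    refine ⟨w - 1, S, hS1, ?_⟩
    have h1 : (S.card : ℝ) ≤ 2 ^ (n - 2) * 2 ^ (n / 2 + (2 * n + s + 2 + J - Λ)) := by
      exact_mod_cast hS2
    refine h1.trans ?_
    rw [← pow_add]
    have h2 : (2 : ℝ) ^ (n - 2 + (n / 2 + (2 * n + s + 2 + J - Λ))) ≤ 2 ^ (w - 1 - J) :=
      pow_le_pow_right₀ (by norm_num) (by omega)
    refine h2.trans ?_
    have h3 : (2 : ℝ) ^ (w - 1) = 2 ^ (w - 1 - J) * 2 ^ J := by
      rw [← pow_add]; congr 1; omega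
    rw [h3]
    have h4 : (1 : ℝ) ≤ δ * 2 ^ J := by
      rw [h2J] at hJ
      have : (0 : ℝ) < 2 ^ J := by positivity
      rw [div_lt_iff₀ this] at hJ
      exact hJ.le
    have h5 : (0 : ℝ) < 2 ^ (w - 1 - J) := by positivity
    nlinarith
  have p5 : Sm δ (SS j K M0 w) := by
    obtain ⟨S, hS1, hS2⟩ := simple_count (s := s') (n := n') (j := j) (K := K) (M0 := M0)
      (w := w) (t := t) (C := ⌊δ / 2 ^ (2 * w + j) * 2 ^ t⌋₊) hn' (by omega) (by omega)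
      (by omega) (by omega) (by omega) (fun a => Nat.le_floor (hct a))
    refine ⟨n' - j + t - w, S, hS1, ?_⟩
    have h1 : (S.card : ℝ) ≤ (⌊δ / 2 ^ (2 * w + j) * 2 ^ t⌋₊ : ℝ) *
        (2 ^ (n' - 2) * 2 ^ (w + 1)) := by exact_mod_cast hS2
    have h2 : (⌊δ / 2 ^ (2 * w + j) * 2 ^ t⌋₊ : ℝ) ≤ δ / 2 ^ (2 * w + j) * 2 ^ t :=
      Nat.floor_le (by positivity)
    refine h1.trans ((mul_le_mul_of_nonneg_right h2 (by positivity)).trans ?_)
    have h3 : (2 : ℝ) ^ (n' - j + t - w) * 2 ^ (2 * w + j) = 2 ^ (n' + t + w) := by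
      rw [← pow_add]; congr 1; omega
    have h4 : (2 : ℝ) ^ t * (2 ^ (n' - 2) * 2 ^ (w + 1)) ≤ 2 ^ (n' + t + w) := by
      rw [← pow_add, ← pow_add]
      exact pow_le_pow_right₀ (by norm_num) (by omega)
    have h5 : (0 : ℝ) < 2 ^ (2 * w + j) := by positivity
    have e : δ / 2 ^ (2 * w + j) * 2 ^ t * (2 ^ (n' - 2) * 2 ^ (w + 1))
        = δ * (2 ^ t * (2 ^ (n' - 2) * 2 ^ (w + 1))) / 2 ^ (2 * w + j) := by ring
    rw [e, div_le_iff₀ h5, mul_assoc, h3]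
    exact mul_le_mul_of_nonneg_left h4 hδ0.le
  refine ((p1.union (p2.union (p3.union (p4.union p5)))).mono ?_).le (by rw [hδ]; linarith)
  intro a ha
  by_cases h4 : 4 ∣ a
  · exact Or.inl ⟨h4, ha⟩
  by_cases hodd : a % 2 = 1
  · exact absurd ha (not_start_odd hodd)
  have hmod : a % 4 = 2 := by omega
  by_cases hj2 : 2 ^ (j + 1) ∣ a + 2
  · exact Or.inr (Or.inl ⟨1, by norm_num, hj2⟩)
  by_cases hnm : ∃ l < 2 ^ (s + 1), 2 ^ (s + 1 + J) ∣ a + l + 1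
  · exact Or.inr (Or.inr (Or.inl hnm))
  push Not at hnm
  obtain ⟨e, M, hD⟩ := dat_of_start hmod hj2 ha K M0
  by_cases hd : (2 ^ w : ℤ) ∣ Rf1 e M a
  · exact Or.inr (Or.inr (Or.inr (Or.inl ⟨hmod, hj2, hnm, e, M, hD, hd⟩)))
  · exact Or.inr (Or.inr (Or.inr (Or.inr ⟨hj2, e, M, hD, hd⟩)))

/-- For `p = 2` the set of first terms has natural density `0`. -/
theorem start_density_all : Tendsto (fun x : ℕ =>
    (({a : ℕ | a < x ∧ Start a}.ncard : ℝ)) / x) atTop (𝓝 0) :=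
  density_of_Sm (D := {d | Start d}) all_small

end Pool.Agent.PS38.Null
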