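import Mathlib
import Pool.Agent.PS38.Compact

set_option autoImplicit false

namespace Pool.Agent.PS38.PatternChains

open Finset Filter
open scoped Nat Topology

/-- The gap pattern `{0, p - 1, p} ∪ C` for odd `p` and `{0, 1, 3, 4} ∪ C` for `p = 2`. -/
def Pattern (p : ℕ) (C : Set ℕ) : Set ℕ := (if p = 2 then {0, 1, 3, 4} else {0, p - 1, p}) ∪ C

open Classical in
/-- Every prime `p`, every set `C` of integers `≥ max (6, 2 p)` with no two neighbours `c, c + 1`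
such that `p ∣ c + 2`, and `B = Pattern p C`: some `p`-adic integer `α`, not a negative integer, has
`∑ b ∈ B, (α + 1) ⋯ (α + b) = 0`; and for every `M` all natural numbers `a` in some residue class
modulo a power of `p` satisfy, for all `b ≤ M`, that the `p`-part of `(a + b)!` divides
`∑ c ∈ B, c < b, (a + c)!`. -/
theorem result (p : ℕ) [Fact p.Prime] (C : Set ℕ) (hC : ∀ c ∈ C, 6 ≤ c ∧ 2 * p ≤ c)
    (hC2 : ∀ c ∈ C, c + 1 ∈ C → ¬ p ∣ c + 2) :
    (∃ α : ℤ_[p], (∀ m : ℕ, 1 ≤ m → α ≠ -(m : ℤ_[p])) ∧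
      Tendsto (fun n => ∑ b ∈ (range n).filter (· ∈ Pattern p C),
        ∏ i ∈ range b, (α + (i : ℤ_[p]) + 1)) atTop (𝓝 0)) ∧
    ∀ M : ℕ, ∃ L r : ℕ, ∀ a : ℕ, a ≡ r [MOD p ^ L] → ∀ b, b ≤ M →
      p ^ padicValNat p (a + b)! ∣ ∑ c ∈ (range b).filter (· ∈ Pattern p C), (a + c)! := by
  obtain ⟨α, h1, h2⟩ := PS38.alpha_all p C hC hC2
  exact ⟨⟨α, h1, h2⟩, fun M => PS38.residue_class p h1 h2 M⟩

end Pool.Agent.PS38.PatternChains
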